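import Mathlib

set_option autoImplicit false

/-! Linear differential operators with polynomial coefficients: the annihilator principle. -/

open Polynomial Filter Topology

namespace Pool.Agent.H288.ST

/-- smooth functions -/
def Sm (f : ℝ → ℂ) : Prop := ∀ n : ℕ, ContDiff ℝ n f

/-- the action of the operator `∑ a_j(t) (d/dt)^j` -/
noncomputable def act (A : ℂ[X][X]) (f : ℝ → ℂ) (t : ℝ) : ℂ :=
  A.sum fun j a => a.eval (t : ℂ) * iteratedDeriv j f t

lemma act_add (A B : ℂ[X][X]) (f : ℝ → ℂ) (t : ℝ) : act (A + B) f t = act A f t + act B f t := by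
  unfold act
  exact Polynomial.sum_add_index _ _ _ (fun i => by simp) (fun i a b => by rw [eval_add]; ring)

lemma act_monomial (j : ℕ) (a : ℂ[X]) (f : ℝ → ℂ) (t : ℝ) :
    act (monomial j a) f t = a.eval (t : ℂ) * iteratedDeriv j f t := by
  unfold act
  exact Polynomial.sum_monomial_index _ _ (by simp)

lemma act_zero (f : ℝ → ℂ) (t : ℝ) : act 0 f t = 0 := by
  unfold act; simp

lemma act_C_mul (b : ℂ[X]) (A : ℂ[X][X]) (f : ℝ → ℂ) (t : ℝ) :
    act (C b * A) f t = b.eval (t : ℂ) * act A f t := by
  induction A using Polynomial.induction_on' with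
  | add p q hp hq => rw [mul_add, act_add, act_add, hp, hq]; ring
  | monomial n a => rw [C_mul_monomial, act_monomial, act_monomial, eval_mul]; ring

lemma act_neg (A : ℂ[X][X]) (f : ℝ → ℂ) (t : ℝ) : act (-A) f t = - act A f t := by
  have h := act_add A (-A) f t
  rw [add_neg_cancel, act_zero] at h
  linear_combination -h

lemma act_sub (A B : ℂ[X][X]) (f : ℝ → ℂ) (t : ℝ) : act (A - B) f t = act A f t - act B f t := by
  rw [sub_eq_add_neg, act_add, act_neg]; ring

lemma act_sum {ι : Type} (s : Finset ι) (A : ι → ℂ[X][X]) (f : ℝ → ℂ) (t : ℝ) :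
    act (∑ i ∈ s, A i) f t = ∑ i ∈ s, act (A i) f t := by
  classical
  induction s using Finset.induction_on with
  | empty => simp [act_zero]
  | insert a s ha ih => rw [Finset.sum_insert ha, Finset.sum_insert ha, act_add, ih]

lemma act_fsub (A : ℂ[X][X]) (f g : ℝ → ℂ) (hf : Sm f) (hg : Sm g) (t : ℝ) :
    act A (fun t => f t - g t) t = act A f t - act A g t := by
  induction A using Polynomial.induction_on' with
  | add p q hp hq => rw [act_add, act_add, act_add, hp, hq]; ring
  | monomial n a =>
    rw [act_monomial, act_monomial, act_monomial]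
    have h : iteratedDeriv n (fun t => f t - g t) t = iteratedDeriv n f t - iteratedDeriv n g t := by
      have := iteratedDeriv_sub (n := n) (f := f) (g := g) (x := t) (hf n).contDiffAt
        (hg n).contDiffAt
      exact this
    rw [h]; ring

/-- apply the derivative to the coefficients -/
noncomputable def dco (A : ℂ[X][X]) : ℂ[X][X] := A.sum fun j a => monomial j (derivative a)

/-- the operator `d/dt ∘ A` -/
noncomputable def opD (A : ℂ[X][X]) : ℂ[X][X] := X * A + dco A

lemma dco_add (A B : ℂ[X][X]) : dco (A + B) = dco A + dco B := by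
  unfold dco
  exact Polynomial.sum_add_index _ _ _ (fun i => by simp) (fun i a b => by simp)

lemma dco_monomial (j : ℕ) (a : ℂ[X]) : dco (monomial j a) = monomial j (derivative a) := by
  unfold dco
  exact Polynomial.sum_monomial_index _ _ (by simp)

lemma dco_coeff (A : ℂ[X][X]) (j : ℕ) : (dco A).coeff j = derivative (A.coeff j) := by
  induction A using Polynomial.induction_on' with
  | add p q hp hq => rw [dco_add, coeff_add, hp, hq, coeff_add, derivative_add]
  | monomial n a =>
    rw [dco_monomial, coeff_monomial, coeff_monomial]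
    split_ifs <;> simp

lemma dco_degree (A : ℂ[X][X]) : (dco A).degree ≤ A.degree := by
  rw [degree_le_iff_coeff_zero]
  intro m hm
  rw [dco_coeff, coeff_eq_zero_of_degree_lt hm, derivative_zero]

lemma act_hasDerivAt (A : ℂ[X][X]) (f : ℝ → ℂ) (hf : Sm f) (t : ℝ) :
    HasDerivAt (act A f) (act (opD A) f t) t := by
  induction A using Polynomial.induction_on' with
  | add p q hp hq =>
    have h1 := hp.add hq
    have e1 : act (p + q) f = act p f + act q f := by
      funext t; exact act_add p q f t
    rw [e1]
    refine h1.congr_deriv ?_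
    unfold opD
    rw [dco_add, act_add, act_add, mul_add]
    simp only [act_add]
    ring
  | monomial n a =>
    have e1 : act (monomial n a) f = fun t : ℝ => a.eval (t : ℂ) * iteratedDeriv n f t := by
      funext t; exact act_monomial n a f t
    rw [e1]
    have h1 : HasDerivAt (fun t : ℝ => a.eval (t : ℂ)) ((derivative a).eval (t : ℂ)) t :=
      (a.hasDerivAt (t : ℂ)).comp_ofReal
    have h2 : HasDerivAt (iteratedDeriv n f) (iteratedDeriv (n + 1) f t) t := by
      rw [iteratedDeriv_succ]
      have := (hf (n + 1)).differentiable_iteratedDeriv n (by exact_mod_cast Nat.lt_succ_self n)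
      exact (this t).hasDerivAt
    refine (h1.mul h2).congr_deriv ?_
    unfold opD
    rw [dco_monomial, act_add, X_mul_monomial, act_monomial, act_monomial]
    ring

lemma act_opD_of_zero (A : ℂ[X][X]) (f : ℝ → ℂ) (hf : Sm f) (h : ∀ t, act A f t = 0) (t : ℝ) :
    act (opD A) f t = 0 := by
  have h1 := act_hasDerivAt A f hf t
  have h2 : act A f = fun _ => 0 := funext h
  rw [h2] at h1
  exact (h1.unique (hasDerivAt_const t 0))

lemma act_continuous (A : ℂ[X][X]) (f : ℝ → ℂ) (hf : Sm f) : Continuous (act A f) :=
  continuous_iff_continuousAt.2 fun t => (act_hasDerivAt A f hf t).continuousAt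

lemma opD_degree (A : ℂ[X][X]) (hA : A ≠ 0) :
    (opD A).degree = A.degree + 1 ∧ (opD A).leadingCoeff = A.leadingCoeff := by
  have h1 : (X * A : ℂ[X][X]).degree = A.degree + 1 := by
    rw [degree_mul, degree_X, add_comm]
  have h2 : (dco A).degree < (X * A : ℂ[X][X]).degree := by
    rw [h1]
    refine lt_of_le_of_lt (dco_degree A) ?_
    rw [degree_eq_natDegree hA]
    exact_mod_cast Nat.lt_succ_self _
  constructor
  · unfold opD
    rw [degree_add_eq_left_of_degree_lt h2, h1]
  · unfold opD
    rw [leadingCoeff_add_of_degree_lt' h2, leadingCoeff_mul, leadingCoeff_X, one_mul]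

lemma opD_iter (L : ℂ[X][X]) (hL : L ≠ 0) (k : ℕ) :
    ∃ Lk : ℂ[X][X], Lk.degree = L.degree + k ∧ Lk.leadingCoeff = L.leadingCoeff ∧
      ∀ f, Sm f → (∀ t, act L f t = 0) → ∀ t, act Lk f t = 0 := by
  induction k with
  | zero => exact ⟨L, by simp, rfl, fun f _ h => h⟩
  | succ k ih =>
    obtain ⟨Lk, h1, h2, h3⟩ := ih
    have h0 : Lk ≠ 0 := by
      rintro rfl
      rw [leadingCoeff_zero] at h2
      exact hL (leadingCoeff_eq_zero.1 h2.symm)
    refine ⟨opD Lk, ?_, ?_, ?_⟩
    · rw [(opD_degree Lk h0).1, h1]
      push_cast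
      rw [add_assoc]
    · rw [(opD_degree Lk h0).2, h2]
    · intro f hf h
      exact act_opD_of_zero Lk f hf (h3 f hf h)

/-- the zeros of a non-zero polynomial do not matter for continuous functions -/
lemma eq_zero_of_poly_mul (r : ℂ[X]) (hr : r ≠ 0) (F : ℝ → ℂ) (hF : Continuous F)
    (h : ∀ t : ℝ, r.eval (t : ℂ) * F t = 0) : ∀ t, F t = 0 := by
  have hfin : Set.Finite {t : ℝ | r.eval (t : ℂ) = 0} := by
    have h1 : Set.Finite {z : ℂ | r.IsRoot z} := by
      refine (r.roots.toFinset.finite_toSet).subset fun z hz => ?_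
      simpa [hr] using hz
    exact h1.preimage (Complex.ofReal_injective.injOn)
  have hd : Dense {t : ℝ | r.eval (t : ℂ) = 0}ᶜ := hfin.countable.dense_compl ℝ
  have h2 : F = fun _ => 0 := by
    refine Continuous.ext_on hd hF continuous_const ?_
    intro t ht
    rcases mul_eq_zero.1 (h t) with h3 | h3
    · exact absurd h3 ht
    · exact h3
  intro t
  rw [h2]

/-- The annihilator principle: if `L` is a non-zero operator of least order annihilating `φ`, and `L`
annihilates `h`, then every operator annihilating `φ` annihilates `h`. -/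
theorem ann (φ h : ℝ → ℂ) (hφ : Sm φ) (hh : Sm h) (L : ℂ[X][X]) (hL : L ≠ 0)
    (hLφ : ∀ t, act L φ t = 0) (hLh : ∀ t, act L h t = 0)
    (hmin : ∀ B : ℂ[X][X], (∀ t, act B φ t = 0) → B.degree < L.degree → B = 0)
    (A : ℂ[X][X]) (hA : ∀ t, act A φ t = 0) : ∀ t, act A h t = 0 := by
  have key : ∀ n : ℕ, ∀ A : ℂ[X][X], A.degree < (n : WithBot ℕ) → (∀ t, act A φ t = 0) →
      ∃ r : ℂ[X], r ≠ 0 ∧ ∀ t : ℝ, r.eval (t : ℂ) * act A h t = 0 := by
    intro n
    induction n with
    | zero =>
      intro A hd _
      have : A = 0 := by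
        rw [← degree_eq_bot]
        rcases hdeg : A.degree with _ | m
        · rfl
        · rw [hdeg] at hd
          exact absurd hd (by
            have : ((0 : ℕ) : WithBot ℕ) ≤ ((m : ℕ) : WithBot ℕ) := by exact_mod_cast Nat.zero_le m
            exact not_lt.2 this)
      exact ⟨1, one_ne_zero, fun t => by rw [this, act_zero, mul_zero]⟩
    | succ n ih =>
      intro A hd hA
      by_cases hlt : A.degree < L.degree
      · have := hmin A hA hlt
        exact ⟨1, one_ne_zero, fun t => by rw [this, act_zero, mul_zero]⟩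
      · have hA0 : A ≠ 0 := by
          rintro rfl
          exact hlt (by rw [degree_zero]; exact bot_lt_iff_ne_bot.2 (fun h => hL (degree_eq_bot.1 h)))
        have hle : L.natDegree ≤ A.natDegree := natDegree_le_natDegree (not_lt.1 hlt)
        obtain ⟨Lk, h1, h2, h3⟩ := opD_iter L hL (A.natDegree - L.natDegree)
        have hdeg : Lk.degree = A.degree := by
          rw [h1, degree_eq_natDegree hL, degree_eq_natDegree hA0]
          exact_mod_cast Nat.add_sub_cancel' hle
        have hlcA : A.leadingCoeff ≠ 0 := leadingCoeff_ne_zero.2 hA0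
        have hlcL : L.leadingCoeff ≠ 0 := leadingCoeff_ne_zero.2 hL
        have hd1 : (C L.leadingCoeff * A).degree = A.degree := by
          rw [degree_mul, degree_C hlcL, zero_add]
        have hd2 : (C A.leadingCoeff * Lk).degree = A.degree := by
          rw [degree_mul, degree_C hlcA, zero_add, hdeg]
        have hlt2 : (C L.leadingCoeff * A - C A.leadingCoeff * Lk).degree < A.degree := by
          have := degree_sub_lt_left (p := C L.leadingCoeff * A) (q := C A.leadingCoeff * Lk)
            (by rw [hd1, hd2]) (mul_ne_zero (C_ne_zero.2 hlcL) hA0)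
            (by rw [leadingCoeff_mul, leadingCoeff_mul, leadingCoeff_C, leadingCoeff_C, h2]; ring)
          rwa [hd1] at this
        have hlt3 : (C L.leadingCoeff * A - C A.leadingCoeff * Lk).degree < (n : WithBot ℕ) := by
          refine lt_of_lt_of_le hlt2 ?_
          rw [degree_eq_natDegree hA0] at hd ⊢
          have : A.natDegree < n + 1 := by exact_mod_cast hd
          exact_mod_cast Nat.lt_succ_iff.1 this
        obtain ⟨r, hr, hr'⟩ := ih _ hlt3 (fun t => by
          rw [act_sub, act_C_mul, act_C_mul, hA t, h3 φ hφ hLφ t]; ring)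
        refine ⟨r * L.leadingCoeff, mul_ne_zero hr hlcL, fun t => ?_⟩
        have h4 := hr' t
        rw [act_sub, act_C_mul, act_C_mul, h3 h hh hLh t, mul_zero, sub_zero] at h4
        rw [eval_mul, mul_assoc]
        exact h4
  obtain ⟨r, hr, hr'⟩ := key (A.natDegree + 1) A
    (lt_of_le_of_lt degree_le_natDegree (by exact_mod_cast Nat.lt_succ_self _)) hA
  exact eq_zero_of_poly_mul r hr _ (act_continuous A h hh) hr'

end Pool.Agent.H288.ST
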