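import Mathlib

set_option autoImplicit false

/-! Gaussian integrals `E[g(X) exp(it H_p(X))]` for polynomials `g`. -/

open MeasureTheory ProbabilityTheory Polynomial Filter Topology

namespace Pool.Agent.H288.ST

/-- the `p`-th probabilists' Hermite polynomial as a real function -/
noncomputable def Hp (p : ℕ) (x : ℝ) : ℝ := Polynomial.aeval x (Polynomial.hermite p)

/-- the law of `H_p(X)`, `X` standard Gaussian -/
noncomputable def law (p : ℕ) : Measure ℝ := (gaussianReal 0 1).map (Hp p)

/-- the Hermite polynomial with complex coefficients -/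
noncomputable def HC (p : ℕ) : ℂ[X] := (hermite p).map (Int.castRingHom ℂ)

lemma HC_eval (p : ℕ) (x : ℝ) : (HC p).eval (x : ℂ) = (Hp p x : ℂ) := by
  unfold HC Hp
  rw [Polynomial.eval_map, Polynomial.aeval_def, ← Complex.ofRealHom_eq_coe (r := eval₂ _ _ _),
    Polynomial.hom_eval₂]
  congr 1

lemma Hp_continuous (p : ℕ) : Continuous (Hp p) := by
  unfold Hp
  exact Polynomial.continuous_aeval _

noncomputable abbrev gam : Measure ℝ := gaussianReal 0 1

instance law_prob (p : ℕ) : IsProbabilityMeasure (law p) :=
  Measure.isProbabilityMeasure_map (Hp_continuous p).measurable.aemeasurable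

lemma gam_pow (n : ℕ) : Integrable (fun x : ℝ => x ^ n) gam := by
  have h := (memLp_id_gaussianReal (μ := 0) (v := 1) n).integrable_norm_pow'
  refine (integrable_norm_iff (by fun_prop)).1 ?_
  simpa using h

lemma gam_poly (g : ℂ[X]) : Integrable (fun x : ℝ => g.eval (x : ℂ)) gam := by
  induction g using Polynomial.induction_on' with
  | add p q hp hq =>
    refine (hp.add hq).congr (Eventually.of_forall fun x => ?_)
    simp [Polynomial.eval_add]
  | monomial n a =>
    have h1 : Integrable (fun x : ℝ => ((x ^ n : ℝ) : ℂ)) gam := (gam_pow n).ofReal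
    simpa [Polynomial.eval_monomial] using h1.const_mul a

lemma norm_cexp_I (a b : ℝ) : ‖Complex.exp (Complex.I * a * b)‖ = 1 := by
  have : Complex.I * a * b = ((a * b : ℝ) : ℂ) * Complex.I := by push_cast; ring
  rw [this, Complex.norm_exp_ofReal_mul_I]

lemma gam_poly_exp (p : ℕ) (g : ℂ[X]) (t : ℝ) :
    Integrable (fun x : ℝ => g.eval (x : ℂ) * Complex.exp (Complex.I * t * Hp p x)) gam := by
  refine (gam_poly g).mono ?_ ?_
  · have h1 : Continuous fun x : ℝ => g.eval (x : ℂ) * Complex.exp (Complex.I * t * Hp p x) := by
      have := Hp_continuous p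
      fun_prop
    exact h1.aestronglyMeasurable
  · refine Eventually.of_forall fun x => ?_
    rw [norm_mul, norm_cexp_I, mul_one]

/-- `E[g(X) exp(it H_p(X))]` -/
noncomputable def E (p : ℕ) (g : ℂ[X]) (t : ℝ) : ℂ :=
  ∫ x, g.eval (x : ℂ) * Complex.exp (Complex.I * t * Hp p x) ∂gam

lemma E_add (p : ℕ) (g h : ℂ[X]) (t : ℝ) : E p (g + h) t = E p g t + E p h t := by
  unfold E
  rw [← integral_add (gam_poly_exp p g t) (gam_poly_exp p h t)]
  refine integral_congr_ae (Eventually.of_forall fun x => ?_)
  simp only [eval_add]; ring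

lemma E_smul (p : ℕ) (a : ℂ) (g : ℂ[X]) (t : ℝ) : E p (C a * g) t = a * E p g t := by
  unfold E
  rw [← integral_const_mul]
  refine integral_congr_ae (Eventually.of_forall fun x => ?_)
  simp only [eval_mul, eval_C]; ring

lemma E_zero (p : ℕ) (t : ℝ) : E p 0 t = 0 := by
  unfold E; simp

lemma E_sum (p : ℕ) {ι : Type} (s : Finset ι) (g : ι → ℂ[X]) (t : ℝ) :
    E p (∑ i ∈ s, g i) t = ∑ i ∈ s, E p (g i) t := by
  classical
  induction s using Finset.induction_on with
  | empty => simp [E_zero]
  | insert a s ha ih => rw [Finset.sum_insert ha, Finset.sum_insert ha, E_add, ih]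

lemma E_sub (p : ℕ) (g h : ℂ[X]) (t : ℝ) : E p (g - h) t = E p g t - E p h t := by
  have h1 : g - h = g + C (-1) * h := by simp [sub_eq_add_neg]
  rw [h1, E_add, E_smul]; ring

lemma E_hasDerivAt (p : ℕ) (g : ℂ[X]) (t : ℝ) :
    HasDerivAt (E p g) (Complex.I * E p (g * HC p) t) t := by
  have h := hasDerivAt_integral_of_dominated_loc_of_deriv_le (μ := gam) (x₀ := t)
    (F := fun (t : ℝ) (x : ℝ) => g.eval (x : ℂ) * Complex.exp (Complex.I * t * Hp p x))
    (F' := fun (t : ℝ) (x : ℝ) => Complex.I *
      ((g * HC p).eval (x : ℂ) * Complex.exp (Complex.I * t * Hp p x)))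
    (bound := fun x => ‖(g * HC p).eval (x : ℂ)‖) (s := Set.univ) univ_mem
    (Eventually.of_forall fun t => (gam_poly_exp p g t).aestronglyMeasurable)
    (gam_poly_exp p g t) ((gam_poly_exp p (g * HC p) t).const_mul _).aestronglyMeasurable
    (Eventually.of_forall fun x t _ => by
      rw [norm_mul, norm_mul, norm_cexp_I, mul_one, Complex.norm_I, one_mul])
    (gam_poly _).norm
    (Eventually.of_forall fun x t _ => by
      have h1 : HasDerivAt (fun t : ℝ => Complex.I * (t : ℂ) * (Hp p x : ℂ))
          (Complex.I * (Hp p x : ℂ)) t := by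
        have := ((Complex.ofRealCLM.hasDerivAt (x := t)).const_mul Complex.I).mul_const
          (Hp p x : ℂ)
        simpa using this
      have h2 := (h1.cexp).const_mul (g.eval (x : ℂ))
      refine h2.congr_deriv ?_
      rw [eval_mul, HC_eval]; ring)
  have h2 := h.2
  rw [integral_const_mul] at h2
  exact h2

/-- Gaussian integration by parts -/
lemma E_ibp (p : ℕ) (g : ℂ[X]) (t : ℝ) :
    E p (X * g - derivative g) t = Complex.I * t * E p (g * derivative (HC p)) t := by
  set K : ℂ[X] := derivative g + C (Complex.I * t) * (g * derivative (HC p)) - X * g with hK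
  have hz : E p K t = 0 := by
    unfold E
    rw [integral_gaussianReal_eq_integral_smul (by norm_num : (1 : NNReal) ≠ 0)]
    have hpdf : ∀ x : ℝ, HasDerivAt (fun x => gaussianPDFReal 0 1 x)
        (-x * gaussianPDFReal 0 1 x) x := by
      intro x
      have e : (fun x => gaussianPDFReal 0 1 x) =
          fun x : ℝ => (√(2 * Real.pi))⁻¹ * Real.exp (-x ^ 2 / 2) := by
        funext x
        simp [gaussianPDFReal]
      rw [e]
      have h1 : HasDerivAt (fun x : ℝ => -x ^ 2 / 2) (-x) x := by
        have := ((hasDerivAt_pow 2 x).neg).div_const 2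
        refine this.congr_deriv ?_
        norm_num
        ring
      have h2 := (h1.exp).const_mul ((√(2 * Real.pi))⁻¹)
      refine h2.congr_deriv ?_
      simp [gaussianPDFReal]; ring
    have hH : ∀ x : ℝ, HasDerivAt (fun x : ℝ => Complex.exp (Complex.I * t * Hp p x))
        (Complex.I * t * (derivative (HC p)).eval (x : ℂ) *
          Complex.exp (Complex.I * t * Hp p x)) x := by
      intro x
      have h0 : HasDerivAt (fun y : ℂ => (HC p).eval y) ((derivative (HC p)).eval (x : ℂ))
        (x : ℂ) := (HC p).hasDerivAt _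
      have h1 : HasDerivAt (fun x : ℝ => (Hp p x : ℂ)) ((derivative (HC p)).eval (x : ℂ)) x := by
        have := h0.comp_ofReal
        simpa only [HC_eval] using this
      have h2 := ((h1.const_mul (Complex.I * t))).cexp
      refine h2.congr_deriv ?_
      ring
    have hg : ∀ x : ℝ, HasDerivAt (fun x : ℝ => g.eval (x : ℂ)) ((derivative g).eval (x : ℂ)) x :=
      fun x => (g.hasDerivAt (x : ℂ)).comp_ofReal
    have key := integral_eq_zero_of_hasDerivAt_of_integrable
      (f := fun x : ℝ => gaussianPDFReal 0 1 x •
        (g.eval (x : ℂ) * Complex.exp (Complex.I * t * Hp p x)))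
      (f' := fun x : ℝ => gaussianPDFReal 0 1 x •
        (K.eval (x : ℂ) * Complex.exp (Complex.I * t * Hp p x)))
      (fun x => by
        have h1 := (hpdf x).smul ((hg x).mul (hH x))
        refine h1.congr_deriv ?_
        simp only [hK, eval_sub, eval_add, eval_mul, eval_C, eval_X, Complex.real_smul, Pi.mul_apply]
        push_cast
        ring)
      (by
        have h1 := gam_poly_exp p K t
        rw [gam, gaussianReal_of_var_ne_zero _ (by norm_num : (1 : NNReal) ≠ 0),
          integrable_withDensity_iff_integrable_smul' (measurable_gaussianPDF 0 1)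
            (Eventually.of_forall fun x => gaussianPDF_lt_top)] at h1
        refine h1.congr (Eventually.of_forall fun x => ?_)
        simp only [toReal_gaussianPDF])
      (by
        have h1 := gam_poly_exp p g t
        rw [gam, gaussianReal_of_var_ne_zero _ (by norm_num : (1 : NNReal) ≠ 0),
          integrable_withDensity_iff_integrable_smul' (measurable_gaussianPDF 0 1)
            (Eventually.of_forall fun x => gaussianPDF_lt_top)] at h1
        refine h1.congr (Eventually.of_forall fun x => ?_)
        simp only [toReal_gaussianPDF])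
    exact key
  have h1 : X * g - derivative g = C (Complex.I * t) * (g * derivative (HC p)) - K := by
    rw [hK]; ring
  rw [h1, E_sub, hz, E_smul, sub_zero]

lemma charFun_law (p : ℕ) (t : ℝ) : charFun (law p) t = E p 1 t := by
  rw [charFun_apply_real]
  unfold law E
  rw [integral_map (Hp_continuous p).measurable.aemeasurable
    (by fun_prop : Continuous fun x : ℝ => Complex.exp (t * x * Complex.I)).aestronglyMeasurable]
  refine integral_congr_ae (Eventually.of_forall fun x => ?_)
  simp only [eval_one, one_mul]
  congr 1; ring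

lemma law_pow (p n : ℕ) : Integrable (fun y : ℝ => y ^ n) (law p) := by
  unfold law
  rw [integrable_map_measure (by fun_prop) (Hp_continuous p).measurable.aemeasurable]
  have h1 := (gam_poly (HC p ^ n)).re
  refine h1.congr (Eventually.of_forall fun x => ?_)
  simp only [eval_pow, HC_eval, Function.comp]
  change ((Hp p x : ℂ) ^ n).re = _
  rw [← Complex.ofReal_pow, Complex.ofReal_re]

end Pool.Agent.H288.ST
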