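import Pool.Agent.H288.ST.Ann

set_option autoImplicit false

/-! Laurent polynomials in `t` which are graded for `t = τ ^ q`. -/

open Polynomial Filter Topology

namespace Pool.Agent.H288.ST

/-- `f` is a Laurent polynomial in `t`, and `f (τ ^ q) = τ ^ a * w (τ ^ 2)` with a polynomial `w`,
`w 0 = c` -/
def Gr (q : ℕ) (f : ℝ → ℂ) (a : ℤ) (c : ℂ) : Prop :=
  (∃ (N : ℕ) (g : ℂ[X]), ∀ t : ℝ, t ≠ 0 → f t * (t : ℂ) ^ N = g.eval (t : ℂ)) ∧
  ∃ w : ℂ[X], w.eval 0 = c ∧ ∀ τ : ℝ, 0 < τ → f (τ ^ q) = (τ : ℂ) ^ a * w.eval ((τ : ℂ) ^ 2)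

namespace Gr

variable {q : ℕ} {f g : ℝ → ℂ} {a b : ℤ} {c c' : ℂ}

lemma add (hf : Gr q f a c) (hg : Gr q g a c') : Gr q (fun t => f t + g t) a (c + c') := by
  obtain ⟨⟨N, u, hu⟩, w, hw0, hw⟩ := hf
  obtain ⟨⟨N', u', hu'⟩, w', hw0', hw'⟩ := hg
  refine ⟨⟨N + N', u * X ^ N' + u' * X ^ N, fun t ht => ?_⟩, w + w', by simp [hw0, hw0'],
    fun τ hτ => ?_⟩
  · rw [eval_add, eval_mul, eval_mul, eval_pow, eval_pow, eval_X, ← hu t ht, ← hu' t ht]
    ring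
  · change f (τ ^ q) + g (τ ^ q) = _
    rw [eval_add, hw τ hτ, hw' τ hτ]; ring

lemma mul (hf : Gr q f a c) (hg : Gr q g b c') :
    Gr q (fun t => f t * g t) (a + b) (c * c') := by
  obtain ⟨⟨N, u, hu⟩, w, hw0, hw⟩ := hf
  obtain ⟨⟨N', u', hu'⟩, w', hw0', hw'⟩ := hg
  refine ⟨⟨N + N', u * u', fun t ht => ?_⟩, w * w', by simp [hw0, hw0'], fun τ hτ => ?_⟩
  · rw [eval_mul, ← hu t ht, ← hu' t ht]
    ring
  · have h0 : (τ : ℂ) ≠ 0 := Complex.ofReal_ne_zero.2 hτ.ne'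
    change f (τ ^ q) * g (τ ^ q) = _
    rw [eval_mul, hw τ hτ, hw' τ hτ, zpow_add₀ h0]; ring

lemma const (c : ℂ) : Gr q (fun _ => c) 0 c :=
  ⟨⟨0, C c, fun t _ => by simp⟩, C c, by simp, fun τ _ => by simp⟩

lemma zero (a : ℤ) : Gr q (fun _ => 0) a 0 :=
  ⟨⟨0, 0, fun t _ => by simp⟩, 0, by simp, fun τ _ => by simp⟩

lemma cmul (k : ℂ) (hf : Gr q f a c) : Gr q (fun t => k * f t) a (k * c) := by
  have := (const (q := q) k).mul hf
  rwa [zero_add] at this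

lemma id : Gr q (fun t : ℝ => (t : ℂ)) q 1 :=
  ⟨⟨0, X, fun t _ => by simp⟩, 1, by simp, fun τ _ => by simp⟩

lemma inv (hq : 1 ≤ q) : Gr q (fun t : ℝ => (t : ℂ)⁻¹) (-q) 1 :=
  ⟨⟨1, 1, fun t ht => by
    have : (t : ℂ) ≠ 0 := Complex.ofReal_ne_zero.2 ht
    simp [this]⟩, 1, by simp, fun τ _ => by simp⟩

lemma congr (hf : Gr q f a c) (h : ∀ t, f t = g t) : Gr q g a c := by
  have : f = g := funext h
  rwa [← this]

lemma shift (hf : Gr q f a c) : Gr q f (a - 2) 0 := by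
  obtain ⟨h1, w, hw0, hw⟩ := hf
  refine ⟨h1, X * w, by simp, fun τ hτ => ?_⟩
  have h0 : (τ : ℂ) ≠ 0 := Complex.ofReal_ne_zero.2 hτ.ne'
  rw [hw τ hτ, eval_mul, eval_X, zpow_sub₀ h0]
  have : (τ : ℂ) ^ (2 : ℤ) = (τ : ℂ) ^ 2 := by norm_cast
  rw [this]
  field_simp

lemma shiftn (hf : Gr q f a c) (k : ℕ) (hk : 1 ≤ k) : Gr q f (a - 2 * k) 0 := by
  induction k with
  | zero => omega
  | succ k ih =>
    rcases Nat.eq_zero_or_pos k with rfl | h
    · have := hf.shift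
      simpa using this
    · have := (ih h).shift
      have e : a - 2 * ((k + 1 : ℕ) : ℤ) = a - 2 * k - 2 := by push_cast; ring
      rwa [e]

lemma sum {ι : Type} (s : Finset ι) {F : ι → ℝ → ℂ} {C : ι → ℂ} (h : ∀ i ∈ s, Gr q (F i) a (C i)) :
    Gr q (fun t => ∑ i ∈ s, F i t) a (∑ i ∈ s, C i) := by
  classical
  induction s using Finset.induction_on with
  | empty => simpa using zero (q := q) a
  | insert x s hx ih =>
    have h1 := (h x (Finset.mem_insert_self x s)).add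
      (ih fun i hi => h i (Finset.mem_insert_of_mem hi))
    rw [Finset.sum_insert hx]
    refine h1.congr fun t => ?_
    rw [Finset.sum_insert hx]

lemma prod {ι : Type} (s : Finset ι) {F : ι → ℝ → ℂ} {A : ι → ℤ} {C : ι → ℂ}
    (h : ∀ i ∈ s, Gr q (F i) (A i) (C i)) :
    Gr q (fun t => ∏ i ∈ s, F i t) (∑ i ∈ s, A i) (∏ i ∈ s, C i) := by
  classical
  induction s using Finset.induction_on with
  | empty => simpa using const (q := q) 1
  | insert x s hx ih =>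
    have h1 := (h x (Finset.mem_insert_self x s)).mul
      (ih fun i hi => h i (Finset.mem_insert_of_mem hi))
    rw [Finset.prod_insert hx, Finset.sum_insert hx]
    refine h1.congr fun t => ?_
    rw [Finset.prod_insert hx]

lemma det {n : ℕ} {A : Fin n → Fin n → ℝ → ℂ} {x y : Fin n → ℤ} {C : Fin n → Fin n → ℂ}
    (h : ∀ i j, Gr q (A i j) (x j - y i) (C i j)) :
    Gr q (fun t => Matrix.det (Matrix.of fun i j => A i j t)) (∑ j, x j - ∑ i, y i)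
      (Matrix.det (Matrix.of C)) := by
  rw [Matrix.det_apply]
  have h1 : ∀ σ ∈ (Finset.univ : Finset (Equiv.Perm (Fin n))),
      Gr q (fun t => Equiv.Perm.sign σ • ∏ i, (Matrix.of fun i j => A i j t) (σ i) i)
        (∑ j, x j - ∑ i, y i) (Equiv.Perm.sign σ • ∏ i, (Matrix.of C) (σ i) i) := by
    intro σ _
    have h2 := prod (q := q) Finset.univ fun i (_ : i ∈ Finset.univ) => h (σ i) i
    have e : ∑ i, (x i - y (σ i)) = ∑ j, x j - ∑ i, y i := by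
      rw [Finset.sum_sub_distrib, Equiv.sum_comp σ y]
    rw [e] at h2
    have h3 := h2.cmul (((Equiv.Perm.sign σ : ℤˣ) : ℤ) : ℂ)
    have e2 : (Equiv.Perm.sign σ • ∏ i, (Matrix.of C) (σ i) i : ℂ) =
        (((Equiv.Perm.sign σ : ℤˣ) : ℤ) : ℂ) * ∏ i, C (σ i) i := by
      rw [Units.smul_def, zsmul_eq_mul]; rfl
    rw [e2]
    refine h3.congr fun t => ?_
    rw [Units.smul_def, zsmul_eq_mul]; rfl
  refine (sum Finset.univ h1).congr fun t => ?_
  rw [Matrix.det_apply]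

/-- a graded function is differentiable off `0` -/
lemma diff (hf : Gr q f a c) {t : ℝ} (ht : t ≠ 0) : DifferentiableAt ℝ f t := by
  obtain ⟨⟨N, u, hu⟩, -⟩ := hf
  have h1 : f =ᶠ[𝓝 t] fun s : ℝ => u.eval (s : ℂ) / (s : ℂ) ^ N := by
    filter_upwards [isOpen_ne.mem_nhds ht] with s hs
    have h0 : (s : ℂ) ≠ 0 := Complex.ofReal_ne_zero.2 hs
    rw [eq_div_iff (pow_ne_zero _ h0)]
    exact hu s hs
  refine DifferentiableAt.congr_of_eventuallyEq ?_ h1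
  have h2 : DifferentiableAt ℝ (fun s : ℝ => u.eval (s : ℂ)) t :=
    ((u.hasDerivAt (t : ℂ)).comp_ofReal).differentiableAt
  have h3 : DifferentiableAt ℝ (fun s : ℝ => (s : ℂ) ^ N) t := by
    have := ((hasDerivAt_pow N (t : ℂ)).comp_ofReal).differentiableAt
    exact this
  exact h2.div h3 (pow_ne_zero _ (Complex.ofReal_ne_zero.2 ht))

/-- `t d/dt` preserves graded functions -/
lemma theta (hq : 1 ≤ q) (hf : Gr q f a c) :
    Gr q (fun t : ℝ => (t : ℂ) * deriv f t) a (a / q * c) := by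
  have hd := fun {t : ℝ} (ht : t ≠ 0) => hf.diff ht
  obtain ⟨⟨N, u, hu⟩, w, hw0, hw⟩ := hf
  refine ⟨⟨N, X * derivative u - C (N : ℂ) * u, fun t ht => ?_⟩,
    C (1 / (q : ℂ)) * (C (a : ℂ) * w + 2 * X * derivative w), ?_, fun τ hτ => ?_⟩
  · have h0 : (t : ℂ) ≠ 0 := Complex.ofReal_ne_zero.2 ht
    have h1 : HasDerivAt (fun s : ℝ => f s * (s : ℂ) ^ N)
        (deriv f t * (t : ℂ) ^ N + f t * (N * (t : ℂ) ^ (N - 1))) t :=
      (hd ht).hasDerivAt.mul ((hasDerivAt_pow N (t : ℂ)).comp_ofReal)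
    have h2 : HasDerivAt (fun s : ℝ => u.eval (s : ℂ)) ((derivative u).eval (t : ℂ)) t :=
      (u.hasDerivAt (t : ℂ)).comp_ofReal
    have h3 : (fun s : ℝ => f s * (s : ℂ) ^ N) =ᶠ[𝓝 t] fun s : ℝ => u.eval (s : ℂ) := by
      filter_upwards [isOpen_ne.mem_nhds ht] with s hs using hu s hs
    have h4 := (h1.congr_of_eventuallyEq h3.symm).unique h2
    rw [eval_sub, eval_mul, eval_mul, eval_X, eval_C, ← h4, ← hu t ht]
    rcases Nat.eq_zero_or_pos N with rfl | hN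
    · simp
    · obtain ⟨N', rfl⟩ : ∃ N', N = N' + 1 := ⟨N - 1, by omega⟩
      rw [Nat.add_sub_cancel]
      ring
  · simp [hw0]; ring
  · have hτ0 : (τ : ℂ) ≠ 0 := Complex.ofReal_ne_zero.2 hτ.ne'
    have hq0 : (q : ℂ) ≠ 0 := by exact_mod_cast (by omega : q ≠ 0)
    have h1 : HasDerivAt (fun s : ℝ => f (s ^ q)) (deriv f (τ ^ q) * (q * (τ : ℂ) ^ (q - 1))) τ := by
      have h2 := (hd (pow_ne_zero q hτ.ne')).hasDerivAt
      have h3 : HasDerivAt (fun s : ℝ => s ^ q) (q * τ ^ (q - 1)) τ := hasDerivAt_pow q τ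
      have := h2.scomp τ h3
      refine this.congr_deriv ?_
      rw [Complex.real_smul]; push_cast; ring
    have h2 : HasDerivAt (fun s : ℝ => (s : ℂ) ^ a * w.eval ((s : ℂ) ^ 2))
        (a * (τ : ℂ) ^ (a - 1) * w.eval ((τ : ℂ) ^ 2) +
          (τ : ℂ) ^ a * ((derivative w).eval ((τ : ℂ) ^ 2) * (2 * τ))) τ := by
      have h3 : HasDerivAt (fun z : ℂ => z ^ a) (a * (τ : ℂ) ^ (a - 1)) (τ : ℂ) :=
        hasDerivAt_zpow a _ (Or.inl hτ0)
      have h4 : HasDerivAt (fun z : ℂ => w.eval (z ^ 2))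
          ((derivative w).eval ((τ : ℂ) ^ 2) * (2 * τ)) (τ : ℂ) := by
        have h5 := (w.hasDerivAt ((τ : ℂ) ^ 2)).comp (τ : ℂ) (hasDerivAt_pow 2 (τ : ℂ))
        refine h5.congr_deriv ?_
        norm_num
      exact (h3.mul h4).comp_ofReal
    have h3 : (fun s : ℝ => f (s ^ q)) =ᶠ[𝓝 τ] fun s : ℝ => (s : ℂ) ^ a * w.eval ((s : ℂ) ^ 2) := by
      filter_upwards [lt_mem_nhds hτ] with s hs using hw s hs
    have h4 := (h1.congr_of_eventuallyEq h3.symm).unique h2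
    have h5 : ((τ ^ q : ℝ) : ℂ) * deriv f (τ ^ q) =
        (1 / (q : ℂ)) * (τ * (deriv f (τ ^ q) * (q * (τ : ℂ) ^ (q - 1)))) := by
      obtain ⟨q', rfl⟩ : ∃ q', q = q' + 1 := ⟨q - 1, by omega⟩
      rw [Nat.add_sub_cancel]
      field_simp
      push_cast
      ring
    change ((τ ^ q : ℝ) : ℂ) * deriv f (τ ^ q) = _
    rw [h5, h4]
    simp only [eval_mul, eval_add, eval_C, eval_X, eval_ofNat]
    rw [zpow_sub_one₀ hτ0]
    field_simp

end Gr

end Pool.Agent.H288.ST
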