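import Mathlib

set_option autoImplicit false

open MeasureTheory Filter Topology
open scoped ContDiff FourierTransform

namespace Pool.Agent.H288.ST.J1

/-- extension from a half line -/
lemma j1_ext (a : ℝ) (T : ℕ) : ∀ f : ℝ → ℝ, ContDiffOn ℝ T f (Set.Ici a) →
    ∃ F : ℝ → ℝ, ContDiff ℝ T F ∧ Set.EqOn f F (Set.Ici a) := by
  induction T with
  | zero =>
    intro f hf
    refine ⟨fun y => f (max a y), ?_, ?_⟩
    · rw [Nat.cast_zero, contDiff_zero]
      exact hf.continuousOn.comp_continuous (by fun_prop) (fun y => le_max_left a y)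
    · intro y hy
      simp only [max_eq_right (Set.mem_Ici.1 hy)]
  | succ T ih =>
    intro f hf
    have hu : UniqueDiffOn ℝ (Set.Ici a) := uniqueDiffOn_Ici a
    have hf' : ContDiffOn ℝ ((T : ℕ∞ω) + 1) f (Set.Ici a) := by exact_mod_cast hf
    rw [contDiffOn_succ_iff_derivWithin hu] at hf'
    obtain ⟨hd, _, hd'⟩ := hf'
    obtain ⟨G, hG, hGe⟩ := ih _ hd'
    have hGc : Continuous G := hG.continuous
    have hder : ∀ y, HasDerivAt (fun y => f a + ∫ x in a..y, G x) (G y) y := fun y =>
      (intervalIntegral.integral_hasDerivAt_right (hGc.intervalIntegrable _ _)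
        (hGc.stronglyMeasurableAtFilter _ _) hGc.continuousAt).const_add _
    refine ⟨fun y => f a + ∫ x in a..y, G x, ?_, ?_⟩
    · have : ContDiff ℝ ((T : ℕ∞ω) + 1) (fun y => f a + ∫ x in a..y, G x) := by
        rw [contDiff_succ_iff_deriv]
        refine ⟨fun y => (hder y).differentiableAt, ?_, ?_⟩
        · intro h
          exact absurd h (by simp)
        · have : deriv (fun y => f a + ∫ x in a..y, G x) = G := funext fun y => (hder y).deriv
          rw [this]; exact hG
      exact_mod_cast this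
    · intro y hy
      have hay : a ≤ y := hy
      have h1 : ∫ x in a..y, G x = f y - f a := by
        refine intervalIntegral.integral_eq_sub_of_hasDeriv_right_of_le hay
          (hd.continuousOn.mono (fun x hx => hx.1)) (fun x hx => ?_) (hGc.intervalIntegrable _ _)
        have h2 : HasDerivWithinAt f (derivWithin f (Set.Ici a) x) (Set.Ici a) x :=
          (hd x hx.1.le).hasDerivWithinAt
        rw [hGe (Set.mem_Ici.2 hx.1.le)] at h2
        exact h2.mono (fun z hz => hx.1.le.trans (le_of_lt hz))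
      simp only [h1]; ring

/-- the complex version of a real function -/
lemma j1_ofReal (T : ℕ) (G : ℝ → ℝ) (hG : ContDiff ℝ T G) : ∀ t ≤ T,
    iteratedDeriv t (fun y => (G y : ℂ)) = fun y => ((iteratedDeriv t G y : ℝ) : ℂ) := by
  intro t
  induction t with
  | zero => intro _; simp
  | succ t ih =>
    intro ht
    rw [iteratedDeriv_succ, ih (by omega)]
    funext y
    have hd : DifferentiableAt ℝ (iteratedDeriv t G) y :=
      (hG.differentiable_iteratedDeriv t (by exact_mod_cast (by omega : t < T))) y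
    rw [iteratedDeriv_succ]
    exact hd.hasDerivAt.ofReal_comp.deriv

lemma j1_contDiff_ofReal (T : ℕ) (G : ℝ → ℝ) (hG : ContDiff ℝ T G) :
    ContDiff ℝ T (fun y => (G y : ℂ)) := Complex.ofRealCLM.contDiff.comp hG

/-- derivatives of a function with compact support have compact support -/
lemma j1_supp (G : ℝ → ℂ) (h : HasCompactSupport G) (t : ℕ) :
    HasCompactSupport (iteratedDeriv t G) := by
  induction t with
  | zero => simpa using h
  | succ t ih => rw [iteratedDeriv_succ]; exact ih.deriv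


lemma j1_poly (μ : Measure ℝ) (hm : ∀ n : ℕ, Integrable (fun y : ℝ => y ^ n) μ)
    (p : Polynomial ℝ) : Integrable (fun y : ℝ => p.eval y) μ := by
  simp only [Polynomial.eval_eq_sum_range]
  exact integrable_finsetSum _ fun n _ => (hm n).const_mul _

/-- a continuous function with compact support is bounded -/
lemma j1_bdd (g : ℝ → ℂ) (hg : Continuous g) (h : HasCompactSupport g) : ∃ C, ∀ y, ‖g y‖ ≤ C :=
  h.exists_bound_of_continuous hg

lemma j1_int (g : ℝ → ℂ) (hg : Continuous g) (h : HasCompactSupport g) : Integrable g :=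
  hg.integrable_of_hasCompactSupport h

/-- one term of the kernel is integrable on the product -/
lemma j1_kernel (μ : Measure ℝ) [IsProbabilityMeasure μ]
    (hm : ∀ n : ℕ, Integrable (fun y : ℝ => y ^ n) μ) (p : Polynomial ℝ) (g : ℝ → ℂ)
    (hg : Continuous g) (h : HasCompactSupport g) :
    Integrable (fun z : ℝ × ℝ => ((p.eval z.1 : ℝ) : ℂ) * g (z.1 - z.2)) (μ.prod volume) := by
  have hcont : Continuous (fun z : ℝ × ℝ => ((p.eval z.1 : ℝ) : ℂ) * g (z.1 - z.2)) := by
    have : Continuous fun z : ℝ × ℝ => p.eval z.1 := p.continuous.comp continuous_fst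
    fun_prop
  rw [integrable_prod_iff hcont.aestronglyMeasurable]
  constructor
  · refine Eventually.of_forall fun y => ?_
    change Integrable (fun z : ℝ => ((p.eval y : ℝ) : ℂ) * g (y - z)) volume
    exact ((j1_int g hg h).comp_sub_left y).const_mul _
  · have e : (fun y : ℝ => ∫ z : ℝ, ‖((p.eval y : ℝ) : ℂ) * g (y - z)‖) =
        fun y : ℝ => ‖p.eval y‖ * ∫ z : ℝ, ‖g z‖ := by
      funext y
      simp only [norm_mul, Complex.norm_real, integral_const_mul]
      rw [integral_sub_left_eq_self (fun z => ‖g z‖) volume y]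
    simp only
    rw [e]
    exact (j1_poly μ hm p).norm.mul_const _

/-- the Fourier transform of the reflected translate -/
lemma j1_shift (g : ℝ → ℂ) (x y : ℝ) :
    ∫ z : ℝ, Complex.exp (↑(-2 * Real.pi * z * x) * Complex.I) * g (y - z) =
      Complex.exp (↑(-2 * Real.pi * y * x) * Complex.I) * 𝓕 g (-x) := by
  rw [Real.fourier_real_eq_integral_exp_smul, ← integral_const_mul,
    ← integral_sub_left_eq_self (fun w => Complex.exp (↑(-2 * Real.pi * y * x) * Complex.I) *
      Complex.exp (↑(-2 * Real.pi * w * -x) * Complex.I) • g w) volume y]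
  refine integral_congr_ae (Eventually.of_forall fun z => ?_)
  simp only [smul_eq_mul]
  rw [← mul_assoc, ← Complex.exp_add]
  congr 2
  push_cast
  ring

/-- the case of compact support -/
lemma j1_cpt (μ : Measure ℝ) [IsProbabilityMeasure μ]
    (hm : ∀ n : ℕ, Integrable (fun y : ℝ => y ^ n) μ)
    (T : ℕ) (c : ℕ → Polynomial ℝ)
    (hS : ∀ s : ℝ, ∫ y : ℝ, ∑ t ∈ Finset.range (T + 1),
      (((c t).eval y : ℝ) : ℂ) * (Complex.I * s) ^ t * Complex.exp (Complex.I * s * y) ∂μ = 0)
    (G : ℝ → ℂ) (hG : ContDiff ℝ T G) (hc : HasCompactSupport G) :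
    ∫ y : ℝ, ∑ t ∈ Finset.range (T + 1), (((c t).eval y : ℝ) : ℂ) * iteratedDeriv t G y ∂μ = 0 := by
  have hgc : ∀ t ∈ Finset.range (T + 1), Continuous (iteratedDeriv t G) := fun t ht =>
    hG.continuous_iteratedDeriv t (by
      have : t ≤ T := Nat.lt_succ_iff.1 (Finset.mem_range.1 ht)
      exact_mod_cast this)
  have hgs : ∀ t, HasCompactSupport (iteratedDeriv t G) := j1_supp G hc
  set K : ℝ × ℝ → ℂ := fun z => ∑ t ∈ Finset.range (T + 1),
    (((c t).eval z.1 : ℝ) : ℂ) * iteratedDeriv t G (z.1 - z.2) with hK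
  have hKint : Integrable K (μ.prod volume) :=
    integrable_finsetSum _ fun t ht => j1_kernel μ hm (c t) _ (hgc t ht) (hgs t)
  set Psi : ℝ → ℂ := fun z => ∫ y : ℝ, K (y, z) ∂μ with hPsi
  have hPsiInt : Integrable Psi := hKint.integral_prod_right
  -- continuity
  have hPsiCont : Continuous Psi := by
    have hb : ∀ t ∈ Finset.range (T + 1), ∃ C, ∀ y, ‖iteratedDeriv t G y‖ ≤ C := fun t ht =>
      j1_bdd _ (hgc t ht) (hgs t)
    choose! C hC using hb
    refine continuous_of_dominated (bound := fun y => ∑ t ∈ Finset.range (T + 1),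
      ‖(c t).eval y‖ * C t) ?_ ?_ ?_ ?_
    · intro z
      refine Continuous.aestronglyMeasurable ?_
      refine continuous_finsetSum _ fun t ht => ?_
      have h1 := hgc t ht
      have h2 := (c t).continuous
      fun_prop
    · intro z
      refine Eventually.of_forall fun y => ?_
      refine (norm_sum_le _ _).trans (Finset.sum_le_sum fun t ht => ?_)
      rw [norm_mul, Complex.norm_real]
      exact mul_le_mul_of_nonneg_left (hC t ht _) (norm_nonneg _)
    · exact integrable_finsetSum _ fun t _ => (j1_poly μ hm (c t)).norm.mul_const _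
    · refine Eventually.of_forall fun y => ?_
      refine continuous_finsetSum _ fun t ht => ?_
      have h1 := hgc t ht
      fun_prop
  -- Fourier transform
  have hF : 𝓕 Psi = 0 := by
    funext x
    rw [Real.fourier_real_eq_integral_exp_smul]
    simp only [smul_eq_mul, Pi.zero_apply]
    set E : ℝ → ℂ := fun z => Complex.exp (↑(-2 * Real.pi * z * x) * Complex.I) with hE
    have hEn : ∀ z, ‖E z‖ = 1 := fun z => by
      rw [hE]; exact Complex.norm_exp_ofReal_mul_I _
    have hEc : Continuous E := by rw [hE]; fun_prop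
    have hKint' : Integrable (fun p : ℝ × ℝ => E p.2 * K p) (μ.prod volume) := by
      refine hKint.mono ?_ ?_
      · exact (hEc.comp continuous_snd).aestronglyMeasurable.mul hKint.aestronglyMeasurable
      · refine Eventually.of_forall fun p => ?_
        rw [norm_mul, hEn, one_mul]
    have e1 : ∫ z : ℝ, E z * Psi z = ∫ z : ℝ, ∫ y : ℝ, E z * K (y, z) ∂μ := by
      refine integral_congr_ae (Eventually.of_forall fun z => ?_)
      simp only [hPsi, ← integral_const_mul]
    have e2 : ∫ z : ℝ, ∫ y : ℝ, E z * K (y, z) ∂μ = ∫ y : ℝ, (∫ z : ℝ, E z * K (y, z)) ∂μ :=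
      (integral_integral_swap (f := fun y z => E z * K (y, z)) hKint').symm
    have e3 : ∀ y : ℝ, ∫ z : ℝ, E z * K (y, z) = 𝓕 G (-x) * ∑ t ∈ Finset.range (T + 1),
        (((c t).eval y : ℝ) : ℂ) * (Complex.I * ((-2 * Real.pi * x : ℝ) : ℂ)) ^ t *
          Complex.exp (Complex.I * ((-2 * Real.pi * x : ℝ) : ℂ) * y) := by
      intro y
      have e4 : (fun z => E z * K (y, z)) = fun z => ∑ t ∈ Finset.range (T + 1),
          (((c t).eval y : ℝ) : ℂ) * (E z * iteratedDeriv t G (y - z)) := by
        funext z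
        simp only [hK, Finset.mul_sum]
        exact Finset.sum_congr rfl fun t _ => by ring
      rw [e4, integral_finsetSum]
      · rw [Finset.mul_sum]
        refine Finset.sum_congr rfl fun t ht => ?_
        have htT : t ≤ T := Nat.lt_succ_iff.1 (Finset.mem_range.1 ht)
        rw [integral_const_mul, hE, j1_shift, Real.fourier_iteratedDeriv (N := T) hG ?_
          (by exact_mod_cast htT)]
        · simp only [smul_eq_mul]
          have h1 : (↑(-2 * Real.pi * y * x) * Complex.I : ℂ) =
              Complex.I * ((-2 * Real.pi * x : ℝ) : ℂ) * y := by push_cast; ring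
          have h2 : (2 * Real.pi * Complex.I * ((-x : ℝ) : ℂ) : ℂ) =
              Complex.I * ((-2 * Real.pi * x : ℝ) : ℂ) := by push_cast; ring
          rw [h1, h2]; ring
        · intro n hn
          have hn' : n ≤ T := by exact_mod_cast hn
          exact j1_int _ (hgc n (Finset.mem_range.2 (by omega))) (hgs n)
      · intro t ht
        refine Integrable.const_mul ?_ _
        refine ((j1_int _ (hgc t ht) (hgs t)).comp_sub_left y).mono ?_ ?_
        · exact hEc.aestronglyMeasurable.mul
            ((hgc t ht).comp (by fun_prop : Continuous fun z : ℝ => y - z)).aestronglyMeasurable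
        · refine Eventually.of_forall fun z => ?_
          rw [norm_mul, hEn, one_mul]
    rw [e1, e2]
    simp only [e3]
    rw [integral_const_mul, hS, mul_zero]
  have hinv := hPsiCont.fourierInv_fourier_eq hPsiInt (by rw [hF]; exact integrable_zero _ _ _)
  have h0 : Psi 0 = 0 := by
    rw [← hinv, hF]
    simp [Real.fourierInv_eq]
  simpa [hPsi, hK] using h0


/-- the real version of the case of compact support -/
lemma j1_cptR (μ : Measure ℝ) [IsProbabilityMeasure μ]
    (hm : ∀ n : ℕ, Integrable (fun y : ℝ => y ^ n) μ)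
    (T : ℕ) (c : ℕ → Polynomial ℝ)
    (hS : ∀ s : ℝ, ∫ y : ℝ, ∑ t ∈ Finset.range (T + 1),
      (((c t).eval y : ℝ) : ℂ) * (Complex.I * s) ^ t * Complex.exp (Complex.I * s * y) ∂μ = 0)
    (G : ℝ → ℝ) (hG : ContDiff ℝ T G) (hc : HasCompactSupport G) :
    ∫ y : ℝ, ∑ t ∈ Finset.range (T + 1), (c t).eval y * iteratedDeriv t G y ∂μ = 0 := by
  have h1 := j1_cpt μ hm T c hS (fun y => (G y : ℂ)) (j1_contDiff_ofReal T G hG)
    (hc.comp_left (g := fun x : ℝ => (x : ℂ)) (by simp))
  have h2 : (fun y : ℝ => ∑ t ∈ Finset.range (T + 1), (((c t).eval y : ℝ) : ℂ) *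
      iteratedDeriv t (fun y => (G y : ℂ)) y) = fun y : ℝ =>
      ((∑ t ∈ Finset.range (T + 1), (c t).eval y * iteratedDeriv t G y : ℝ) : ℂ) := by
    funext y
    push_cast
    refine Finset.sum_congr rfl fun t ht => ?_
    rw [j1_ofReal T G hG t (Nat.lt_succ_iff.1 (Finset.mem_range.1 ht))]
  rw [h2, integral_complex_ofReal] at h1
  exact_mod_cast h1

/-- cutoff functions -/
lemma j1_cutoff : ∃ χ : ℝ → ℝ, ContDiff ℝ ∞ χ ∧ HasCompactSupport χ ∧ ∀ y, |y| < 1 → χ y = 1 := by
  let b : ContDiffBump (0 : ℝ) := ⟨1, 2, by norm_num, by norm_num⟩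
  refine ⟨b, b.contDiff, b.hasCompactSupport, fun y hy => b.one_of_mem_closedBall ?_⟩
  rw [Metric.mem_closedBall, Real.dist_eq, sub_zero]
  exact hy.le

/-- a polynomial is bounded by the sum of the powers -/
lemma j1_polyB (p : Polynomial ℝ) (m : ℕ) (hp : p.natDegree ≤ m) : ∃ C : ℝ, 0 ≤ C ∧
    ∀ y : ℝ, |p.eval y| ≤ C * ∑ j ∈ Finset.range (m + 1), |y ^ j| := by
  refine ⟨∑ j ∈ Finset.range (m + 1), |p.coeff j|, Finset.sum_nonneg fun _ _ => abs_nonneg _, ?_⟩
  intro y
  rw [Polynomial.eval_eq_sum_range' (Nat.lt_succ_of_le hp), Finset.sum_mul]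
  refine (Finset.abs_sum_le_sum_abs _ _).trans (Finset.sum_le_sum fun j hj => ?_)
  rw [abs_mul]
  exact mul_le_mul_of_nonneg_left
    (Finset.single_le_sum (f := fun j => |y ^ j|) (fun _ _ => abs_nonneg _) hj) (abs_nonneg _)

theorem strongStein (μ : Measure ℝ) [IsProbabilityMeasure μ]
    (hm : ∀ n : ℕ, Integrable (fun y : ℝ => y ^ n) μ)
    (J : Set ℝ) (hJ : J = Set.univ ∨ ∃ a, J = Set.Ici a) (hμ : ∀ᵐ y ∂μ, y ∈ J)
    (T : ℕ) (c : ℕ → Polynomial ℝ) (m : ℕ) (hc : ∀ t ≤ T, (c t).natDegree ≤ m)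
    (hS : ∀ s : ℝ, ∫ y : ℝ, ∑ t ∈ Finset.range (T + 1),
      (((c t).eval y : ℝ) : ℂ) * (Complex.I * s) ^ t * Complex.exp (Complex.I * s * y) ∂μ = 0)
    (f : ℝ → ℝ) (hf : ContDiffOn ℝ T f J)
    (hfi : ∀ t ≤ T, ∀ j ≤ m, Integrable (fun y : ℝ => y ^ j * iteratedDerivWithin t f J y) μ) :
    ∫ y : ℝ, ∑ t ∈ Finset.range (T + 1), (c t).eval y * iteratedDerivWithin t f J y ∂μ = 0 := by
  -- extension to the line
  obtain ⟨F, hF, hFe⟩ : ∃ F : ℝ → ℝ, ContDiff ℝ T F ∧ ∀ t ≤ T, ∀ y ∈ J,
      iteratedDerivWithin t f J y = iteratedDeriv t F y := by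
    rcases hJ with rfl | ⟨a, rfl⟩
    · exact ⟨f, contDiffOn_univ.1 hf, fun t _ y _ => by rw [iteratedDerivWithin_univ]⟩
    · obtain ⟨F, hF, hFe⟩ := j1_ext a T f hf
      refine ⟨F, hF, fun t ht y hy => ?_⟩
      rw [iteratedDerivWithin_congr hFe hy]
      exact iteratedDerivWithin_eq_iteratedDeriv (uniqueDiffOn_Ici a)
        ((hF.of_le (by exact_mod_cast ht)).contDiffAt) hy
  have hFi : ∀ t ≤ T, ∀ j ≤ m, Integrable (fun y : ℝ => y ^ j * iteratedDeriv t F y) μ := by
    intro t ht j hj
    refine (hfi t ht j hj).congr ?_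
    filter_upwards [hμ] with y hy
    rw [hFe t ht y hy]
  have hgoal : ∫ y : ℝ, ∑ t ∈ Finset.range (T + 1), (c t).eval y * iteratedDerivWithin t f J y ∂μ =
      ∫ y : ℝ, ∑ t ∈ Finset.range (T + 1), (c t).eval y * iteratedDeriv t F y ∂μ := by
    refine integral_congr_ae ?_
    filter_upwards [hμ] with y hy
    refine Finset.sum_congr rfl fun t ht => ?_
    rw [hFe t (Nat.lt_succ_iff.1 (Finset.mem_range.1 ht)) y hy]
  rw [hgoal]
  -- cutoff
  obtain ⟨χ, hχ, hχc, hχ1⟩ := j1_cutoff
  have hχT : ContDiff ℝ T χ := hχ.of_le (by exact_mod_cast le_top)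
  set X : ℕ → ℝ → ℝ := fun n y => χ (((n : ℝ) + 1)⁻¹ * y) with hX
  have hXT : ∀ n, ContDiff ℝ T (X n) := fun n => hχT.comp (by fun_prop)
  have hXc : ∀ n, HasCompactSupport (X n) := fun n => by
    have h0 : ((n : ℝ) + 1)⁻¹ ≠ 0 := inv_ne_zero (by positivity)
    exact hχc.comp_homeomorph (Homeomorph.mulLeft₀ _ h0)
  have hzero : ∀ n, ∫ y : ℝ, ∑ t ∈ Finset.range (T + 1), (c t).eval y *
      iteratedDeriv t (F * X n) y ∂μ = 0 := fun n =>
    j1_cptR μ hm T c hS _ (hF.mul (hXT n)) ((hXc n).mul_left)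
  -- bounds of the derivatives of the cutoff functions
  have hχb : ∀ t ∈ Finset.range (T + 1), ∃ B, ∀ y, ‖iteratedDeriv t χ y‖ ≤ B := by
    intro t ht
    have h1 : HasCompactSupport (iteratedDeriv t χ) := by
      clear ht
      induction t with
      | zero => simpa using hχc
      | succ t ih => rw [iteratedDeriv_succ]; exact ih.deriv
    refine h1.exists_bound_of_continuous (hχT.continuous_iteratedDeriv t ?_)
    have : t ≤ T := Nat.lt_succ_iff.1 (Finset.mem_range.1 ht)
    exact_mod_cast this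
  choose! B hB using hχb
  have hXb : ∀ n, ∀ t ∈ Finset.range (T + 1), ∀ y, |iteratedDeriv t (X n) y| ≤ B t := by
    intro n t ht y
    have htT : t ≤ T := Nat.lt_succ_iff.1 (Finset.mem_range.1 ht)
    have h1 : iteratedDeriv t (X n) = fun y => (((n : ℝ) + 1)⁻¹) ^ t *
        iteratedDeriv t χ (((n : ℝ) + 1)⁻¹ * y) :=
      iteratedDeriv_comp_const_mul (hχT.of_le (by exact_mod_cast htT)) _
    rw [h1]
    simp only
    rw [abs_mul, abs_of_nonneg (by positivity : (0 : ℝ) ≤ (((n : ℝ) + 1)⁻¹) ^ t)]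
    have h2 : (((n : ℝ) + 1)⁻¹) ^ t ≤ 1 := by
      refine pow_le_one₀ (by positivity) (inv_le_one_of_one_le₀ ?_)
      have : (0 : ℝ) ≤ n := Nat.cast_nonneg n
      linarith
    have h3 := hB t ht (((n : ℝ) + 1)⁻¹ * y)
    rw [Real.norm_eq_abs] at h3
    calc _ ≤ 1 * |iteratedDeriv t χ (((n : ℝ) + 1)⁻¹ * y)| :=
          mul_le_mul_of_nonneg_right h2 (abs_nonneg _)
      _ ≤ B t := by rw [one_mul]; exact h3
  -- bounds of the polynomials
  have hpb : ∀ t ∈ Finset.range (T + 1), ∃ C : ℝ, 0 ≤ C ∧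
      ∀ y : ℝ, |(c t).eval y| ≤ C * ∑ j ∈ Finset.range (m + 1), |y ^ j| := fun t ht =>
    j1_polyB _ m (hc t (Nat.lt_succ_iff.1 (Finset.mem_range.1 ht)))
  choose! C hC0 hC using hpb
  -- dominated convergence
  have hlim : Tendsto (fun n : ℕ => ∫ y : ℝ, ∑ t ∈ Finset.range (T + 1), (c t).eval y *
      iteratedDeriv t (F * X n) y ∂μ) atTop
      (𝓝 (∫ y : ℝ, ∑ t ∈ Finset.range (T + 1), (c t).eval y * iteratedDeriv t F y ∂μ)) := by
    refine tendsto_integral_of_dominated_convergence
      (fun y => ∑ t ∈ Finset.range (T + 1), ∑ i ∈ Finset.range (t + 1),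
        ∑ j ∈ Finset.range (m + 1), C t * ((t.choose i : ℝ) * B (t - i)) *
          ‖y ^ j * iteratedDeriv i F y‖) ?_ ?_ ?_ ?_
    · intro n
      refine Continuous.aestronglyMeasurable (continuous_finsetSum _ fun t ht => ?_)
      have htT : t ≤ T := Nat.lt_succ_iff.1 (Finset.mem_range.1 ht)
      exact (c t).continuous.mul ((hF.mul (hXT n)).continuous_iteratedDeriv t
        (by exact_mod_cast htT))
    · refine integrable_finsetSum _ fun t ht => integrable_finsetSum _ fun i hi =>
        integrable_finsetSum _ fun j hj => ?_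
      have htT : t ≤ T := Nat.lt_succ_iff.1 (Finset.mem_range.1 ht)
      have hit : i ≤ t := Nat.lt_succ_iff.1 (Finset.mem_range.1 hi)
      have hjm : j ≤ m := Nat.lt_succ_iff.1 (Finset.mem_range.1 hj)
      exact (hFi i (by omega) j hjm).norm.const_mul _
    · intro n
      refine Eventually.of_forall fun y => ?_
      refine (norm_sum_le _ _).trans (Finset.sum_le_sum fun t ht => ?_)
      have htT : t ≤ T := Nat.lt_succ_iff.1 (Finset.mem_range.1 ht)
      have hFa : ContDiffAt ℝ t F y := (hF.of_le (by exact_mod_cast htT)).contDiffAt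
      have hXa : ContDiffAt ℝ t (X n) y := ((hXT n).of_le (by exact_mod_cast htT)).contDiffAt
      rw [Real.norm_eq_abs, abs_mul, iteratedDeriv_mul hFa hXa]
      have h1 : |∑ i ∈ Finset.range (t + 1), (t.choose i : ℝ) * iteratedDeriv i F y *
          iteratedDeriv (t - i) (X n) y| ≤ ∑ i ∈ Finset.range (t + 1),
          (t.choose i : ℝ) * B (t - i) * |iteratedDeriv i F y| := by
        refine (Finset.abs_sum_le_sum_abs _ _).trans (Finset.sum_le_sum fun i hi => ?_)
        rw [abs_mul, abs_mul, abs_of_nonneg (Nat.cast_nonneg (t.choose i))]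
        have h2 := hXb n (t - i) (Finset.mem_range.2 (by omega)) y
        calc (t.choose i : ℝ) * |iteratedDeriv i F y| * |iteratedDeriv (t - i) (X n) y| ≤
            (t.choose i : ℝ) * |iteratedDeriv i F y| * B (t - i) :=
              mul_le_mul_of_nonneg_left h2 (by positivity)
          _ = _ := by ring
      have h0 : (0 : ℝ) ≤ ∑ i ∈ Finset.range (t + 1),
          (t.choose i : ℝ) * B (t - i) * |iteratedDeriv i F y| := (abs_nonneg _).trans h1
      calc |(c t).eval y| * |∑ i ∈ Finset.range (t + 1), (t.choose i : ℝ) * iteratedDeriv i F y *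
          iteratedDeriv (t - i) (X n) y| ≤
          (C t * ∑ j ∈ Finset.range (m + 1), |y ^ j|) * ∑ i ∈ Finset.range (t + 1),
          (t.choose i : ℝ) * B (t - i) * |iteratedDeriv i F y| :=
            mul_le_mul (hC t ht y) h1 (abs_nonneg _)
              (mul_nonneg (hC0 t ht) (Finset.sum_nonneg fun _ _ => abs_nonneg _))
        _ = _ := by
            rw [Finset.mul_sum]
            refine Finset.sum_congr rfl fun i _ => ?_
            rw [mul_assoc, Finset.sum_mul, Finset.mul_sum]
            refine Finset.sum_congr rfl fun j _ => ?_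
            rw [Real.norm_eq_abs, abs_mul]; ring
    · refine Eventually.of_forall fun y => ?_
      refine tendsto_finsetSum _ fun t ht => Tendsto.const_mul _ ?_
      refine tendsto_const_nhds.congr' ?_
      obtain ⟨n0, hn0⟩ := exists_nat_gt |y|
      filter_upwards [eventually_ge_atTop n0] with n hn
      refine Filter.EventuallyEq.iteratedDeriv_eq t ?_
      have hy : |y| < (n : ℝ) + 1 := by
        have : (n0 : ℝ) ≤ n := by exact_mod_cast hn
        linarith
      have hopen : {z : ℝ | |z| < (n : ℝ) + 1} ∈ 𝓝 y :=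
        (isOpen_lt continuous_abs continuous_const).mem_nhds hy
      filter_upwards [hopen] with z hz
      have h1 : X n z = 1 := by
        apply hχ1
        rw [abs_mul, abs_of_pos (by positivity : (0 : ℝ) < ((n : ℝ) + 1)⁻¹),
          inv_mul_lt_iff₀ (by positivity), mul_one]
        exact hz
      rw [Pi.mul_apply, h1, mul_one]
  exact tendsto_nhds_unique hlim (by simp only [hzero]; exact tendsto_const_nhds)

end Pool.Agent.H288.ST.J1
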