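import Mathlib

set_option autoImplicit false

open Filter Topology

/-! JOB for MP_0c6895_pr (owner helper288), J2 growth of solutions of a linear system. Only Mathlib is needed. One TARGET theorem.

PROOF. The Vandermonde matrix of lam is invertible (Matrix.det_vandermonde_ne_zero_iff), so there is a matrix P with
sum_j P i j * lam_k ^ j = (if i = k then 1 else 0), and also sum_k lam_k ^ j * P k j' = (if j = j' then 1 else 0) for j, j' < r. Put
y_i(s) = sum_{j < r} P i j * U j s, so U j s = sum_k lam_k ^ j * y_k(s) for j < r. For j + 1 < r: U (j+1) s = sum_k lam_k^(j+1) y_k;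
for j + 1 = r: U r s = sum_j g s j * U j s = sum_k lam_k^r y_k + sum_j (g s j - g0 j) U j s (by hroot). So
y_i' = -κ lam_i y_i + err_i(s), |err_i(s)| <= η(s) * sum_k |y_k(s)| with η(s) -> 0 as s -> infinity (the terms j/s and g s j - g0 j).
Let N(s) = sum_i |y_i(s)|^2. Choose β' < β with κ Re lam_i < β' for all i (finitely many i). Then N' = 2 Re sum conj(y_i) y_i' >= -2 β' N for
s >= s1 (s1 >= s₀, s1 > 0), so exp(2 β' s) N(s) is monotone on [s1, infinity). By hC, N(s) <= C'^2 exp(-2 β s), so exp(2 β' s) N(s) -> 0.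
Hence exp(2 β' s) N(s) <= 0 for s >= s1, N = 0 there, all y_i = 0 and U 0 s = 0. -/

namespace Pool.Agent.H288.ST.J2

open scoped ComplexConjugate

theorem growth_alg (r : ℕ) (a lam : Fin r → ℂ) (c : Fin r → Fin r → ℂ) (κ β δ ε : ℝ)
    (h1 : ∀ i, κ * (lam i).re ≤ β - 2 * δ) (h2 : ∀ i k, ‖c i k‖ ≤ ε) (h3 : ε * r ≤ δ) :
    -2 * (β - δ) * ∑ i, ‖a i‖ ^ 2 ≤
      ∑ i, 2 * inner ℝ (a i) (-(κ : ℂ) * lam i * a i + ∑ k, c i k * a k) := by
  have e1 : ∀ i, inner ℝ (a i) (-(κ : ℂ) * lam i * a i) = -(κ * (lam i).re) * ‖a i‖ ^ 2 := by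
    intro i
    rw [Complex.inner]
    have : conj (a i) * (-(κ : ℂ) * lam i * a i) = ((-κ * ‖a i‖ ^ 2 : ℝ) : ℂ) * lam i := by
      push_cast
      rw [← Complex.conj_mul']
      ring
    rw [mul_comm] at this
    rw [this, Complex.re_ofReal_mul]
    ring
  have e2 : ∀ i, -∑ k, ε * ((‖a i‖ ^ 2 + ‖a k‖ ^ 2) / 2) ≤ inner ℝ (a i) (∑ k, c i k * a k) := by
    intro i
    have f1 : |inner ℝ (a i) (∑ k, c i k * a k)| ≤ ‖a i‖ * ‖∑ k, c i k * a k‖ :=
      abs_real_inner_le_norm _ _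
    have f2 : ‖∑ k, c i k * a k‖ ≤ ∑ k, ε * ‖a k‖ := by
      refine (norm_sum_le _ _).trans (Finset.sum_le_sum fun k _ => ?_)
      rw [norm_mul]
      exact mul_le_mul_of_nonneg_right (h2 i k) (norm_nonneg _)
    have f3 : ‖a i‖ * ∑ k, ε * ‖a k‖ ≤ ∑ k, ε * ((‖a i‖ ^ 2 + ‖a k‖ ^ 2) / 2) := by
      rw [Finset.mul_sum]
      refine Finset.sum_le_sum fun k _ => ?_
      have hε : 0 ≤ ε := (norm_nonneg _).trans (h2 i k)
      have f4 : ‖a i‖ * ‖a k‖ ≤ (‖a i‖ ^ 2 + ‖a k‖ ^ 2) / 2 := by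
        nlinarith [sq_nonneg (‖a i‖ - ‖a k‖)]
      calc ‖a i‖ * (ε * ‖a k‖) = ε * (‖a i‖ * ‖a k‖) := by ring
        _ ≤ _ := mul_le_mul_of_nonneg_left f4 hε
    have f5 := mul_le_mul_of_nonneg_left f2 (norm_nonneg (a i))
    have f6 := neg_abs_le (inner ℝ (a i) (∑ k, c i k * a k))
    linarith
  have e3 : ∑ i : Fin r, ∑ k : Fin r, ε * ((‖a i‖ ^ 2 + ‖a k‖ ^ 2) / 2) =
      ε * r * ∑ i, ‖a i‖ ^ 2 := by
    simp only [← Finset.mul_sum, ← Finset.sum_div, Finset.sum_add_distrib, Finset.sum_const,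
      Finset.card_univ, Fintype.card_fin, nsmul_eq_mul]
    ring
  have hN : 0 ≤ ∑ i, ‖a i‖ ^ 2 := Finset.sum_nonneg fun i _ => by positivity
  have e4 : ∑ i, (-(β - 2 * δ) * ‖a i‖ ^ 2 - ∑ k, ε * ((‖a i‖ ^ 2 + ‖a k‖ ^ 2) / 2)) ≤
      ∑ i, inner ℝ (a i) (-(κ : ℂ) * lam i * a i + ∑ k, c i k * a k) := by
    refine Finset.sum_le_sum fun i _ => ?_
    rw [inner_add_right, e1]
    have := e2 i
    have g1 : -(β - 2 * δ) * ‖a i‖ ^ 2 ≤ -(κ * (lam i).re) * ‖a i‖ ^ 2 :=
      mul_le_mul_of_nonneg_right (neg_le_neg (h1 i)) (by positivity)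
    linarith
  rw [Finset.sum_sub_distrib, e3, ← Finset.mul_sum] at e4
  rw [← Finset.mul_sum]
  have e5 : ε * r * ∑ i, ‖a i‖ ^ 2 ≤ δ * ∑ i, ‖a i‖ ^ 2 := mul_le_mul_of_nonneg_right h3 hN
  linarith

/-- Linear systems which are asymptotically diagonal. -/
theorem growth_diag (r : ℕ) (lam : Fin r → ℂ) (κ β : ℝ) (hβ : ∀ i, κ * (lam i).re < β)
    (y : Fin r → ℝ → ℂ) (c : Fin r → Fin r → ℝ → ℂ) (hc : ∀ i k, Tendsto (c i k) atTop (𝓝 0))
    (s₀ : ℝ) (hy : ∀ s, s₀ ≤ s → ∀ i, HasDerivAt (y i)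
      (-(κ : ℂ) * lam i * y i s + ∑ k, c i k s * y k s) s) (C : ℝ)
    (hC : ∀ s, s₀ ≤ s → ∀ i, ‖y i s‖ ≤ C * Real.exp (-β * s)) :
    ∃ s₁, s₀ ≤ s₁ ∧ ∀ s, s₁ ≤ s → ∀ i, y i s = 0 := by
  -- a gap
  obtain ⟨δ, hδ, hgap⟩ : ∃ δ > 0, ∀ i, κ * (lam i).re ≤ β - 2 * δ := by
    by_cases hr : Nonempty (Fin r)
    · obtain ⟨i0, hi0⟩ := Finite.exists_max fun i => κ * (lam i).re
      refine ⟨(β - κ * (lam i0).re) / 2, by linarith [hβ i0], fun i => ?_⟩
      have := hi0 i
      linarith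
    · rw [not_nonempty_iff] at hr
      exact ⟨1, one_pos, fun i => hr.elim i⟩
  set ε : ℝ := δ / (r + 1) with hε
  have hε0 : 0 < ε := by positivity
  have hεr : ε * r ≤ δ := by
    rw [hε, div_mul_eq_mul_div, div_le_iff₀ (by positivity)]
    nlinarith
  have hev : ∀ᶠ s in atTop, ∀ i k, ‖c i k s‖ ≤ ε := by
    rw [eventually_all]
    intro i
    rw [eventually_all]
    intro k
    have h1 := (hc i k).norm
    rw [norm_zero] at h1
    exact (h1.eventually_lt_const hε0).mono fun s hs => hs.le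
  obtain ⟨s₂, hs₂⟩ := eventually_atTop.1 hev
  set s₁ := max s₀ s₂ with hs₁
  refine ⟨s₁, le_max_left _ _, ?_⟩
  set N : ℝ → ℝ := fun s => ∑ i, ‖y i s‖ ^ 2 with hN
  have hNd : ∀ s, s₁ ≤ s → HasDerivAt N (∑ i, 2 * inner ℝ (y i s)
      (-(κ : ℂ) * lam i * y i s + ∑ k, c i k s * y k s)) s := by
    intro s hs
    refine HasDerivAt.fun_sum fun i _ => ?_
    exact (hy s ((le_max_left _ _).trans hs) i).norm_sq
  set F : ℝ → ℝ := fun s => Real.exp (2 * (β - δ) * s) * N s with hF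
  have hFd : ∀ s, s₁ ≤ s → ∃ D, HasDerivAt F D s ∧ 0 ≤ D := by
    intro s hs
    have h1 : HasDerivAt (fun s => Real.exp (2 * (β - δ) * s))
        (Real.exp (2 * (β - δ) * s) * (2 * (β - δ))) s := by
      have := ((hasDerivAt_id s).const_mul (2 * (β - δ))).exp
      simpa using this
    refine ⟨_, h1.mul (hNd s hs), ?_⟩
    have h2 := growth_alg r (fun i => y i s) lam (fun i k => c i k s) κ β δ ε hgap
      (hs₂ s ((le_max_right _ _).trans hs)) hεr
    have h3 : 0 ≤ Real.exp (2 * (β - δ) * s) * (2 * (β - δ) * N s + ∑ i, 2 * inner ℝ (y i s)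
        (-(κ : ℂ) * lam i * y i s + ∑ k, c i k s * y k s)) := by
      refine mul_nonneg (Real.exp_pos _).le ?_
      have h4 : -2 * (β - δ) * N s ≤ ∑ i, 2 * inner ℝ (y i s)
        (-(κ : ℂ) * lam i * y i s + ∑ k, c i k s * y k s) := h2
      linarith
    calc (0 : ℝ) ≤ _ := h3
      _ = _ := by ring
  have hmono : MonotoneOn F (Set.Ici s₁) := by
    refine monotoneOn_of_deriv_nonneg (convex_Ici s₁) ?_ ?_ ?_
    · intro s hs
      obtain ⟨D, hD, -⟩ := hFd s hs
      exact hD.continuousAt.continuousWithinAt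
    · intro s hs
      obtain ⟨D, hD, -⟩ := hFd s (interior_subset hs)
      exact hD.differentiableAt.differentiableWithinAt
    · intro s hs
      obtain ⟨D, hD, hD0⟩ := hFd s (interior_subset hs)
      rw [hD.deriv]
      exact hD0
  have hbound : ∀ s, s₁ ≤ s → F s ≤ r * C ^ 2 * Real.exp (-(2 * δ * s)) := by
    intro s hs
    have h1 : N s ≤ r * (C * Real.exp (-β * s)) ^ 2 := by
      have h2 : N s ≤ ∑ _i : Fin r, (C * Real.exp (-β * s)) ^ 2 := by
        refine Finset.sum_le_sum fun i _ => ?_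
        exact pow_le_pow_left₀ (norm_nonneg _) (hC s ((le_max_left _ _).trans hs) i) 2
      rwa [Finset.sum_const, Finset.card_univ, Fintype.card_fin, nsmul_eq_mul] at h2
    calc F s ≤ Real.exp (2 * (β - δ) * s) * (r * (C * Real.exp (-β * s)) ^ 2) :=
          mul_le_mul_of_nonneg_left h1 (Real.exp_pos _).le
      _ = r * C ^ 2 * (Real.exp (2 * (β - δ) * s) * (Real.exp (-β * s) * Real.exp (-β * s))) := by
          ring
      _ = r * C ^ 2 * Real.exp (-(2 * δ * s)) := by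
          rw [← Real.exp_add, ← Real.exp_add]
          congr 2
          ring
  have hlim : Tendsto (fun s => r * C ^ 2 * Real.exp (-(2 * δ * s))) atTop (𝓝 0) := by
    have h1 : Tendsto (fun s : ℝ => Real.exp (-(2 * δ * s))) atTop (𝓝 0) := by
      refine Real.tendsto_exp_neg_atTop_nhds_zero.comp ?_
      exact tendsto_id.const_mul_atTop (by positivity)
    simpa using h1.const_mul (r * C ^ 2)
  intro s hs i
  have hFs : F s ≤ 0 := by
    refine ge_of_tendsto hlim ?_
    filter_upwards [eventually_ge_atTop s] with t ht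
    exact (hmono hs (hs.trans ht) ht).trans (hbound t (hs.trans ht))
  have hN0 : N s ≤ 0 := by
    by_contra hcon
    push Not at hcon
    have : 0 < F s := mul_pos (Real.exp_pos _) hcon
    linarith
  have h1 : ‖y i s‖ ^ 2 ≤ N s :=
    Finset.single_le_sum (f := fun i => ‖y i s‖ ^ 2) (fun i _ => by positivity) (Finset.mem_univ i)
  have h2 : ‖y i s‖ ^ 2 = 0 := le_antisymm (h1.trans hN0) (by positivity)
  simpa using h2

theorem growth (r : ℕ) (hr : 0 < r) (lam : Fin r → ℂ) (hinj : Function.Injective lam)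
    (g : ℝ → Fin r → ℂ) (g0 : Fin r → ℂ) (hg : Tendsto g atTop (𝓝 g0))
    (hroot : ∀ i, ∑ j : Fin r, g0 j * lam i ^ (j : ℕ) = lam i ^ r)
    (κ : ℝ) (hκ : 0 < κ) (U : ℕ → ℝ → ℂ) (s₀ : ℝ)
    (hU : ∀ s, s₀ ≤ s → ∀ j, j < r →
      HasDerivAt (U j) (-(κ : ℂ) * U (j + 1) s - (((j : ℝ) / s : ℝ) : ℂ) * U j s) s)
    (hr' : ∀ s, s₀ ≤ s → U r s = ∑ j : Fin r, g s j * U j s)
    (β C : ℝ) (hβ : ∀ i, κ * (lam i).re < β)
    (hC : ∀ s, s₀ ≤ s → ∀ j, j < r → ‖U j s‖ ≤ C * Real.exp (-β * s)) :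
    ∃ s₁, ∀ s, s₁ ≤ s → U 0 s = 0 := by
  classical
  set V : Matrix (Fin r) (Fin r) ℂ := Matrix.vandermonde lam with hV
  have hdet : IsUnit (V.transpose).det := by
    rw [Matrix.det_transpose, isUnit_iff_ne_zero]
    exact Matrix.det_vandermonde_ne_zero_iff.2 hinj
  set P : Matrix (Fin r) (Fin r) ℂ := (V.transpose)⁻¹ with hP
  have hPV : P * V.transpose = 1 := Matrix.nonsing_inv_mul _ hdet
  have hVP : V.transpose * P = 1 := Matrix.mul_nonsing_inv _ hdet
  have hPl : ∀ i k, ∑ j : Fin r, P i j * lam k ^ (j : ℕ) = if i = k then 1 else 0 := by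
    intro i k
    have h1 := congrFun (congrFun hPV i) k
    rw [Matrix.mul_apply, Matrix.one_apply] at h1
    simpa [hV, Matrix.vandermonde_apply] using h1
  have hlP : ∀ j j' : Fin r, ∑ k, lam k ^ (j : ℕ) * P k j' = if j = j' then 1 else 0 := by
    intro j j'
    have h1 := congrFun (congrFun hVP j) j'
    rw [Matrix.mul_apply, Matrix.one_apply] at h1
    simpa [hV, Matrix.vandermonde_apply] using h1
  set y : Fin r → ℝ → ℂ := fun i s => ∑ j : Fin r, P i j * U j s with hy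
  have huy : ∀ s (j : Fin r), U j s = ∑ k, lam k ^ (j : ℕ) * y k s := by
    intro s j
    simp only [hy, Finset.mul_sum]
    rw [Finset.sum_comm]
    simp_rw [← mul_assoc, ← Finset.sum_mul, hlP]
    simp
  set last : Fin r := ⟨r - 1, by omega⟩ with hlast
  set d : Fin r → Fin r → ℝ → ℂ := fun i l s =>
    -(κ : ℂ) * (P i last * (g s l - g0 l)) - P i l * (((l : ℕ) / s : ℝ) : ℂ) with hd
  have hd0 : ∀ i l, Tendsto (d i l) atTop (𝓝 0) := by
    intro i l
    have h1 : Tendsto (fun s => g s l - g0 l) atTop (𝓝 0) := by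
      have := ((tendsto_pi_nhds.1 hg) l).sub_const (g0 l)
      rwa [sub_self] at this
    have h2 : Tendsto (fun s : ℝ => (((l : ℕ) / s : ℝ) : ℂ)) atTop (𝓝 0) := by
      have h3 : Tendsto (fun s : ℝ => ((l : ℕ) : ℝ) / s) atTop (𝓝 0) :=
        tendsto_const_nhds.div_atTop tendsto_id
      have h4 := (Complex.continuous_ofReal.tendsto 0).comp h3
      rw [Complex.ofReal_zero] at h4
      exact h4
    have h5 := ((h1.const_mul (P i last)).const_mul (-(κ : ℂ))).sub (h2.const_mul (P i l))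
    have h6 : -(κ : ℂ) * (P i last * 0) - P i l * 0 = 0 := by simp
    rw [h6] at h5
    exact h5
  have hw : ∀ s, s₀ ≤ s → ∀ j : Fin r, U (j + 1) s = ∑ k, lam k ^ ((j : ℕ) + 1) * y k s +
      (if j = last then ∑ l, (g s l - g0 l) * U l s else 0) := by
    intro s hs j
    by_cases hj : j = last
    · rw [if_pos hj]
      have h1 : (j : ℕ) + 1 = r := by rw [hj, hlast]; simp only; omega
      rw [h1, hr' s hs]
      have h2 : ∑ k, lam k ^ r * y k s = ∑ l : Fin r, g0 l * U l s := by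
        calc ∑ k, lam k ^ r * y k s = ∑ k, ∑ l : Fin r, g0 l * (lam k ^ (l : ℕ) * y k s) := by
              refine Finset.sum_congr rfl fun k _ => ?_
              rw [← hroot k, Finset.sum_mul]
              exact Finset.sum_congr rfl fun l _ => by ring
          _ = ∑ l : Fin r, ∑ k, g0 l * (lam k ^ (l : ℕ) * y k s) := Finset.sum_comm
          _ = ∑ l : Fin r, g0 l * U l s := by
              refine Finset.sum_congr rfl fun l _ => ?_
              rw [← Finset.mul_sum, ← huy]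
      rw [h2, ← Finset.sum_add_distrib]
      exact Finset.sum_congr rfl fun l _ => by ring
    · rw [if_neg hj, add_zero]
      have h1 : (j : ℕ) + 1 < r := by
        have h2 := j.2
        by_contra hcon
        apply hj
        apply Fin.ext
        rw [hlast]
        simp only
        omega
      exact huy s ⟨(j : ℕ) + 1, h1⟩
  have hder : ∀ s, s₀ ≤ s → ∀ i, HasDerivAt (y i)
      (-(κ : ℂ) * lam i * y i s + ∑ l, d i l s * U l s) s := by
    intro s hs i
    have h1 : HasDerivAt (y i) (∑ j : Fin r, P i j *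
        (-(κ : ℂ) * U (j + 1) s - (((j : ℕ) / s : ℝ) : ℂ) * U j s)) s :=
      HasDerivAt.fun_sum fun j _ => (hU s hs j j.2).const_mul (P i j)
    refine h1.congr_deriv ?_
    have h2 : ∑ j : Fin r, P i j * ∑ k, lam k ^ ((j : ℕ) + 1) * y k s = lam i * y i s := by
      simp only [Finset.mul_sum]
      rw [Finset.sum_comm]
      have h3 : ∀ k, ∑ j : Fin r, P i j * (lam k ^ ((j : ℕ) + 1) * y k s) =
          (if i = k then 1 else 0) * (lam k * y k s) := by
        intro k
        rw [← hPl i k, Finset.sum_mul]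
        exact Finset.sum_congr rfl fun j _ => by ring
      rw [Finset.sum_congr rfl fun k _ => h3 k]
      simp
    have h4 : ∑ j : Fin r, P i j * (if j = last then ∑ l, (g s l - g0 l) * U l s else 0) =
        P i last * ∑ l, (g s l - g0 l) * U l s := by
      simp
    calc ∑ j : Fin r, P i j * (-(κ : ℂ) * U (j + 1) s - (((j : ℕ) / s : ℝ) : ℂ) * U j s)
        = ∑ j : Fin r, (-(κ : ℂ) * (P i j * ∑ k, lam k ^ ((j : ℕ) + 1) * y k s) +
          -(κ : ℂ) * (P i j * (if j = last then ∑ l, (g s l - g0 l) * U l s else 0)) -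
          P i j * (((j : ℕ) / s : ℝ) : ℂ) * U j s) := by
          refine Finset.sum_congr rfl fun j _ => ?_
          rw [hw s hs j]
          ring
      _ = -(κ : ℂ) * (lam i * y i s) + -(κ : ℂ) * (P i last * ∑ l, (g s l - g0 l) * U l s) -
          ∑ j : Fin r, P i j * (((j : ℕ) / s : ℝ) : ℂ) * U j s := by
          rw [Finset.sum_sub_distrib, Finset.sum_add_distrib, ← Finset.mul_sum, ← Finset.mul_sum,
            h2, h4]
      _ = -(κ : ℂ) * lam i * y i s + ∑ l, d i l s * U l s := by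
          have h5 : ∑ l, d i l s * U l s = -(κ : ℂ) * (P i last * ∑ l, (g s l - g0 l) * U l s) -
              ∑ j : Fin r, P i j * (((j : ℕ) / s : ℝ) : ℂ) * U j s := by
            rw [Finset.mul_sum, Finset.mul_sum, ← Finset.sum_sub_distrib]
            refine Finset.sum_congr rfl fun l _ => ?_
            simp only [hd]
            ring
          rw [h5]
          ring
  set c : Fin r → Fin r → ℝ → ℂ := fun i k s => ∑ l : Fin r, d i l s * lam k ^ (l : ℕ) with hc
  have hc0 : ∀ i k, Tendsto (c i k) atTop (𝓝 0) := by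
    intro i k
    have h1 : Tendsto (c i k) atTop (𝓝 (∑ l : Fin r, 0 * lam k ^ (l : ℕ))) :=
      tendsto_finsetSum _ fun l _ => (hd0 i l).mul_const _
    simpa using h1
  have hder' : ∀ s, s₀ ≤ s → ∀ i, HasDerivAt (y i)
      (-(κ : ℂ) * lam i * y i s + ∑ k, c i k s * y k s) s := by
    intro s hs i
    refine (hder s hs i).congr_deriv ?_
    congr 1
    calc ∑ l, d i l s * U l s = ∑ l, ∑ k, d i l s * (lam k ^ (l : ℕ) * y k s) := by
          refine Finset.sum_congr rfl fun l _ => ?_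
          rw [huy s l, Finset.mul_sum]
      _ = ∑ k, ∑ l, d i l s * (lam k ^ (l : ℕ) * y k s) := Finset.sum_comm
      _ = ∑ k, c i k s * y k s := by
          refine Finset.sum_congr rfl fun k _ => ?_
          rw [hc, Finset.sum_mul]
          exact Finset.sum_congr rfl fun l _ => by ring
  -- the bound
  set C' : ℝ := ∑ i : Fin r, ∑ j : Fin r, ‖P i j‖ * |C| with hC'
  have hyb : ∀ s, s₀ ≤ s → ∀ i, ‖y i s‖ ≤ C' * Real.exp (-β * s) := by
    intro s hs i
    have h1 : ‖y i s‖ ≤ ∑ j : Fin r, ‖P i j‖ * (|C| * Real.exp (-β * s)) := by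
      refine (norm_sum_le _ _).trans (Finset.sum_le_sum fun j _ => ?_)
      rw [norm_mul]
      refine mul_le_mul_of_nonneg_left ((hC s hs j j.2).trans ?_) (norm_nonneg _)
      exact mul_le_mul_of_nonneg_right (le_abs_self C) (Real.exp_pos _).le
    have h2 : ∑ j : Fin r, ‖P i j‖ * (|C| * Real.exp (-β * s)) =
        (∑ j : Fin r, ‖P i j‖ * |C|) * Real.exp (-β * s) := by
      rw [Finset.sum_mul]
      exact Finset.sum_congr rfl fun j _ => by ring
    have h3 : ∑ j : Fin r, ‖P i j‖ * |C| ≤ C' :=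
      Finset.single_le_sum (f := fun i => ∑ j : Fin r, ‖P i j‖ * |C|)
        (fun i _ => Finset.sum_nonneg fun j _ => by positivity) (Finset.mem_univ i)
    rw [h2] at h1
    exact h1.trans (mul_le_mul_of_nonneg_right h3 (Real.exp_pos _).le)
  obtain ⟨s₁, hs₁, hzero⟩ := growth_diag r lam κ β hβ y c hc0 s₀ hder' C' hyb
  refine ⟨s₁, fun s hs => ?_⟩
  have h1 := huy s ⟨0, hr⟩
  simp only [hzero s hs, mul_zero, Finset.sum_const_zero] at h1
  exact h1

end Pool.Agent.H288.ST.J2
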