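import Mathlib

set_option autoImplicit false

open MeasureTheory Filter Topology

/-! JOB for MP_0c6895_pr (owner helper288), J3 Gevrey bound. Only Mathlib is needed. One TARGET theorem.

Words: mu has exp(c |y|^(2/p)) integrable for all c < 1/2, nu has the same moments as mu. Then all derivatives of the difference of the two
characteristic functions are O(exp(-β t^(-2/(p-2)))) as t -> 0+, for every β < A := (p-2)/2 * p^(-p/(p-2)).

PROOF. Put κ = (p-2)/2 > 0, so p/2 = κ + 1, and s = t^(-1/κ) = t^(-2/(p-2)). Mathlib: iteratedDeriv_charFun gives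
iteratedDeriv j (charFun mu) t = I^j * int x^j exp(t x I) dmu. For every N, with |exp(ix) - sum_{k<N} (ix)^k/k!| <= |x|^N/N! (real x; e.g. from
Mathlib Complex/Real Taylor bounds or by induction and integration) and the equality of moments,
  |D_j(t)| := |difference of the j-th derivatives| <= t^N/N! * (int |x|^(N+j) dmu + int |x|^(N+j) dnu) = 2 t^N/N! * int x^M dmu
if M := N + j is even (then |x|^M = x^M and the two moments are equal).
Moment bound: for 0 < c < 1/2 and M >= 1: |y|^M <= (M p/(2 c e))^(M p/2) * exp(c |y|^(2/p)) (from z^a <= (a/e)^a e^z for z = c|y|^(2/p), a = M p/2),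
so int x^M dmu <= K_c (M p/(2 c e))^(M p/2), K_c = int exp(c |y|^(2/p)) dmu. Also 1/N! <= (e/N)^N (Real.pow_div_factorial_le_exp).
So |D_j(t)| <= 2 K_c (t e/N)^N (M p/(2 c e))^(M p/2), N = M - j. For M >= 2j+2 one has (1/N)^N <= M^j e^(2j)... M^(-M) up to a constant
depending on j only: N^(-N) = M^(-M) M^j (1 - j/M)^(-(M-j)) and (1 - j/M)^(-(M-j)) <= e^j. Hence
  |D_j(t)| <= C' t^(-j) M^j * [ t e (p/(2 c e))^(p/2) M^κ ]^M.
Let y > 0 solve t e (p/(2 c e))^(p/2) y^κ = e^(-κ), that is y^κ = (2c/p)^(p/2)/t (because e^(-κ-1) e^(p/2) = 1), y = (2c/p)^(p/(p-2)) s. Take M the even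
integer with y - 2 < M <= y (y large). The bracket is <= e^(-κ), so |D_j(t)| <= C' t^(-j) y^j e^(-κ (y-2)), and
κ y = A (2c)^(p/(p-2)) s. Choose c < 1/2 so close to 1/2 that A (2c)^(p/(p-2)) > β'' > β (if β < 0 replace it by 0 first: A > 0, s > 0); the powers
t^(-j) y^j are polynomial in s and are absorbed by exp(-(β''-β) s). For t in (0,1] with s bounded the left side is bounded
(|D_j| <= int |x|^j dmu + int |x|^j dnu) and exp(-β s) is bounded below, so one constant C works on all of (0,1]. -/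

namespace Pool.Agent.H288.ST.J3

/-- integrable power gives membership in `L^n` -/
theorem gevrey_memLp (ν : Measure ℝ) [IsProbabilityMeasure ν] (n : ℕ)
    (h : Integrable (fun y : ℝ => y ^ n) ν) : MemLp (id : ℝ → ℝ) n ν := by
  rcases Nat.eq_zero_or_pos n with hn | hn
  · subst hn
    simp only [Nat.cast_zero, memLp_zero_iff_aestronglyMeasurable]
    exact aestronglyMeasurable_id
  · rw [← integrable_norm_rpow_iff aestronglyMeasurable_id (by exact_mod_cast hn.ne') (by simp)]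
    refine h.norm.congr (Eventually.of_forall fun y => ?_)
    simp [Real.rpow_natCast]

/-- iterated integration -/
theorem gevrey_taylor (F : ℕ → ℝ → ℂ) (hF : ∀ n t, HasDerivAt (F n) (F (n + 1) t) t)
    (h0 : ∀ n, F n 0 = 0) (n : ℕ) (A : ℝ) (hA : ∀ t, ‖F n t‖ ≤ A) :
    ∀ i m, m + i = n → ∀ t, 0 ≤ t → ‖F m t‖ ≤ A * (t ^ i / (i.factorial : ℝ)) := by
  intro i
  induction i with
  | zero =>
    intro m hm t _
    have : m = n := by omega
    subst this
    simpa using hA t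
  | succ i ih =>
    intro m hm t ht
    have h1 := ih (m + 1) (by omega)
    have hB : ∀ x : ℝ, HasDerivAt (fun s : ℝ => A * (s ^ (i + 1) / ((i + 1).factorial : ℝ)))
        (A * (x ^ i / (i.factorial : ℝ))) x := by
      intro x
      have h2 := ((hasDerivAt_pow (i + 1) x).div_const ((i + 1).factorial : ℝ)).const_mul A
      convert! h2 using 1
      rw [Nat.factorial_succ]
      push_cast
      have h3 : (i.factorial : ℝ) ≠ 0 := by exact_mod_cast (Nat.factorial_pos i).ne'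
      have h4 : ((i : ℝ) + 1) ≠ 0 := by positivity
      field_simp
      try simp only [Nat.add_sub_cancel]
    have := image_norm_le_of_norm_deriv_right_le_deriv_boundary (f := F m) (f' := F (m + 1))
      (a := 0) (b := t) (fun x _ => (hF m x).continuousAt.continuousWithinAt)
      (fun x _ => (hF m x).hasDerivWithinAt) (B := fun s : ℝ => A * (s ^ (i + 1) / ((i + 1).factorial : ℝ)))
      (B' := fun x => A * (x ^ i / (i.factorial : ℝ))) (by simp [h0 m]) hB
      (fun x hx => h1 x hx.1)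
    exact this ⟨ht, le_rfl⟩

/-- the moment bound -/
theorem gevrey_moment {p : ℕ} (hp : 3 ≤ p) {c : ℝ} (hc : 0 < c) {M : ℕ} (hM : 1 ≤ M) (y : ℝ) :
    |y| ^ M ≤ Real.exp ((M : ℝ) * ((p : ℝ) / 2) * (Real.log M + Real.log ((p : ℝ) / (2 * c)) - 1))
      * Real.exp (c * |y| ^ ((2 : ℝ) / p)) := by
  rcases eq_or_ne y 0 with rfl | hy
  · rw [abs_zero, zero_pow (by omega)]
    positivity
  have hy' : 0 < |y| := abs_pos.2 hy
  have hp0 : (0 : ℝ) < p := by
    have : (3 : ℝ) ≤ p := by exact_mod_cast hp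
    linarith
  have hM0 : (0 : ℝ) < M := by exact_mod_cast hM
  rw [← Real.exp_add, ← Real.rpow_natCast, Real.rpow_def_of_pos hy']
  apply Real.exp_le_exp.2
  set z : ℝ := c * |y| ^ ((2 : ℝ) / p) with hz
  have hz0 : 0 < z := by positivity
  have h1 : Real.log z = Real.log c + 2 / p * Real.log |y| := by
    rw [hz, Real.log_mul hc.ne' (by positivity), Real.log_rpow hy']
  set a : ℝ := (M : ℝ) * ((p : ℝ) / 2) with ha
  have ha0 : 0 < a := by positivity
  have h2 : Real.log z ≤ Real.log a - 1 + z / a := by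
    have h3 := Real.log_le_sub_one_of_pos (show 0 < z / a by positivity)
    rw [Real.log_div hz0.ne' ha0.ne'] at h3
    linarith
  have h4 : Real.log a = Real.log M + Real.log ((p : ℝ) / (2 * c)) + Real.log c := by
    rw [add_assoc, ← Real.log_mul (by positivity) hc.ne', ← Real.log_mul hM0.ne' (by positivity), ha]
    congr 1
    field_simp
  have h5 : Real.log |y| * M = a * (Real.log z - Real.log c) := by
    rw [h1, ha]
    field_simp
    ring
  rw [h5]
  have h6 : a * Real.log z ≤ a * (Real.log a - 1) + z := by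
    have := mul_le_mul_of_nonneg_left h2 ha0.le
    have h7 : a * (Real.log a - 1 + z / a) = a * (Real.log a - 1) + z := by
      field_simp
    rw [h7] at this
    exact this
  rw [h4] at h6
  nlinarith

/-- the exponent computation -/
theorem gevrey_exponent {κ L t : ℝ} (ht : 0 < t) {M N j : ℕ} (hN : 1 ≤ N) (hMN : M = N + j)
    (hbr : Real.log t + κ * Real.log M + (κ + 1) * L ≤ 0) :
    (N : ℝ) * Real.log t - N * Real.log N + N + (M : ℝ) * (κ + 1) * (Real.log M + L - 1)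
      ≤ -κ * M + j * (Real.log M - Real.log t) + j := by
  have hN0 : (0 : ℝ) < N := by exact_mod_cast hN
  have hj0 : (0 : ℝ) ≤ j := by positivity
  have hM0 : (0 : ℝ) < M := by rw [hMN]; push_cast; linarith
  have hNM : (N : ℝ) = M - j := by rw [hMN]; push_cast; ring
  have h1 : (N : ℝ) * (Real.log M - Real.log N) ≤ j := by
    have h2 := Real.log_le_sub_one_of_pos (show 0 < (M : ℝ) / N by positivity)
    rw [Real.log_div hM0.ne' hN0.ne'] at h2
    have h3 := mul_le_mul_of_nonneg_left h2 hN0.le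
    have h4 : (N : ℝ) * ((M : ℝ) / N - 1) = M - N := by field_simp
    rw [h4] at h3
    linarith
  have h5 : (M : ℝ) * (Real.log t + κ * Real.log M + (κ + 1) * L) ≤ 0 :=
    mul_nonpos_of_nonneg_of_nonpos hM0.le hbr
  have h6 : (N : ℝ) * Real.log t = M * Real.log t - j * Real.log t := by rw [hNM]; ring
  have h7 : (N : ℝ) * Real.log M = M * Real.log M - j * Real.log M := by rw [hNM]; ring
  nlinarith

/-- the factorial bound -/
theorem gevrey_fact {t : ℝ} (ht : 0 < t) {N : ℕ} (hN : 1 ≤ N) :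
    t ^ N / (N.factorial : ℝ) ≤ Real.exp ((N : ℝ) * Real.log t - N * Real.log N + N) := by
  have hN0 : (0 : ℝ) < N := by exact_mod_cast hN
  have hf : (0 : ℝ) < (N.factorial : ℝ) := by exact_mod_cast Nat.factorial_pos N
  have h1 := Real.pow_div_factorial_le_exp (x := (N : ℝ)) hN0.le N
  have h2 : Real.exp ((N : ℝ) * Real.log t) = t ^ N := by
    rw [mul_comm, Real.exp_mul, Real.exp_log ht, Real.rpow_natCast]
  have h3 : Real.exp ((N : ℝ) * Real.log N) = (N : ℝ) ^ N := by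
    rw [mul_comm, Real.exp_mul, Real.exp_log hN0, Real.rpow_natCast]
  rw [Real.exp_add, Real.exp_sub, h2, h3, div_eq_mul_inv, div_eq_mul_inv, mul_assoc]
  apply mul_le_mul_of_nonneg_left _ (by positivity)
  rw [div_le_iff₀ hf] at h1
  rw [inv_le_iff_one_le_mul₀ hf, mul_comm, ← mul_assoc, mul_comm, ← mul_assoc]
  have h4 : (0 : ℝ) < (N : ℝ) ^ N := by positivity
  rw [← div_eq_mul_inv, le_div_iff₀ h4, one_mul]
  linarith

set_option maxHeartbeats 2000000 in
theorem gevrey (μ ν : Measure ℝ) [IsProbabilityMeasure μ] [IsProbabilityMeasure ν] (p : ℕ) (hp : 3 ≤ p)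
    (hμ : ∀ c : ℝ, c < 1 / 2 → Integrable (fun y : ℝ => Real.exp (c * |y| ^ ((2 : ℝ) / p))) μ)
    (hν : ∀ n : ℕ, Integrable (fun y : ℝ => y ^ n) ν)
    (hmom : ∀ n : ℕ, ∫ y, y ^ n ∂μ = ∫ y, y ^ n ∂ν)
    (β : ℝ) (hβ : β < ((p : ℝ) - 2) / 2 * (p : ℝ) ^ (-(p : ℝ) / ((p : ℝ) - 2))) (j : ℕ) :
    ∃ C : ℝ, ∀ t : ℝ, 0 < t → t ≤ 1 →
      ‖iteratedDeriv j (charFun μ) t - iteratedDeriv j (charFun ν) t‖ ≤
        C * Real.exp (-β * t ^ (-(2 : ℝ) / ((p : ℝ) - 2))) := by
  have hp3 : (3 : ℝ) ≤ p := by exact_mod_cast hp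
  have hp0 : (0 : ℝ) < p := by linarith
  -- notation
  obtain ⟨κ, hκ⟩ : ∃ κ : ℝ, κ = ((p : ℝ) - 2) / 2 := ⟨_, rfl⟩
  have hκ0 : 0 < κ := by rw [hκ]; linarith
  obtain ⟨q, hq⟩ : ∃ q : ℝ, q = (κ + 1) / κ := ⟨_, rfl⟩
  have hq0 : 0 < q := by rw [hq]; positivity
  have hqp : -(p : ℝ) / ((p : ℝ) - 2) = -q := by
    rw [hq, hκ]
    have : (p : ℝ) - 2 ≠ 0 := by linarith
    field_simp
    ring
  have hsp : -(2 : ℝ) / ((p : ℝ) - 2) = -1 / κ := by
    rw [hκ]
    have : (p : ℝ) - 2 ≠ 0 := by linarith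
    field_simp
  have hpκ : (p : ℝ) / 2 = κ + 1 := by rw [hκ]; ring
  rw [hqp, ← hκ] at hβ
  rw [hsp]
  -- choice of c
  obtain ⟨c, ⟨hc0, hc1⟩, hcβ⟩ : ∃ c : ℝ, c ∈ Set.Ioo 0 (1 / 2 : ℝ) ∧
      β < κ * (p : ℝ) ^ (-q) * (2 * c) ^ q := by
    have h1 : ContinuousAt (fun c : ℝ => κ * (p : ℝ) ^ (-q) * (2 * c) ^ q) (1 / 2) := by
      apply ContinuousAt.mul continuousAt_const
      exact ContinuousAt.rpow (by fun_prop) continuousAt_const (Or.inl (by norm_num))
    have h2 : ∀ᶠ c in 𝓝 (1 / 2 : ℝ), β < κ * (p : ℝ) ^ (-q) * (2 * c) ^ q := by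
      apply h1.tendsto.eventually
      apply lt_mem_nhds
      simpa using hβ
    have h3 : ∀ᶠ c in 𝓝[<] (1 / 2 : ℝ), β < κ * (p : ℝ) ^ (-q) * (2 * c) ^ q :=
      h2.filter_mono nhdsWithin_le_nhds
    have h4 : ∀ᶠ c in 𝓝[<] (1 / 2 : ℝ), c ∈ Set.Ioo 0 (1 / 2 : ℝ) :=
      Ioo_mem_nhdsLT (by norm_num)
    exact (h4.and h3).exists
  obtain ⟨L, hL⟩ : ∃ L : ℝ, L = Real.log ((p : ℝ) / (2 * c)) := ⟨_, rfl⟩
  obtain ⟨γ, hγ⟩ : ∃ γ : ℝ, γ = κ * (p : ℝ) ^ (-q) * (2 * c) ^ q := ⟨_, rfl⟩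
  rw [← hγ] at hcβ
  have hγ0 : 0 < γ := by rw [hγ]; positivity
  have hγL : γ = κ * Real.exp (-q * L) := by
    rw [hγ, hL, mul_assoc, mul_comm (-q), Real.exp_mul, Real.exp_log (by positivity),
      Real.div_rpow hp0.le (by positivity), Real.rpow_neg (show (0 : ℝ) ≤ 2 * c by positivity),
      div_inv_eq_mul]
  -- integrability
  have hKint := hμ c hc1
  obtain ⟨Kc, hKc⟩ : ∃ K : ℝ, K = ∫ y, Real.exp (c * |y| ^ ((2 : ℝ) / p)) ∂μ := ⟨_, rfl⟩
  have hKc0 : 0 ≤ Kc := by rw [hKc]; exact integral_nonneg fun y => (Real.exp_pos _).le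
  have hμint : ∀ n : ℕ, Integrable (fun y : ℝ => y ^ n) μ := by
    intro n
    rcases Nat.eq_zero_or_pos n with hn | hn
    · subst hn
      simp
    · apply Integrable.mono' (hKint.const_mul (Real.exp ((n : ℝ) * ((p : ℝ) / 2)
        * (Real.log n + Real.log ((p : ℝ) / (2 * c)) - 1))))
      · exact (continuous_id.pow n).aestronglyMeasurable
      · refine Eventually.of_forall fun y => ?_
        rw [norm_pow, Real.norm_eq_abs]
        exact gevrey_moment hp hc0 hn y
  have hμL : ∀ n : ℕ, MemLp (id : ℝ → ℝ) n μ := fun n => gevrey_memLp μ n (hμint n)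
  have hνL : ∀ n : ℕ, MemLp (id : ℝ → ℝ) n ν := fun n => gevrey_memLp ν n (hν n)
  -- the differences
  obtain ⟨F, hF⟩ : ∃ F : ℕ → ℝ → ℂ, F = fun n t =>
    iteratedDeriv n (charFun μ) t - iteratedDeriv n (charFun ν) t := ⟨_, rfl⟩
  have hder : ∀ (ρ : Measure ℝ) [IsProbabilityMeasure ρ], (∀ n : ℕ, MemLp (id : ℝ → ℝ) n ρ) →
      ∀ n t, HasDerivAt (iteratedDeriv n (charFun ρ)) (iteratedDeriv (n + 1) (charFun ρ) t) t := by
    intro ρ _ hρ n t
    have h1 : ContDiff ℝ (n + 1 : ℕ) (charFun ρ) := contDiff_charFun (hρ (n + 1))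
    have h2 : Differentiable ℝ (iteratedDeriv n (charFun ρ)) :=
      h1.differentiable_iteratedDeriv n (by exact_mod_cast Nat.lt_succ_self n)
    rw [iteratedDeriv_succ]
    exact (h2 t).hasDerivAt
  have hFd : ∀ n t, HasDerivAt (F n) (F (n + 1) t) t := by
    intro n t
    rw [hF]
    exact (hder μ hμL n t).sub (hder ν hνL n t)
  have hF0 : ∀ n, F n 0 = 0 := by
    intro n
    rw [hF]
    simp only
    rw [iteratedDeriv_charFun_zero (hμL n), iteratedDeriv_charFun_zero (hνL n), hmom n, sub_self]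
  have hbd : ∀ (ρ : Measure ℝ) [IsProbabilityMeasure ρ], (∀ n : ℕ, MemLp (id : ℝ → ℝ) n ρ) →
      ∀ n t, ‖iteratedDeriv n (charFun ρ) t‖ ≤ ∫ x, |x| ^ n ∂ρ := by
    intro ρ _ hρ n t
    rw [iteratedDeriv_charFun (hρ n), norm_mul, norm_pow, Complex.norm_I, one_pow, one_mul]
    refine (norm_integral_le_integral_norm _).trans (le_of_eq ?_)
    apply integral_congr_ae
    refine Eventually.of_forall fun x => ?_
    simp only [norm_mul, norm_pow, Complex.norm_real, Real.norm_eq_abs]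
    have : ‖Complex.exp (t * x * Complex.I)‖ = 1 := by
      have := Complex.norm_exp_ofReal_mul_I (t * x)
      push_cast at this
      exact this
    rw [this, mul_one]
  have hFb : ∀ n t, ‖F n t‖ ≤ ∫ x, |x| ^ n ∂μ + ∫ x, |x| ^ n ∂ν := by
    intro n t
    rw [hF]
    exact (norm_sub_le _ _).trans (add_le_add (hbd μ hμL n t) (hbd ν hνL n t))
  -- even moments
  have hFe : ∀ M : ℕ, 1 ≤ M → Even M → ∀ t, ‖F M t‖ ≤
      2 * (Real.exp ((M : ℝ) * (κ + 1) * (Real.log M + L - 1)) * Kc) := by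
    intro M hM hMe t
    have h1 : ∀ ρ : Measure ℝ, ∫ x, |x| ^ M ∂ρ = ∫ x, x ^ M ∂ρ := by
      intro ρ
      apply integral_congr_ae
      exact Eventually.of_forall fun x => hMe.pow_abs x
    have h2 : ∫ x, x ^ M ∂μ ≤ Real.exp ((M : ℝ) * (κ + 1) * (Real.log M + L - 1)) * Kc := by
      rw [hKc, ← integral_const_mul]
      apply integral_mono (hμint M) (hKint.const_mul _)
      intro y
      have h3 := gevrey_moment hp hc0 hM y
      rw [hpκ, ← hL, hMe.pow_abs] at h3
      exact h3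
    have h4 := hFb M t
    rw [h1, h1, ← hmom M] at h4
    linarith
  -- the main bound
  have hmain : ∀ t : ℝ, 0 < t → ∀ N : ℕ, 1 ≤ N → Even (N + j) →
      Real.log t + κ * Real.log ((N + j : ℕ) : ℝ) + (κ + 1) * L ≤ 0 →
      ‖F j t‖ ≤ 2 * Kc * Real.exp (-κ * ((N + j : ℕ) : ℝ)
        + j * (Real.log ((N + j : ℕ) : ℝ) - Real.log t) + j) := by
    intro t ht N hN hev hbr
    have h1 := gevrey_taylor F hFd hF0 (N + j) _ (hFe (N + j) (by omega) hev) N j (by omega) t ht.le
    have h2 := gevrey_fact ht hN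
    have h3 := gevrey_exponent (κ := κ) (L := L) ht (M := N + j) (j := j) hN rfl hbr
    calc ‖F j t‖ ≤ 2 * (Real.exp (((N + j : ℕ) : ℝ) * (κ + 1)
          * (Real.log ((N + j : ℕ) : ℝ) + L - 1)) * Kc) * (t ^ N / (N.factorial : ℝ)) := h1
      _ ≤ 2 * (Real.exp (((N + j : ℕ) : ℝ) * (κ + 1)
          * (Real.log ((N + j : ℕ) : ℝ) + L - 1)) * Kc) *
            Real.exp ((N : ℝ) * Real.log t - N * Real.log N + N) := by gcongr
      _ = 2 * Kc * Real.exp (((N : ℝ) * Real.log t - N * Real.log N + N) + ((N + j : ℕ) : ℝ) * (κ + 1)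
          * (Real.log ((N + j : ℕ) : ℝ) + L - 1)) := by
          rw [Real.exp_add ((N : ℝ) * Real.log t - N * Real.log N + N)]
          ring
      _ ≤ _ := by gcongr
  -- constants
  obtain ⟨ε, hε⟩ : ∃ ε : ℝ, ε = (γ - β) / ((j + 1) * (1 + κ)) := ⟨_, rfl⟩
  have hε0 : 0 < ε := by
    rw [hε]
    have : 0 < γ - β := by linarith
    positivity
  have hεj : (j : ℝ) * (1 + κ) * ε ≤ γ - β := by
    have h1 : ((j : ℝ) + 1) * (1 + κ) * ε = γ - β := by
      rw [hε]; field_simp
    have h2 : 0 ≤ (1 + κ) * ε := by positivity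
    nlinarith
  obtain ⟨C1, hC1⟩ : ∃ C1 : ℝ, C1 = 2 * Kc * Real.exp (2 * κ + j - j * q * L
    + j * (1 + κ) * (-1 - Real.log ε)) := ⟨_, rfl⟩
  obtain ⟨B, hB⟩ : ∃ B : ℝ, B = ∫ x, |x| ^ j ∂μ + ∫ x, |x| ^ j ∂ν := ⟨_, rfl⟩
  have hB0 : 0 ≤ B := (norm_nonneg _).trans ((hFb j 0).trans_eq hB.symm)
  obtain ⟨C2, hC2⟩ : ∃ C2 : ℝ, C2 = B * Real.exp (|β| * ((2 * j + 2) * κ / γ)) := ⟨_, rfl⟩
  have hC10 : 0 ≤ C1 := by rw [hC1]; positivity
  have hC20 : 0 ≤ C2 := by rw [hC2]; positivity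
  refine ⟨C1 + C2, ?_⟩
  intro t ht ht1
  obtain ⟨s, hs⟩ : ∃ s : ℝ, s = t ^ (-1 / κ) := ⟨_, rfl⟩
  rw [← hs]
  have hs0 : 0 < s := by rw [hs]; positivity
  have hlogs : Real.log s = -Real.log t / κ := by
    rw [hs, Real.log_rpow ht]; ring
  have hlogt : Real.log t = -κ * Real.log s := by
    rw [hlogs]; field_simp
  have hgoal : iteratedDeriv j (charFun μ) t - iteratedDeriv j (charFun ν) t = F j t := by rw [hF]
  rw [hgoal]
  obtain ⟨Y, hY⟩ : ∃ Y : ℝ, Y = s * Real.exp (-q * L) := ⟨_, rfl⟩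
  have hY0 : 0 < Y := by rw [hY]; positivity
  have hlogY : Real.log Y = Real.log s - q * L := by
    rw [hY, Real.log_mul hs0.ne' (Real.exp_pos _).ne', Real.log_exp]; ring
  have hκY : κ * Y = γ * s := by rw [hY, hγL]; ring
  rcases le_or_gt (2 * (j : ℝ) + 2) Y with hcase | hcase
  · -- large Y
    obtain ⟨r, hr⟩ : ∃ r : ℕ, r = ⌊Y / 2⌋₊ := ⟨_, rfl⟩
    have hr1 : (r : ℝ) ≤ Y / 2 := by rw [hr]; exact Nat.floor_le (by positivity)
    have hr2 : Y / 2 < r + 1 := by rw [hr]; exact Nat.lt_floor_add_one _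
    have hr3 : j + 1 ≤ r := by
      rw [hr]
      apply Nat.le_floor
      push_cast
      linarith
    have hMj : 2 * r - j + j = 2 * r := by omega
    have hMr : (((2 * r - j) + j : ℕ) : ℝ) = 2 * r := by
      rw [hMj]; push_cast; ring
    have hr0 : (0 : ℝ) < r := by
      have : 0 < r := by omega
      exact_mod_cast this
    have hlogM : Real.log (2 * r) ≤ Real.log Y := Real.log_le_log (by positivity) (by linarith)
    have hbr : Real.log t + κ * Real.log (2 * r) + (κ + 1) * L ≤ 0 := by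
      have h1 : κ * Real.log (2 * r) ≤ κ * Real.log Y := by gcongr
      have h2 : κ * (q * L) = (κ + 1) * L := by rw [hq]; field_simp
      rw [hlogt]
      rw [hlogY] at h1
      linarith
    have h1 := hmain t ht (2 * r - j) (by omega) (by rw [hMj]; exact even_two_mul r)
      (by rw [hMr]; exact hbr)
    rw [hMr] at h1
    have h2 : -κ * (2 * (r : ℝ)) + j * (Real.log (2 * r) - Real.log t) + j ≤
        -β * s + (2 * κ + j - j * q * L + j * (1 + κ) * (-1 - Real.log ε)) := by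
      have a1 : -κ * (2 * (r : ℝ)) ≤ -(γ * s) + 2 * κ := by
        rw [← hκY]
        have := mul_le_mul_of_nonneg_left (show Y - 2 ≤ 2 * (r : ℝ) by linarith) hκ0.le
        linarith
      have hj0 : (0 : ℝ) ≤ j := by positivity
      have a2 : (j : ℝ) * (Real.log (2 * r) - Real.log t) ≤
          j * ((Real.log s - q * L) + κ * Real.log s) := by
        apply mul_le_mul_of_nonneg_left _ hj0
        rw [← hlogY, hlogt]
        linarith
      have a3 : Real.log s ≤ ε * s - 1 - Real.log ε := by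
        have := Real.log_le_sub_one_of_pos (show 0 < ε * s by positivity)
        rw [Real.log_mul hε0.ne' hs0.ne'] at this
        linarith
      have a4 : (j : ℝ) * (1 + κ) * Real.log s ≤ j * (1 + κ) * (ε * s - 1 - Real.log ε) := by
        apply mul_le_mul_of_nonneg_left a3 (by positivity)
      have a5 : (j : ℝ) * (1 + κ) * ε * s ≤ (γ - β) * s := by gcongr
      linarith
    calc ‖F j t‖ ≤ _ := h1
      _ ≤ 2 * Kc * Real.exp (-β * s + (2 * κ + j - j * q * L + j * (1 + κ) * (-1 - Real.log ε))) := by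
          gcongr
      _ = C1 * Real.exp (-β * s) := by
          rw [Real.exp_add, hC1]; ring
      _ ≤ (C1 + C2) * Real.exp (-β * s) := by
          apply mul_le_mul_of_nonneg_right _ (Real.exp_pos _).le
          linarith
  · -- small Y
    have h1 : s ≤ (2 * j + 2) * κ / γ := by
      rw [le_div_iff₀ hγ0]
      nlinarith
    have h2 : 1 ≤ Real.exp (|β| * ((2 * j + 2) * κ / γ)) * Real.exp (-β * s) := by
      rw [← Real.exp_add]
      apply Real.one_le_exp
      have a1 : |β| * s ≤ |β| * ((2 * j + 2) * κ / γ) := by gcongr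
      have a2 : β * s ≤ |β| * s := by
        apply mul_le_mul_of_nonneg_right (le_abs_self _) hs0.le
      linarith
    calc ‖F j t‖ ≤ B := by rw [hB]; exact hFb j t
      _ = B * 1 := by ring
      _ ≤ B * (Real.exp (|β| * ((2 * j + 2) * κ / γ)) * Real.exp (-β * s)) := by gcongr
      _ = C2 * Real.exp (-β * s) := by rw [hC2]; ring
      _ ≤ (C1 + C2) * Real.exp (-β * s) := by
          apply mul_le_mul_of_nonneg_right _ (Real.exp_pos _).le
          linarith

end Pool.Agent.H288.ST.J3
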