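import Mathlib

set_option autoImplicit false

open MeasureTheory ProbabilityTheory Filter Topology

namespace Pool.Agent.H288.ST.J4

/-- the `p`-th probabilists' Hermite polynomial as a real function -/
noncomputable def Hp (p : ℕ) (x : ℝ) : ℝ := Polynomial.aeval x (Polynomial.hermite p)

/-- the law of `H_p(X)`, `X` standard Gaussian -/
noncomputable def law (p : ℕ) : Measure ℝ := (gaussianReal 0 1).map (Hp p)

/-- the real polynomial -/
noncomputable def law_exp_auxP (p : ℕ) : Polynomial ℝ :=
  (Polynomial.hermite p).map (Int.castRingHom ℝ)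

theorem law_exp_auxEval (p : ℕ) (x : ℝ) : Hp p x = (law_exp_auxP p).eval x := by
  unfold Hp law_exp_auxP
  rw [Polynomial.aeval_def, Polynomial.eval_map]
  rfl

theorem law_exp_auxMonic (p : ℕ) : (law_exp_auxP p).Monic :=
  (Polynomial.hermite_monic p).map _

theorem law_exp_auxDeg (p : ℕ) : (law_exp_auxP p).natDegree = p := by
  unfold law_exp_auxP
  rw [(Polynomial.hermite_monic p).natDegree_map, Polynomial.natDegree_hermite]

theorem law_exp_auxCont (p : ℕ) : Continuous (Hp p) := by
  have : Hp p = fun x => (law_exp_auxP p).eval x := by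
    funext x; exact law_exp_auxEval p x
  rw [this]
  exact Polynomial.continuous _

/-- growth bound away from a ball -/
theorem law_exp_auxBound (p : ℕ) (hp : 1 ≤ p) (ε : ℝ) (hε : 0 < ε) :
    ∃ R : ℝ, ∀ x : ℝ, R ≤ |x| → |Hp p x| ≤ (1 + ε) * |x| ^ p := by
  set P := law_exp_auxP p with hP
  set M : ℝ := ∑ i ∈ Finset.range p, |P.coeff i| with hM
  refine ⟨max 1 (M / ε), fun x hx => ?_⟩
  have hx1 : 1 ≤ |x| := le_trans (le_max_left _ _) hx
  have hx2 : M ≤ ε * |x| := by
    have := le_trans (le_max_right _ _) hx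
    rw [div_le_iff₀ hε] at this
    linarith
  have h1 : Hp p x = (∑ i ∈ Finset.range p, P.coeff i * x ^ i) + x ^ p := by
    rw [law_exp_auxEval, Polynomial.eval_eq_sum_range, law_exp_auxDeg, Finset.sum_range_succ]
    have h2 : P.coeff p = 1 := by
      have := law_exp_auxMonic p
      rw [Polynomial.Monic, Polynomial.leadingCoeff, law_exp_auxDeg] at this
      exact this
    rw [← hP, h2, one_mul]
  have h2 : |∑ i ∈ Finset.range p, P.coeff i * x ^ i| ≤ M * |x| ^ (p - 1) := by
    refine (Finset.abs_sum_le_sum_abs _ _).trans ?_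
    rw [hM, Finset.sum_mul]
    refine Finset.sum_le_sum fun i hi => ?_
    rw [abs_mul, abs_pow]
    refine mul_le_mul_of_nonneg_left ?_ (abs_nonneg _)
    exact pow_le_pow_right₀ hx1 (by have := Finset.mem_range.1 hi; omega)
  rw [h1]
  refine (abs_add_le _ _).trans ?_
  rw [abs_pow]
  have h3 : M * |x| ^ (p - 1) ≤ ε * |x| ^ p := by
    have h4 : |x| ^ p = |x| * |x| ^ (p - 1) := by
      rw [← pow_succ']
      congr 1
      omega
    rw [h4, ← mul_assoc]
    exact mul_le_mul_of_nonneg_right hx2 (by positivity)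
  linarith

theorem law_exp_auxBound2 (p : ℕ) (hp : 1 ≤ p) (ε : ℝ) (hε : 0 < ε) :
    ∃ C : ℝ, ∀ x : ℝ, |Hp p x| ^ ((2 : ℝ) / p) ≤ (1 + ε) ^ 2 * x ^ 2 + C := by
  obtain ⟨R, hR⟩ := law_exp_auxBound p hp ε hε
  have hp0 : (0 : ℝ) < p := by exact_mod_cast hp
  have hexp : (0 : ℝ) ≤ (2 : ℝ) / p := by positivity
  have hexp2 : (2 : ℝ) / p ≤ 2 := by
    rw [div_le_iff₀ hp0]
    have : (1 : ℝ) ≤ p := by exact_mod_cast hp
    linarith
  -- bound on the compact part
  have hcont : Continuous (fun x : ℝ => |Hp p x| ^ ((2 : ℝ) / p)) := by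
    exact ((law_exp_auxCont p).abs).rpow_const (fun x => Or.inr hexp)
  obtain ⟨B, hB⟩ := (isCompact_Icc (a := -|R|) (b := |R|)).bddAbove_image hcont.continuousOn
  refine ⟨max B 0, fun x => ?_⟩
  by_cases hx : R ≤ |x|
  · have h1 := hR x hx
    have h2 : |Hp p x| ^ ((2 : ℝ) / p) ≤ ((1 + ε) * |x| ^ p) ^ ((2 : ℝ) / p) :=
      Real.rpow_le_rpow (abs_nonneg _) h1 hexp
    have h3 : ((1 + ε) * |x| ^ p) ^ ((2 : ℝ) / p) = (1 + ε) ^ ((2 : ℝ) / p) * x ^ 2 := by
      rw [Real.mul_rpow (by positivity) (by positivity)]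
      congr 1
      rw [← Real.rpow_natCast, ← Real.rpow_mul (abs_nonneg _)]
      have : (p : ℝ) * (2 / p) = (2 : ℕ) := by
        field_simp
        norm_num
      rw [this, Real.rpow_natCast, sq_abs]
    have h4 : (1 + ε) ^ ((2 : ℝ) / p) ≤ (1 + ε) ^ 2 := by
      have := Real.rpow_le_rpow_of_exponent_le (x := 1 + ε) (by linarith) hexp2
      refine this.trans (le_of_eq ?_)
      norm_cast
    have h5 : (1 + ε) ^ ((2 : ℝ) / p) * x ^ 2 ≤ (1 + ε) ^ 2 * x ^ 2 :=
      mul_le_mul_of_nonneg_right h4 (by positivity)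
    have h6 : (0 : ℝ) ≤ max B 0 := le_max_right _ _
    linarith [h3 ▸ h2]
  · push Not at hx
    have hx' : x ∈ Set.Icc (-|R|) |R| := by
      have h1 : |x| ≤ |R| := hx.le.trans (le_abs_self R)
      exact abs_le.1 h1
    have h1 : |Hp p x| ^ ((2 : ℝ) / p) ≤ B := hB ⟨x, hx', rfl⟩
    have h2 : (0 : ℝ) ≤ (1 + ε) ^ 2 * x ^ 2 := by positivity
    have h3 : B ≤ max B 0 := le_max_left _ _
    linarith

theorem law_exp_auxGauss (b : ℝ) (hb : b < 1 / 2) :
    Integrable (fun x : ℝ => Real.exp (b * x ^ 2)) (gaussianReal 0 1) := by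
  rw [gaussianReal_of_var_ne_zero 0 (one_ne_zero)]
  rw [integrable_withDensity_iff_integrable_smul' (measurable_gaussianPDF 0 1)
    (by
      refine Eventually.of_forall fun x => ?_
      exact gaussianPDF_lt_top)]
  have h1 : (fun x : ℝ => (gaussianPDF 0 1 x).toReal • Real.exp (b * x ^ 2)) =
      fun x : ℝ => (√(2 * Real.pi * 1))⁻¹ * Real.exp (-(1 / 2 - b) * x ^ 2) := by
    funext x
    rw [toReal_gaussianPDF, gaussianPDFReal_def]
    simp only [smul_eq_mul, NNReal.coe_one]
    rw [mul_assoc, ← Real.exp_add]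
    congr 2
    ring
  rw [h1]
  exact (integrable_exp_neg_mul_sq (by linarith)).const_mul _

theorem law_exp (p : ℕ) (hp : 1 ≤ p) (c : ℝ) (hc : c < 1 / 2) :
    Integrable (fun y : ℝ => Real.exp (c * |y| ^ ((2 : ℝ) / p))) (law p) := by
  have hp0 : (0 : ℝ) < p := by exact_mod_cast hp
  have hexp : (0 : ℝ) ≤ (2 : ℝ) / p := by positivity
  have hcontg : Continuous (fun y : ℝ => Real.exp (c * |y| ^ ((2 : ℝ) / p))) :=
    Real.continuous_exp.comp
      (continuous_const.mul (continuous_abs.rpow_const (fun x => Or.inr hexp)))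
  unfold law
  rw [integrable_map_measure hcontg.aestronglyMeasurable (law_exp_auxCont p).aemeasurable]
  -- choose the constants
  have hkey : ∃ b C : ℝ, b < 1 / 2 ∧ ∀ x : ℝ, c * |Hp p x| ^ ((2 : ℝ) / p) ≤ b * x ^ 2 + C := by
    rcases le_or_gt c 0 with hc0 | hc0
    · refine ⟨0, 0, by norm_num, fun x => ?_⟩
      have : 0 ≤ |Hp p x| ^ ((2 : ℝ) / p) := by positivity
      nlinarith
    · -- choose eps
      have hcontε : ContinuousAt (fun ε : ℝ => c * (1 + ε) ^ 2) 0 := by fun_prop
      have hlt : (fun ε : ℝ => c * (1 + ε) ^ 2) 0 < 1 / 2 := by simpa using hc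
      have hev : ∀ᶠ ε in 𝓝 (0 : ℝ), c * (1 + ε) ^ 2 < 1 / 2 :=
        hcontε.eventually_lt continuousAt_const hlt
      obtain ⟨δ, hδ, hball⟩ := Metric.eventually_nhds_iff.1 hev
      have hε := hball (y := δ / 2) (by
        rw [Real.dist_eq, sub_zero, abs_of_pos (by linarith)]
        linarith)
      obtain ⟨C, hC⟩ := law_exp_auxBound2 p hp (δ / 2) (by linarith)
      refine ⟨c * (1 + δ / 2) ^ 2, c * C, hε, fun x => ?_⟩
      have := mul_le_mul_of_nonneg_left (hC x) hc0.le
      linarith
  obtain ⟨b, C, hb, hbound⟩ := hkey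
  refine ((law_exp_auxGauss b hb).mul_const (Real.exp C)).mono'
    ((hcontg.comp (law_exp_auxCont p)).aestronglyMeasurable) ?_
  refine Eventually.of_forall fun x => ?_
  simp only [Function.comp_apply]
  rw [Real.norm_eq_abs, abs_of_pos (Real.exp_pos _), ← Real.exp_add]
  exact Real.exp_le_exp.2 (hbound x)

/-- the Gaussian measure is positive on nonempty open sets -/
theorem law_support_auxPos (U : Set ℝ) (hU : IsOpen U) (hne : U.Nonempty) :
    0 < gaussianReal 0 1 U := by
  have hac := gaussianReal_absolutelyContinuous' 0 (v := 1) one_ne_zero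
  rw [pos_iff_ne_zero]
  intro h0
  have := hac h0
  exact (hU.measure_pos volume hne).ne' this

theorem law_support_auxClosure (p : ℕ) (hcl : IsClosed (Set.range (Hp p))) :
    (law p).support = Set.range (Hp p) := by
  have hcont := law_exp_auxCont p
  apply Set.Subset.antisymm
  · apply Measure.support_subset_of_isClosed hcl
    rw [mem_ae_iff]
    unfold law
    rw [Measure.map_apply hcont.measurable hcl.isOpen_compl.measurableSet]
    have : Hp p ⁻¹' (Set.range (Hp p))ᶜ = ∅ := by
      ext x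
      simp
    rw [this, measure_empty]
  · rintro y ⟨x, rfl⟩
    rw [Measure.mem_support_iff_forall]
    intro U hU
    obtain ⟨V, hVU, hVo, hxV⟩ := mem_nhds_iff.1 hU
    refine lt_of_lt_of_le ?_ (measure_mono hVU)
    unfold law
    rw [Measure.map_apply hcont.measurable hVo.measurableSet]
    exact law_support_auxPos _ (hVo.preimage hcont) ⟨x, hxV⟩

theorem law_support (p : ℕ) (hp : 1 ≤ p) :
    (law p).support = Set.univ ∨ ∃ a, (law p).support = Set.Ici a := by
  have hcont := law_exp_auxCont p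
  set P := law_exp_auxP p with hP
  have hdeg : 0 < P.degree := by
    rw [← Polynomial.natDegree_pos_iff_degree_pos, hP, law_exp_auxDeg]
    omega
  have hfun : Hp p = fun x => P.eval x := by
    funext x; exact law_exp_auxEval p x
  have htop : Tendsto (Hp p) atTop atTop := by
    rw [hfun]
    refine P.tendsto_atTop_of_leadingCoeff_nonneg hdeg ?_
    rw [(law_exp_auxMonic p).leadingCoeff]
    norm_num
  have hQdeg : 0 < (P.comp (-Polynomial.X)).degree := by simp [hdeg]
  rcases le_total 0 (P.comp (-Polynomial.X)).leadingCoeff with h | h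
  · right
    have h1 := (P.comp (-Polynomial.X)).tendsto_atTop_of_leadingCoeff_nonneg hQdeg h
    have hbot : Tendsto (Hp p) atBot atTop := by
      have h2 := h1.comp tendsto_neg_atBot_atTop
      refine h2.congr fun x => ?_
      simp [hfun]
    have hcc : Tendsto (Hp p) (cocompact ℝ) atTop := by
      rw [cocompact_eq_atBot_atTop]
      exact hbot.sup htop
    obtain ⟨x0, hx0⟩ := hcont.exists_forall_le hcc
    have hrange : Set.range (Hp p) = Set.Ici (Hp p x0) := by
      apply Set.Subset.antisymm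
      · rintro y ⟨x, rfl⟩
        exact hx0 x
      · intro y hy
        exact mem_range_of_exists_le_of_exists_ge hcont ⟨x0, hy⟩
          (htop.eventually (eventually_ge_atTop y)).exists
    refine ⟨Hp p x0, ?_⟩
    rw [law_support_auxClosure p (by rw [hrange]; exact isClosed_Ici), hrange]
  · left
    have h1 := (P.comp (-Polynomial.X)).tendsto_atBot_of_leadingCoeff_nonpos hQdeg h
    have hbot : Tendsto (Hp p) atBot atBot := by
      have h2 := h1.comp tendsto_neg_atBot_atTop
      refine h2.congr fun x => ?_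
      simp [hfun]
    have hsurj := hcont.surjective htop hbot
    rw [law_support_auxClosure p (by rw [hsurj.range_eq]; exact isClosed_univ), hsurj.range_eq]

end Pool.Agent.H288.ST.J4
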