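import Mathlib

set_option autoImplicit false

open Filter Topology Set

/-! JOB for MP_0c6895_pr (owner helper288), J6 uniqueness for a scalar linear ODE of order M. Only Mathlib is needed. One TARGET theorem.

PROOF. Put v(t) = (iteratedDeriv j h t)_{j < M} : Fin M -> ℂ; v is differentiable with v' = A(t) v, A continuous on D (companion matrix), v(t₀) = 0.
For t in D the segment between t₀ and t is compact in D, so the operator norm of A is bounded by K there; Grönwall / uniqueness
(ODE_solution_unique_of_mem_Icc and its left version, or norm_le_gronwallBound_of_norm_deriv_right_le applied forward and, after t -> -t, backward)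
gives v = 0 on the segment. So h t = 0 (if M = 0, the equation itself says h = 0). -/

namespace Pool.Agent.H288.ST.J6

theorem ode_unique (M : ℕ) (a : ℕ → ℝ → ℂ) (D : Set ℝ) (hD : IsOpen D) (hD' : D.OrdConnected)
    (ha : ∀ j < M, ContinuousOn (a j) D) (h : ℝ → ℂ) (hh : ∀ n : ℕ, ContDiff ℝ n h)
    (hode : ∀ t ∈ D, iteratedDeriv M h t = ∑ j ∈ Finset.range M, a j t * iteratedDeriv j h t)
    (t₀ : ℝ) (ht₀ : t₀ ∈ D) (h0 : ∀ j < M, iteratedDeriv j h t₀ = 0) :
    ∀ t ∈ D, h t = 0 := by
  intro t ht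
  rcases Nat.eq_zero_or_pos M with rfl | hM
  · have := hode t ht
    simpa using this
  -- an open interval around `t₀`, `t` whose closure lies in `D`
  obtain ⟨p, q, hpq, hp0, hpt, h0q, htq⟩ : ∃ p q : ℝ, Icc p q ⊆ D ∧ p < t₀ ∧ p < t ∧ t₀ < q ∧ t < q := by
    have hmin : min t₀ t ∈ D := by
      rcases min_choice t₀ t with e | e <;> rw [e] <;> assumption
    have hmax : max t₀ t ∈ D := by
      rcases max_choice t₀ t with e | e <;> rw [e] <;> assumption
    obtain ⟨ε₁, hε₁, h1⟩ := Metric.isOpen_iff.mp hD _ hmin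
    obtain ⟨ε₂, hε₂, h2⟩ := Metric.isOpen_iff.mp hD _ hmax
    have h3 : min t₀ t - ε₁ / 2 ∈ D := h1 (by
      rw [Metric.mem_ball, Real.dist_eq]
      rw [show min t₀ t - ε₁ / 2 - min t₀ t = -(ε₁ / 2) by ring, abs_neg, abs_of_pos (by positivity)]
      linarith)
    have h4 : max t₀ t + ε₂ / 2 ∈ D := h2 (by
      rw [Metric.mem_ball, Real.dist_eq]
      rw [show max t₀ t + ε₂ / 2 - max t₀ t = (ε₂ / 2) by ring, abs_of_pos (by positivity)]
      linarith)
    refine ⟨min t₀ t - ε₁ / 2, max t₀ t + ε₂ / 2, hD'.out h3 h4, ?_, ?_, ?_, ?_⟩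
    · have := min_le_left t₀ t; linarith
    · have := min_le_right t₀ t; linarith
    · have := le_max_left t₀ t; linarith
    · have := le_max_right t₀ t; linarith
  -- bounds for the coefficients
  have hb : ∀ j : ℕ, ∃ C : ℝ, 0 ≤ C ∧ (j < M → ∀ s ∈ Icc p q, ‖a j s‖ ≤ C) := by
    intro j
    by_cases hj : j < M
    · obtain ⟨C, hC⟩ := isCompact_Icc.exists_bound_of_continuousOn ((ha j hj).mono hpq)
      exact ⟨max C 0, le_max_right _ _, fun _ s hs => (hC s hs).trans (le_max_left _ _)⟩
    · exact ⟨0, le_rfl, fun h => absurd h hj⟩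
  choose C hC0 hC using hb
  let K : NNReal := ⟨1 + ∑ j : Fin M, C j, by
    have : 0 ≤ ∑ j : Fin M, C j := Finset.sum_nonneg (fun j _ => hC0 j)
    linarith⟩
  have hKv : (K : ℝ) = 1 + ∑ j : Fin M, C j := rfl
  have hSn : 0 ≤ ∑ j : Fin M, C j := Finset.sum_nonneg (fun j _ => hC0 j)
  let v : ℝ → (Fin M → ℂ) → (Fin M → ℂ) := fun s x i =>
    if hi : (i : ℕ) + 1 < M then x ⟨(i : ℕ) + 1, hi⟩ else ∑ j : Fin M, a j s * x j
  let f : ℝ → (Fin M → ℂ) := fun s i => iteratedDeriv i h s
  have hlip : ∀ s ∈ Ioo p q, LipschitzOnWith K (v s) univ := by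
    intro s hs
    rw [lipschitzOnWith_univ]
    refine LipschitzWith.of_dist_le_mul (fun x y => ?_)
    rw [dist_pi_le_iff (by positivity)]
    intro i
    by_cases hi : (i : ℕ) + 1 < M
    · simp only [v, hi, dif_pos]
      calc dist (x ⟨(i : ℕ) + 1, hi⟩) (y ⟨(i : ℕ) + 1, hi⟩) ≤ dist x y := dist_le_pi_dist x y _
        _ = 1 * dist x y := (one_mul _).symm
        _ ≤ K * dist x y := by
          apply mul_le_mul_of_nonneg_right _ dist_nonneg
          rw [hKv]; linarith
    · simp only [v, hi, dif_neg, not_false_eq_true]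
      rw [dist_eq_norm, ← Finset.sum_sub_distrib]
      calc ‖∑ j : Fin M, (a j s * x j - a j s * y j)‖
          ≤ ∑ j : Fin M, ‖a j s * x j - a j s * y j‖ := norm_sum_le _ _
        _ ≤ ∑ j : Fin M, C j * dist x y := by
          apply Finset.sum_le_sum
          intro j _
          rw [← mul_sub, norm_mul]
          have h1 := hC j j.2 s (Ioo_subset_Icc_self hs)
          have h2 : ‖x j - y j‖ ≤ dist x y := by
            rw [← dist_eq_norm]; exact dist_le_pi_dist x y j
          exact mul_le_mul h1 h2 (norm_nonneg _) (hC0 j)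
        _ = (∑ j : Fin M, C j) * dist x y := by rw [Finset.sum_mul]
        _ ≤ K * dist x y := by
          apply mul_le_mul_of_nonneg_right _ dist_nonneg
          rw [hKv]; linarith
  have hfd : ∀ s ∈ Ioo p q, HasDerivAt f (v s (f s)) s ∧ f s ∈ (univ : Set (Fin M → ℂ)) := by
    intro s hs
    refine ⟨?_, mem_univ _⟩
    rw [hasDerivAt_pi]
    intro i
    have h1 : HasDerivAt (fun s => iteratedDeriv (i : ℕ) h s) (iteratedDeriv ((i : ℕ) + 1) h s) s := by
      have hd : Differentiable ℝ (iteratedDeriv (i : ℕ) h) :=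
        (hh ((i : ℕ) + 1)).differentiable_iteratedDeriv (i : ℕ) (by exact_mod_cast Nat.lt_succ_self _)
      have := (hd s).hasDerivAt
      rw [← iteratedDeriv_succ] at this
      exact this
    by_cases hi : (i : ℕ) + 1 < M
    · simp only [v, f, hi, dif_pos]
      exact h1
    · simp only [v, f, hi, dif_neg, not_false_eq_true]
      have hiM : (i : ℕ) + 1 = M := by have := i.2; omega
      have h2 := hode s (hpq (Ioo_subset_Icc_self hs))
      rw [← Fin.sum_univ_eq_sum_range (fun j => a j s * iteratedDeriv j h s)] at h2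
      rw [← h2]
      have h3 : iteratedDeriv M h s = iteratedDeriv ((i : ℕ) + 1) h s := by rw [hiM]
      rw [h3]
      exact h1
  have hgd : ∀ s ∈ Ioo p q, HasDerivAt (fun _ => (0 : Fin M → ℂ)) (v s ((fun _ => (0 : Fin M → ℂ)) s)) s ∧
      (fun _ => (0 : Fin M → ℂ)) s ∈ (univ : Set (Fin M → ℂ)) := by
    intro s hs
    refine ⟨?_, mem_univ _⟩
    have : v s 0 = 0 := by
      ext i
      by_cases hi : (i : ℕ) + 1 < M
      · simp [v, hi]
      · simp [v, hi]
    show HasDerivAt (fun _ => (0 : Fin M → ℂ)) (v s 0) s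
    rw [this]
    exact hasDerivAt_const s _
  have heq := ODE_solution_unique_of_mem_Ioo hlip ⟨hp0, h0q⟩ hfd hgd (by
    ext i
    simp only [f]
    rw [h0 i i.2]
    rfl)
  have := congrFun (heq ⟨hpt, htq⟩) ⟨0, hM⟩
  simpa [f] using this

end Pool.Agent.H288.ST.J6
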