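import Mathlib

set_option autoImplicit false

open Filter Topology

namespace Pool.Agent.H288.ST.J7

/-- the iterates of `f ↦ t f'(t)` -/
noncomputable def th : ℕ → (ℝ → ℂ) → ℝ → ℂ
  | 0, f => f
  | j + 1, f => fun t => (t : ℂ) * deriv (th j f) t

/-- smoothness -/
def Sm (f : ℝ → ℂ) : Prop := ∀ n : ℕ, ContDiff ℝ n f

lemma Sm.deriv' {f : ℝ → ℂ} (hf : Sm f) : Sm (deriv f) := fun n => by
  have h := hf (n+1)
  rw [show ((n + 1 : ℕ) : WithTop ℕ∞) = (n : WithTop ℕ∞) + 1 by push_cast; rfl] at h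
  exact (contDiff_succ_iff_deriv.1 h).2.2

lemma Sm.theta {f : ℝ → ℂ} (hf : Sm f) : Sm (fun t => (t:ℂ) * deriv f t) := fun n =>
  (Complex.ofRealCLM.contDiff).mul (hf.deriv' n)

lemma Sm.th {f : ℝ → ℂ} (hf : Sm f) (j : ℕ) : Sm (th j f) := by
  induction j with
  | zero => exact hf
  | succ j ih => exact ih.theta

lemma Sm.hasDerivAt {f : ℝ → ℂ} (hf : Sm f) (i : ℕ) (t : ℝ) :
    HasDerivAt (iteratedDeriv i f) (iteratedDeriv (i+1) f t) t := by
  rw [iteratedDeriv_succ]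
  have h := hf (i+1)
  rw [show ((i + 1 : ℕ) : WithTop ℕ∞) = (i : WithTop ℕ∞) + 1 by push_cast; rfl] at h
  exact (h.differentiable_iteratedDeriv' i).differentiableAt.hasDerivAt

lemma iter_theta {f : ℝ → ℂ} (hf : Sm f) (i : ℕ) :
    iteratedDeriv i (fun t : ℝ => (t:ℂ) * deriv f t) =
      fun t : ℝ => (t:ℂ) * iteratedDeriv (i+1) f t + i * iteratedDeriv i f t := by
  induction i with
  | zero => ext t; simp [iteratedDeriv_one]
  | succ i ih =>
    rw [iteratedDeriv_succ, ih]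
    ext t
    have h1 : HasDerivAt (fun t : ℝ => (t:ℂ)) 1 t := Complex.ofRealCLM.hasDerivAt
    have h2 := hf.hasDerivAt (i+1) t
    have h3 := hf.hasDerivAt i t
    have h4 := (h1.mul h2).add (h3.const_mul (i:ℂ))
    have h5 : deriv (fun t : ℝ => (t:ℂ) * iteratedDeriv (i+1) f t + i * iteratedDeriv i f t) t =
      1 * iteratedDeriv (i+1) f t + (t:ℂ) * iteratedDeriv (i+1+1) f t +
        i * iteratedDeriv (i+1) f t := h4.deriv
    rw [h5]
    push_cast; ring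

lemma iter_th_zero {f : ℝ → ℂ} (hf : Sm f) (i j : ℕ) :
    iteratedDeriv i (th j f) 0 = (i:ℂ)^j * iteratedDeriv i f 0 := by
  induction j with
  | zero => simp [J7.th]
  | succ j ih =>
    have h := congrFun (iter_theta (hf.th j) i) 0
    change iteratedDeriv i (fun t : ℝ => (t:ℂ) * deriv (J7.th j f) t) 0 = _
    rw [h]
    simp only [Complex.ofReal_zero, zero_mul, zero_add]
    rw [ih]; ring

lemma tend_div {f : ℝ → ℂ} (hf : Sm f) (n : ℕ) (h0 : ∀ i < n, iteratedDeriv i f 0 = 0) :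
    Tendsto (fun t : ℝ => f t / (t:ℂ)^n) (𝓝[>] 0) (𝓝 (iteratedDeriv n f 0 / (n.factorial : ℂ))) := by
  have h1 := taylor_tendsto (f := f) (x₀ := 0) (n := n) (s := Set.univ) convex_univ
    (Set.mem_univ _) (hf n).contDiffOn
  rw [nhdsWithin_univ] at h1
  have h2 := h1.mono_left (nhdsWithin_le_nhds (a := (0:ℝ)) (s := Set.Ioi 0))
  have h3 : Tendsto (fun t : ℝ => (((t - 0)^n)⁻¹ • (f t - taylorWithinEval f n Set.univ 0 t)) +
      iteratedDeriv n f 0 / (n.factorial : ℂ)) (𝓝[>] 0)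
      (𝓝 (0 + iteratedDeriv n f 0 / (n.factorial : ℂ))) := h2.add_const _
  rw [zero_add] at h3
  refine h3.congr' ?_
  filter_upwards [self_mem_nhdsWithin] with t ht
  have ht' : (t:ℂ) ≠ 0 := by
    have : (0:ℝ) < t := ht
    exact_mod_cast this.ne'
  rw [taylor_within_apply, Finset.sum_range_succ, Finset.sum_eq_zero]
  · rw [iteratedDerivWithin_univ, sub_zero, zero_add, Complex.real_smul, Complex.real_smul]
    push_cast
    have hf0 : (n.factorial : ℂ) ≠ 0 := by exact_mod_cast n.factorial_ne_zero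
    field_simp
    ring
  · intro i hi
    rw [iteratedDerivWithin_univ, h0 i (Finset.mem_range.1 hi), smul_zero]

theorem flat (r q : ℕ) (hr : 2 ≤ r) (hq : 1 ≤ q) (g : ℕ → ℝ → ℂ) (gl : ℕ → ℂ)
    (hgl : ∀ j < r, Tendsto (g j) (𝓝[>] 0) (𝓝 (gl j))) (hg1 : gl 1 ≠ 0)
    (φ h : ℝ → ℂ) (hφ : ∀ n : ℕ, ContDiff ℝ n φ) (hh : ∀ n : ℕ, ContDiff ℝ n h)
    (hφ0 : φ 0 = 1) (hh0 : h 0 = 0)
    (hφr : ∀ᶠ τ : ℝ in 𝓝[>] 0, (τ : ℂ) ^ (2 * r) * th r φ (τ ^ q) =
      ∑ j ∈ Finset.range r, g j τ * (τ : ℂ) ^ (2 * j) * th j φ (τ ^ q))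
    (hhr : ∀ᶠ τ : ℝ in 𝓝[>] 0, (τ : ℂ) ^ (2 * r) * th r h (τ ^ q) =
      ∑ j ∈ Finset.range r, g j τ * (τ : ℂ) ^ (2 * j) * th j h (τ ^ q)) :
    ∀ n : ℕ, iteratedDeriv n h 0 = 0 := by
  obtain ⟨s, rfl⟩ : ∃ s, r = s + 2 := ⟨r - 2, by omega⟩
  -- the substitution t = τ^q
  have hq0 : q ≠ 0 := by omega
  have hpow : Tendsto (fun τ : ℝ => τ ^ q) (𝓝[>] 0) (𝓝[>] 0) := by
    refine tendsto_nhdsWithin_iff.2 ⟨?_, ?_⟩
    · have : Tendsto (fun τ : ℝ => τ ^ q) (𝓝 0) (𝓝 (0 ^ q)) := (continuous_pow q).tendsto 0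
      rw [zero_pow hq0] at this
      exact this.mono_left nhdsWithin_le_nhds
    · filter_upwards [self_mem_nhdsWithin] with τ hτ
      exact pow_pos (show (0:ℝ) < τ from hτ) q
  have hτc : ∀ k : ℕ, Tendsto (fun τ : ℝ => (τ:ℂ) ^ (k+1)) (𝓝[>] 0) (𝓝 0) := by
    intro k
    have h1 : Tendsto (fun τ : ℝ => (τ:ℂ) ^ (k+1)) (𝓝 0) (𝓝 (((0:ℝ):ℂ) ^ (k+1))) :=
      ((Complex.continuous_ofReal).pow (k+1)).tendsto 0
    rw [Complex.ofReal_zero, zero_pow (Nat.succ_ne_zero k)] at h1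
    exact h1.mono_left nhdsWithin_le_nhds
  have sφ : Sm φ := hφ
  have sh : Sm h := hh
  -- (1) g 0 / τ^2 → 0
  have hcont : ∀ j : ℕ, Tendsto (fun τ : ℝ => th j φ (τ ^ q)) (𝓝[>] 0) (𝓝 (th j φ 0)) := by
    intro j
    have h1 : Tendsto (th j φ) (𝓝 0) (𝓝 (th j φ 0)) := ((sφ.th j) 0).continuous.tendsto 0
    exact (h1.mono_left nhdsWithin_le_nhds).comp hpow
  have hz : ∀ j : ℕ, th (j+1) φ 0 = 0 := by
    intro j
    simp [J7.th]
  have key1 : Tendsto (fun τ : ℝ => g 0 τ / (τ:ℂ)^2 * φ (τ ^ q)) (𝓝[>] 0) (𝓝 0) := by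
    have e1 : Tendsto (fun τ : ℝ => (τ:ℂ)^(2*s+1+1) * th (s+2) φ (τ^q)
        - ∑ j ∈ Finset.range s, g (j+2) τ * (τ:ℂ)^(2*j+1+1) * th (j+2) φ (τ^q)
        - g 1 τ * th 1 φ (τ^q)) (𝓝[>] 0) (𝓝 (0 * th (s+2) φ 0
          - ∑ j ∈ Finset.range s, gl (j+2) * 0 * th (j+2) φ 0 - gl 1 * th 1 φ 0)) := by
      refine (((hτc _).mul (hcont _)).sub (tendsto_finsetSum _ ?_)).sub
        ((hgl 1 (by omega)).mul (hcont 1))
      intro j hj
      exact ((hgl (j+2) (by have := Finset.mem_range.1 hj; omega)).mul (hτc _)).mul (hcont _)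
    have e2 : (0 * th (s+2) φ 0
          - ∑ j ∈ Finset.range s, gl (j+2) * 0 * th (j+2) φ 0 - gl 1 * th 1 φ 0) = 0 := by
      rw [hz 0]; simp
    rw [e2] at e1
    refine e1.congr' ?_
    filter_upwards [hφr, self_mem_nhdsWithin] with τ h1 h2
    have hτ0 : (τ:ℂ) ≠ 0 := by
      have : (0:ℝ) < τ := h2
      exact_mod_cast this.ne'
    rw [Finset.sum_range_succ', Finset.sum_range_succ'] at h1
    simp only [zero_add, Nat.mul_zero, pow_zero, mul_one] at h1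
    have h3 : g 0 τ * φ (τ^q) = (τ : ℂ) ^ (2 * (s+2)) * th (s+2) φ (τ ^ q)
       - ∑ j ∈ Finset.range s, g (j+1+1) τ * (τ : ℂ) ^ (2 * (j+1+1)) * th (j+1+1) φ (τ ^ q)
       - g 1 τ * (τ:ℂ)^2 * th 1 φ (τ^q) := by
      rw [h1]
      simp only [J7.th]
      ring
    have h4 : g 0 τ / (τ:ℂ)^2 * φ (τ ^ q) = (g 0 τ * φ (τ^q)) / (τ:ℂ)^2 := by ring
    rw [h4, h3, sub_div, sub_div, Finset.sum_div]
    congr 1
    · congr 1
      · rw [show 2 * (s+2) = (2*s+1+1) + 2 by ring, pow_add]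
        field_simp
        ring
      · apply Finset.sum_congr rfl
        intro j _
        rw [show 2 * (j+1+1) = (2*j+1+1) + 2 by ring, pow_add]
        field_simp
        ring
    · field_simp
  have key2 : Tendsto (fun τ : ℝ => g 0 τ / (τ:ℂ)^2) (𝓝[>] 0) (𝓝 0) := by
    have e1 : Tendsto (fun τ : ℝ => φ (τ ^ q)) (𝓝[>] 0) (𝓝 1) := by
      have := hcont 0
      simp only [J7.th] at this
      rwa [hφ0] at this
    have e2 := key1.div e1 one_ne_zero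
    rw [zero_div] at e2
    refine e2.congr' ?_
    have e3 : ∀ᶠ τ : ℝ in 𝓝[>] 0, φ (τ ^ q) ≠ 0 := e1.eventually_ne one_ne_zero
    filter_upwards [e3] with τ h1
    simp only [Pi.div_apply]
    field_simp
  -- (2) induction
  intro n
  induction n using Nat.strong_induction_on with
  | _ n ih =>
    rcases Nat.eq_zero_or_pos n with rfl | hn
    · simpa using hh0
    set c : ℂ := iteratedDeriv n h 0 / (n.factorial : ℂ) with hc
    have hu : ∀ j : ℕ, Tendsto (fun τ : ℝ => th j h (τ ^ q) / (((τ ^ q : ℝ)) : ℂ) ^ n) (𝓝[>] 0)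
        (𝓝 ((n:ℂ)^j * c)) := by
      intro j
      have h1 := tend_div (sh.th j) n (by
        intro i hi
        rw [iter_th_zero sh, ih i hi, mul_zero])
      rw [iter_th_zero sh, mul_div_assoc] at h1
      exact h1.comp hpow
    have e1 : Tendsto (fun τ : ℝ => (τ:ℂ)^(2*s+1+1) * (th (s+2) h (τ ^ q) / (((τ ^ q : ℝ)) : ℂ) ^ n)
        - ∑ j ∈ Finset.range s, g (j+2) τ * (τ:ℂ)^(2*j+1+1) *
            (th (j+2) h (τ ^ q) / (((τ ^ q : ℝ)) : ℂ) ^ n)
        - g 0 τ / (τ:ℂ)^2 * (th 0 h (τ ^ q) / (((τ ^ q : ℝ)) : ℂ) ^ n)) (𝓝[>] 0)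
        (𝓝 (0 * ((n:ℂ)^(s+2) * c)
          - ∑ j ∈ Finset.range s, gl (j+2) * 0 * ((n:ℂ)^(j+2) * c) - 0 * ((n:ℂ)^0 * c))) := by
      refine (((hτc _).mul (hu _)).sub (tendsto_finsetSum _ ?_)).sub (key2.mul (hu 0))
      intro j hj
      exact ((hgl (j+2) (by have := Finset.mem_range.1 hj; omega)).mul (hτc _)).mul (hu _)
    have e2 : (0 * ((n:ℂ)^(s+2) * c)
          - ∑ j ∈ Finset.range s, gl (j+2) * 0 * ((n:ℂ)^(j+2) * c) - 0 * ((n:ℂ)^0 * c)) = 0 := by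
      simp
    rw [e2] at e1
    have e3 : Tendsto (fun τ : ℝ => g 1 τ * (th 1 h (τ ^ q) / (((τ ^ q : ℝ)) : ℂ) ^ n)) (𝓝[>] 0)
        (𝓝 (gl 1 * ((n:ℂ)^1 * c))) := (hgl 1 (by omega)).mul (hu 1)
    have e4 : Tendsto (fun τ : ℝ => g 1 τ * (th 1 h (τ ^ q) / (((τ ^ q : ℝ)) : ℂ) ^ n)) (𝓝[>] 0)
        (𝓝 0) := by
      refine e1.congr' ?_
      filter_upwards [hhr, self_mem_nhdsWithin] with τ h1 h2
      have hτ0 : (τ:ℂ) ≠ 0 := by
        have : (0:ℝ) < τ := h2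
        exact_mod_cast this.ne'
      have hT : (((τ ^ q : ℝ)) : ℂ) ^ n ≠ 0 := by
        push_cast
        exact pow_ne_zero _ (pow_ne_zero _ hτ0)
      rw [Finset.sum_range_succ', Finset.sum_range_succ'] at h1
      simp only [zero_add, Nat.mul_zero, pow_zero, mul_one] at h1
      generalize (((τ ^ q : ℝ)) : ℂ) ^ n = T at hT ⊢
      have h3 : g 1 τ * (τ:ℂ)^2 * th 1 h (τ^q) = (τ : ℂ) ^ (2 * (s+2)) * th (s+2) h (τ ^ q)
         - ∑ j ∈ Finset.range s, g (j+1+1) τ * (τ : ℂ) ^ (2 * (j+1+1)) * th (j+1+1) h (τ ^ q)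
         - g 0 τ * th 0 h (τ^q) := by
        rw [h1]
        simp only [J7.th]
        ring
      have h4 : g 1 τ * (th 1 h (τ ^ q) / T) = (g 1 τ * (τ:ℂ)^2 * th 1 h (τ^q)) / ((τ:ℂ)^2 * T) := by
        field_simp
      rw [h4, h3, sub_div, sub_div, Finset.sum_div]
      congr 1
      · congr 1
        · rw [show 2 * (s+2) = (2*s+1+1) + 2 by ring, pow_add]
          field_simp
          ring
        · apply Finset.sum_congr rfl
          intro j _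
          rw [show 2 * (j+1+1) = (2*j+1+1) + 2 by ring, pow_add]
          field_simp
          ring
      · field_simp
    have e5 := tendsto_nhds_unique e3 e4
    have hn0 : (n:ℂ) ≠ 0 := by exact_mod_cast hn.ne'
    have e6 : c = 0 := by
      rcases mul_eq_zero.1 e5 with h1 | h1
      · exact absurd h1 hg1
      · rcases mul_eq_zero.1 h1 with h2 | h2
        · rw [pow_one] at h2; exact absurd h2 hn0
        · exact h2
    have hf0 : (n.factorial : ℂ) ≠ 0 := by exact_mod_cast n.factorial_ne_zero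
    rcases div_eq_zero_iff.1 (hc ▸ e6) with h1 | h1
    · exact h1
    · exact absurd h1 hf0

end Pool.Agent.H288.ST.J7
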