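import Mathlib

set_option autoImplicit false

namespace Pool.Agent.H288.ST.K2

/-- the construction for given `d`, `e`, `m` -/
theorem roots_aux (p d e m : ℕ) (hde : d * e = 2) (he : e = 1 ∨ e = 2) (hm : 1 ≤ m)
    (hp : p = d * m + 2) (hcop : Nat.Coprime e m) :
    ∃ z : Fin (m + 1) → ℂ,
      (∀ i, Complex.I * (p : ℂ) * z i ^ (m + 1) = z i) ∧
      Function.Injective (fun i => z i ^ e / (p : ℂ)) ∧
      (∀ i, (z i ^ e / (p : ℂ)).re < (p : ℝ) ^ (-(p : ℝ) / ((p : ℝ) - 2))) ∧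
      ∃ Q : ℂ, Q ≠ 0 ∧ ∀ i, (z i ^ e / (p : ℂ)) ^ (m + 1) = Q * (z i ^ e / (p : ℂ)) := by
  have hp0 : 0 < p := by omega
  have hpR : (0 : ℝ) < p := by exact_mod_cast hp0
  have hpC : (p : ℂ) ≠ 0 := by exact_mod_cast hp0.ne'
  have hIp : Complex.I * (p : ℂ) ≠ 0 := mul_ne_zero Complex.I_ne_zero hpC
  have he1 : e ≠ 0 := by rcases he with h | h <;> omega
  have hm0 : m ≠ 0 := by omega
  obtain ⟨w, hw⟩ := IsAlgClosed.exists_pow_nat_eq ((Complex.I * (p : ℂ))⁻¹) (Nat.pos_of_ne_zero hm0)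
  have hw0 : w ≠ 0 := by
    rintro rfl
    rw [zero_pow hm0] at hw
    exact inv_ne_zero hIp hw.symm
  set ζ := Complex.exp (2 * Real.pi * Complex.I / m) with hζ
  have hprim : IsPrimitiveRoot ζ m := Complex.isPrimitiveRoot_exp m hm0
  have hprim' : IsPrimitiveRoot (ζ ^ e) m := hprim.pow_of_coprime e hcop
  have hζ0 : ζ ≠ 0 := Complex.exp_ne_zero _
  set Q : ℂ := ((Complex.I * (p : ℂ))⁻¹) ^ e / (p : ℂ) ^ m with hQ
  have hQ0 : Q ≠ 0 := div_ne_zero (pow_ne_zero _ (inv_ne_zero hIp)) (pow_ne_zero _ hpC)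
  have hQre : Q.re ≤ 0 := by
    rcases he with h | h
    · have : Q = ((-((p : ℝ) ^ (m + 1))⁻¹ : ℝ) : ℂ) * Complex.I := by
        rw [hQ, h, pow_one]
        push_cast
        rw [mul_inv, Complex.inv_I, pow_succ]
        field_simp
      rw [this, Complex.re_ofReal_mul, Complex.I_re, mul_zero]
    · have : Q = ((-((p : ℝ) ^ (m + 2))⁻¹ : ℝ) : ℂ) := by
        rw [hQ, h]
        push_cast
        rw [mul_inv, mul_pow, Complex.inv_I, neg_sq, Complex.I_sq, pow_add]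
        field_simp
      rw [this, Complex.ofReal_re]
      have : 0 < ((p : ℝ) ^ (m + 2))⁻¹ := by positivity
      linarith
  -- the nonzero roots
  have key : ∀ z : ℂ, z ^ m = (Complex.I * (p : ℂ))⁻¹ → (z ^ e / (p : ℂ)) ^ m = Q := by
    intro z hz
    rw [div_pow, ← pow_mul, mul_comm e m, pow_mul, hz]
  have hB : ((p : ℝ) ^ (-(p : ℝ) / ((p : ℝ) - 2))) ^ m = ((p : ℝ) ^ (e + m))⁻¹ := by
    have h1 : -(p : ℝ) / ((p : ℝ) - 2) * m = -((e + m : ℕ) : ℝ) := by
      have hd : (d : ℝ) * e = 2 := by exact_mod_cast hde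
      have hp' : (p : ℝ) = d * m + 2 := by exact_mod_cast hp
      have hd0 : (d : ℝ) ≠ 0 := by
        intro h; rw [h, zero_mul] at hd; norm_num at hd
      have hmR : (m : ℝ) ≠ 0 := by exact_mod_cast hm0
      rw [hp']
      push_cast
      rw [show (d : ℝ) * m + 2 - 2 = d * m by ring, ← hd]
      field_simp
      ring
    rw [← Real.rpow_natCast, ← Real.rpow_mul hpR.le, h1, Real.rpow_neg hpR.le,
      Real.rpow_natCast]
  have hBpos : 0 < (p : ℝ) ^ (-(p : ℝ) / ((p : ℝ) - 2)) := Real.rpow_pos_of_pos hpR _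
  have hQn : ‖Q‖ = ((p : ℝ) ^ (e + m))⁻¹ := by
    rw [hQ, norm_div, norm_pow, norm_inv, norm_mul, Complex.norm_I, one_mul, norm_pow,
      Complex.norm_natCast, pow_add, mul_inv, inv_pow]
    rfl
  have hre : ∀ x : ℂ, x ^ m = Q → x.re < (p : ℝ) ^ (-(p : ℝ) / ((p : ℝ) - 2)) := by
    intro x hx
    have h1 : ‖x‖ = (p : ℝ) ^ (-(p : ℝ) / ((p : ℝ) - 2)) := by
      have h2 : ‖x‖ ^ m = ((p : ℝ) ^ (-(p : ℝ) / ((p : ℝ) - 2))) ^ m := by
        rw [hB, ← norm_pow, hx, hQn]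
      exact (pow_left_inj₀ (norm_nonneg x) hBpos.le hm0).1 h2
    rcases lt_or_eq_of_le (Complex.re_le_norm x) with h2 | h2
    · rw [← h1]; exact h2
    · exfalso
      have h3 : x.im = 0 := by
        have h4 := Complex.sq_norm x
        rw [Complex.normSq_apply, ← h2] at h4
        have h5 : x.im * x.im = 0 := by nlinarith
        exact mul_self_eq_zero.1 h5
      have h4 : x = ((x.re : ℝ) : ℂ) := by
        apply Complex.ext
        · simp
        · simp [h3]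
      have h5 : Q.re = x.re ^ m := by
        rw [← hx]
        conv_lhs => rw [h4]
        rw [← Complex.ofReal_pow, Complex.ofReal_re]
      have h6 : 0 < x.re ^ m := by
        rw [h2, h1]; positivity
      linarith
  set z : Fin (m + 1) → ℂ := Fin.cons 0 (fun i : Fin m => w * ζ ^ (i : ℕ)) with hz
  have z0 : z 0 = 0 := rfl
  have zs : ∀ i : Fin m, z i.succ = w * ζ ^ (i : ℕ) := fun i => rfl
  have zm : ∀ i : Fin m, z i.succ ^ m = (Complex.I * (p : ℂ))⁻¹ := by
    intro i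
    rw [zs, mul_pow, hw, ← pow_mul, mul_comm (i : ℕ) m, pow_mul, hprim.pow_eq_one, one_pow, mul_one]
  refine ⟨z, ?_, ?_, ?_, Q, hQ0, ?_⟩
  · intro i
    refine Fin.cases ?_ (fun i => ?_) i
    · rw [z0, zero_pow (Nat.succ_ne_zero m), mul_zero]
    · rw [pow_succ, zm, ← mul_assoc, mul_inv_cancel₀ hIp, one_mul]
  · have hne : ∀ i : Fin m, z i.succ ^ e / (p : ℂ) ≠ 0 := fun i =>
      div_ne_zero (pow_ne_zero _ (by rw [zs]; exact mul_ne_zero hw0 (pow_ne_zero _ hζ0))) hpC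
    intro i j
    refine Fin.cases ?_ (fun i => ?_) i
    · refine Fin.cases ?_ (fun j => ?_) j
      · intro _; rfl
      · intro h
        simp only [z0, zero_pow he1, zero_div] at h
        exact absurd h.symm (hne j)
    · refine Fin.cases ?_ (fun j => ?_) j
      · intro h
        simp only [z0, zero_pow he1, zero_div] at h
        exact absurd h (hne i)
      · intro h
        have h1 : z i.succ ^ e = z j.succ ^ e := by
          have h2 : z i.succ ^ e / (p : ℂ) = z j.succ ^ e / (p : ℂ) := h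
          field_simp at h2
          exact h2
        rw [zs, zs, mul_pow, mul_pow] at h1
        have h2 := mul_left_cancel₀ (pow_ne_zero e hw0) h1
        rw [← pow_mul, ← pow_mul, mul_comm (i : ℕ) e, mul_comm (j : ℕ) e, pow_mul, pow_mul] at h2
        have h3 := hprim'.pow_inj i.2 j.2 h2
        rw [Fin.ext h3]
  · intro i
    refine Fin.cases ?_ (fun i => ?_) i
    · rw [z0, zero_pow he1, zero_div, Complex.zero_re]
      exact hBpos
    · exact hre _ (key _ (zm i))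
  · intro i
    refine Fin.cases ?_ (fun i => ?_) i
    · rw [z0, zero_pow he1, zero_div, zero_pow (Nat.succ_ne_zero m), mul_zero]
    · rw [pow_succ, key _ (zm i)]

theorem roots (p : ℕ) (hp : 3 ≤ p) :
    ∃ d e m : ℕ, d * e = 2 ∧ 1 ≤ m ∧ p = d * m + 2 ∧ ∃ z : Fin (m + 1) → ℂ,
      (∀ i, Complex.I * (p : ℂ) * z i ^ (m + 1) = z i) ∧
      Function.Injective (fun i => z i ^ e / (p : ℂ)) ∧
      (∀ i, (z i ^ e / (p : ℂ)).re < (p : ℝ) ^ (-(p : ℝ) / ((p : ℝ) - 2))) ∧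
      ∃ Q : ℂ, Q ≠ 0 ∧ ∀ i, (z i ^ e / (p : ℂ)) ^ (m + 1) = Q * (z i ^ e / (p : ℂ)) := by
  rcases Nat.even_or_odd p with h | h
  · obtain ⟨k, hk⟩ := h
    exact ⟨2, 1, k - 1, rfl, by omega, by omega,
      roots_aux p 2 1 (k - 1) rfl (Or.inl rfl) (by omega) (by omega) (Nat.coprime_one_left _)⟩
  · obtain ⟨k, hk⟩ := h
    refine ⟨1, 2, p - 2, rfl, by omega, by omega,
      roots_aux p 1 2 (p - 2) rfl (Or.inr rfl) (by omega) (by omega) ?_⟩
    rw [Nat.coprime_two_left]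
    exact ⟨k - 1, by omega⟩

end Pool.Agent.H288.ST.K2
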