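import Pool.Agent.H288.ST.Graded
import Pool.Agent.H288.ST.J7

set_option autoImplicit false

open Polynomial Filter Topology

namespace Pool.Agent.H288.ST.K3

open Pool.Agent.H288.ST Pool.Agent.H288.ST.J7

/-- expansion of a determinant with two equal columns -/
lemma minors (m : ℕ) (N : Fin (m + 2) → Fin (m + 1) → ℂ) (l : Fin (m + 1)) :
    ∑ j : Fin (m + 2), (-1 : ℂ) ^ (j : ℕ) *
      Matrix.det (Matrix.of fun a b : Fin (m + 1) => N (j.succAbove a) b) * N j l = 0 := by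
  set B : Matrix (Fin (m + 2)) (Fin (m + 2)) ℂ :=
    Matrix.of fun j k => Fin.cases (N j l) (fun b => N j b) k with hB
  have h0 : B.det = 0 := by
    refine Matrix.det_zero_of_column_eq (i := 0) (j := l.succ) (Fin.succ_ne_zero l).symm ?_
    intro j
    simp [hB]
  rw [Matrix.det_succ_column_zero] at h0
  rw [← h0]
  apply Finset.sum_congr rfl
  intro j _
  have h1 : B.submatrix j.succAbove Fin.succ =
      Matrix.of fun a b : Fin (m + 1) => N (j.succAbove a) b := by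
    ext a b
    simp [hB]
  have h2 : B j 0 = N j l := by simp [hB]
  rw [h1, h2]
  ring

/-- the operators -/
noncomputable def Th : ℕ → ℂ[X][X]
  | 0 => 1
  | j + 1 => C X * opD (Th j)

lemma act_Th (f : ℝ → ℂ) (hf : ST.Sm f) (j : ℕ) : ∀ t, act (Th j) f t = th j f t := by
  induction j with
  | zero =>
    intro t
    have h1 : (Th 0) = monomial 0 (1 : ℂ[X]) := by
      simp [Th]
    rw [h1, act_monomial]
    simp [th]
  | succ j ih =>
    intro t
    have h1 := act_hasDerivAt (Th j) f hf t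
    have h2 : act (Th j) f = th j f := funext ih
    rw [h2] at h1
    simp only [Th, th]
    rw [act_C_mul, eval_X, h1.deriv]

/-- the annihilating operator built from functions which are Laurent polynomials -/
lemma exists_op (r : ℕ) (D : Fin r → ℝ → ℂ)
    (hD : ∀ j, ∃ (N : ℕ) (g : ℂ[X]), ∀ t : ℝ, t ≠ 0 → D j t * (t : ℂ) ^ N = g.eval (t : ℂ)) :
    ∃ (A : ℂ[X][X]) (N : ℕ), ∀ f : ℝ → ℂ, ST.Sm f →
      act A f 0 = 0 ∧ ∀ t : ℝ, t ≠ 0 → act A f t =
        (t : ℂ) ^ (N + 1) * ∑ j : Fin r, (-1 : ℂ) ^ (j : ℕ) * D j t * th j f t := by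
  classical
  choose N g hg using hD
  refine ⟨∑ j : Fin r, C (C ((-1 : ℂ) ^ (j : ℕ)) * g j *
    X ^ ((∑ i ∈ Finset.univ.erase j, N i) + 1)) * Th j, ∑ i, N i, ?_⟩
  intro f hf
  have hact : ∀ t : ℝ, act (∑ j : Fin r, C (C ((-1 : ℂ) ^ (j : ℕ)) * g j *
      X ^ ((∑ i ∈ Finset.univ.erase j, N i) + 1)) * Th j) f t =
      ∑ j : Fin r, (-1 : ℂ) ^ (j : ℕ) * (g j).eval (t : ℂ) *
        (t : ℂ) ^ ((∑ i ∈ Finset.univ.erase j, N i) + 1) * th j f t := by
    intro t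
    rw [act_sum]
    apply Finset.sum_congr rfl
    intro j _
    rw [act_C_mul, act_Th f hf, eval_mul, eval_mul, eval_C, eval_pow, eval_X]
  refine ⟨?_, ?_⟩
  · rw [hact]
    apply Finset.sum_eq_zero
    intro j _
    simp
  · intro t ht
    rw [hact, Finset.mul_sum]
    apply Finset.sum_congr rfl
    intro j _
    rw [← hg j t ht]
    have h1 : ∑ i, N i = N j + ∑ i ∈ Finset.univ.erase j, N i :=
      (Finset.add_sum_erase Finset.univ N (Finset.mem_univ j)).symm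
    rw [h1, pow_succ, pow_succ, pow_add]
    ring

theorem detrel (m q d : ℕ) (hm : 1 ≤ m) (hq : 1 ≤ q) (φ : ℝ → ℂ) (hφ : Sm φ)
    (Φ : Fin (m + 1) → ℝ → ℂ) (n : ℕ → Fin (m + 1) → ℝ → ℂ) (c : ℕ → Fin (m + 1) → ℂ)
    (hn : ∀ j l, Gr q (n j l) ((d : ℤ) * ((l : ℕ) : ℤ) - 2 * (j : ℤ)) (c j l))
    (hrel : ∀ j, ∀ t : ℝ, t ≠ 0 → th j φ t = ∑ l, n j l t * Φ l t)
    (z lam : Fin (m + 1) → ℂ) (hz : ∀ j i, ∑ l, c j l * z i ^ (l : ℕ) = lam i ^ j)
    (hinj : Function.Injective lam) (Q : ℂ) (hQ : Q ≠ 0)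
    (hlam : ∀ i, lam i ^ (m + 1) = Q * lam i) :
    ∃ (g : ℕ → ℝ → ℂ) (gl : ℕ → ℂ),
      (∀ j < m + 1, Tendsto (g j) (𝓝[>] 0) (𝓝 (gl j))) ∧
      (∀ i, ∑ j : Fin (m + 1), gl j * lam i ^ (j : ℕ) = lam i ^ (m + 1)) ∧ gl 1 ≠ 0 ∧
      ∀ h : ℝ → ℂ, Sm h →
        (∀ A : ℂ[X][X], (∀ t, act A φ t = 0) → ∀ t, act A h t = 0) →
        ∀ᶠ τ : ℝ in 𝓝[>] 0, (τ : ℂ) ^ (2 * (m + 1)) * th (m + 1) h (τ ^ q) =
          ∑ j ∈ Finset.range (m + 1), g j τ * (τ : ℂ) ^ (2 * j) * th j h (τ ^ q) := by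
  classical
  -- determinants
  set D : Fin (m + 2) → ℝ → ℂ := fun j t =>
    Matrix.det (Matrix.of fun a b : Fin (m + 1) => n (j.succAbove a) b t) with hD
  set Cd : Fin (m + 2) → ℂ := fun j =>
    Matrix.det (Matrix.of fun a b : Fin (m + 1) => c (j.succAbove a) b) with hCd
  have hDrel : ∀ (t : ℝ) (l : Fin (m + 1)),
      ∑ j : Fin (m + 2), (-1 : ℂ) ^ (j : ℕ) * D j t * n j l t = 0 := fun t l =>
    minors m (fun j l => n j l t) l
  have hCrel : ∀ l : Fin (m + 1), ∑ j : Fin (m + 2), (-1 : ℂ) ^ (j : ℕ) * Cd j * c j l = 0 :=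
    fun l => minors m (fun j l => c j l) l
  -- grading
  set E0 : ℤ := ∑ b : Fin (m + 1), (d : ℤ) * ((b : ℕ) : ℤ) -
    ∑ i : Fin (m + 2), 2 * ((i : ℕ) : ℤ) with hE0
  have hGr : ∀ j : Fin (m + 2), Gr q (D j) (E0 + 2 * ((j : ℕ) : ℤ)) (Cd j) := by
    intro j
    have h1 := Gr.det (q := q) (A := fun a b : Fin (m + 1) => n (j.succAbove a) b)
      (x := fun b => (d : ℤ) * ((b : ℕ) : ℤ)) (y := fun a => 2 * (((j.succAbove a : Fin (m + 2)) : ℕ) : ℤ))
      (C := fun a b => c (j.succAbove a) b) (fun a b => hn (j.succAbove a) b)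
    have h2 : ∑ b : Fin (m + 1), (d : ℤ) * ((b : ℕ) : ℤ) -
        ∑ a : Fin (m + 1), 2 * (((j.succAbove a : Fin (m + 2)) : ℕ) : ℤ) =
        E0 + 2 * ((j : ℕ) : ℤ) := by
      rw [hE0, Fin.sum_univ_succAbove (fun i : Fin (m + 2) => 2 * ((i : ℕ) : ℤ)) j]
      ring
    rw [h2] at h1
    exact h1
  -- the relation for every h
  have hrelh : ∀ h : ℝ → ℂ, Sm h →
      (∀ A : ℂ[X][X], (∀ t, act A φ t = 0) → ∀ t, act A h t = 0) →
      ∀ t : ℝ, t ≠ 0 → ∑ j : Fin (m + 2), (-1 : ℂ) ^ (j : ℕ) * D j t * th j h t = 0 := by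
    intro h hh hann t ht
    obtain ⟨A, N, hA⟩ := exists_op (m + 2) D (fun j => (hGr j).1)
    have h1 : ∀ t, act A φ t = 0 := by
      intro t
      by_cases ht : t = 0
      · subst ht
        exact (hA φ hφ).1
      · rw [(hA φ hφ).2 t ht]
        have h2 : ∑ j : Fin (m + 2), (-1 : ℂ) ^ (j : ℕ) * D j t * th j φ t = 0 := by
          have h3 : ∀ j : Fin (m + 2), (-1 : ℂ) ^ (j : ℕ) * D j t * th j φ t =
              ∑ l, ((-1 : ℂ) ^ (j : ℕ) * D j t * n j l t) * Φ l t := by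
            intro j
            rw [hrel j t ht, Finset.mul_sum]
            apply Finset.sum_congr rfl
            intro l _
            ring
          rw [Finset.sum_congr rfl (fun j _ => h3 j), Finset.sum_comm]
          apply Finset.sum_eq_zero
          intro l _
          rw [← Finset.sum_mul, hDrel t l, zero_mul]
        rw [h2, mul_zero]
    have h2 := hann A h1 t
    rw [(hA h hh).2 t ht] at h2
    have h3 : (t : ℂ) ^ (N + 1) ≠ 0 := pow_ne_zero _ (Complex.ofReal_ne_zero.2 ht)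
    exact (mul_eq_zero.1 h2).resolve_left h3
  -- the last minor
  have hlast : Cd (Fin.last (m + 1)) ≠ 0 := by
    have h1 : Matrix.of (fun a b : Fin (m + 1) => c a b) *
        (Matrix.vandermonde z).transpose = (Matrix.vandermonde lam).transpose := by
      ext a i
      rw [Matrix.mul_apply]
      simp only [Matrix.of_apply, Matrix.transpose_apply, Matrix.vandermonde_apply]
      exact hz a i
    have h2 := congrArg Matrix.det h1
    rw [Matrix.det_mul, Matrix.det_transpose, Matrix.det_transpose] at h2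
    have h3 : (Matrix.vandermonde lam).det ≠ 0 := Matrix.det_vandermonde_ne_zero_iff.mpr hinj
    have h4 : Cd (Fin.last (m + 1)) = (Matrix.of (fun a b : Fin (m + 1) => c a b)).det := by
      rw [hCd]
      simp only [Fin.succAbove_last, Fin.val_castSucc]
    rw [h4]
    intro h5
    rw [h5, zero_mul] at h2
    exact h3 h2.symm
  choose w hw0 hw using fun j => (hGr j).2
  -- the coefficients
  let jj : ℕ → Fin (m + 2) := fun j => Fin.ofNat (m + 2) j
  have hjj : ∀ j < m + 2, ((jj j : Fin (m + 2)) : ℕ) = j := by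
    intro j hj
    simp only [jj, Fin.ofNat]
    exact Nat.mod_eq_of_lt hj
  set L := Fin.last (m + 1) with hL
  have hwcont : ∀ j, Tendsto (fun τ : ℝ => (w j).eval ((τ : ℂ) ^ 2)) (𝓝[>] 0) (𝓝 (Cd j)) := by
    intro j
    have h1 : Continuous (fun τ : ℝ => (w j).eval ((τ : ℂ) ^ 2)) := by fun_prop
    have h2 := (h1.tendsto 0).mono_left (nhdsWithin_le_nhds (a := (0 : ℝ)) (s := Set.Ioi 0))
    simpa [hw0] using h2
  have hcsum : ∀ i, ∑ j : Fin (m + 2), (-1 : ℂ) ^ (j : ℕ) * Cd j * lam i ^ (j : ℕ) = 0 := by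
    intro i
    have h1 : ∀ j : Fin (m + 2), (-1 : ℂ) ^ (j : ℕ) * Cd j * lam i ^ (j : ℕ) =
        ∑ l, ((-1 : ℂ) ^ (j : ℕ) * Cd j * c j l) * z i ^ (l : ℕ) := by
      intro j
      rw [← hz j i, Finset.mul_sum]
      apply Finset.sum_congr rfl
      intro l _
      ring
    rw [Finset.sum_congr rfl (fun j _ => h1 j), Finset.sum_comm]
    apply Finset.sum_eq_zero
    intro l _
    rw [← Finset.sum_mul, hCrel l, zero_mul]
  have hglsum : ∀ i, ∑ j : Fin (m + 1), (-((-1 : ℂ) ^ ((j : ℕ) + m + 1) * Cd (jj j) / Cd L)) *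
      lam i ^ (j : ℕ) = lam i ^ (m + 1) := by
    intro i
    have h1 := hcsum i
    rw [Fin.sum_univ_castSucc] at h1
    simp only [Fin.val_castSucc, Fin.val_last] at h1
    have h2 : ∀ j : Fin (m + 1), jj j = j.castSucc := by
      intro j
      apply Fin.ext
      rw [hjj _ (by omega)]
      rfl
    have h3 : lam i ^ (m + 1) = -((-1 : ℂ) ^ (m + 1) / Cd L) *
        ∑ j : Fin (m + 1), (-1 : ℂ) ^ (j : ℕ) * Cd j.castSucc * lam i ^ (j : ℕ) := by
      have h4 : ∑ j : Fin (m + 1), (-1 : ℂ) ^ (j : ℕ) * Cd j.castSucc * lam i ^ (j : ℕ) =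
          -((-1 : ℂ) ^ (m + 1) * Cd L * lam i ^ (m + 1)) := by linear_combination h1
      rw [h4]
      have h5 : (-1 : ℂ) ^ (m + 1) * (-1 : ℂ) ^ (m + 1) = 1 := by
        rw [← mul_pow]; norm_num
      field_simp
      linear_combination (-(lam i ^ (m + 1))) * h5
    rw [h3, Finset.mul_sum]
    apply Finset.sum_congr rfl
    intro j _
    rw [h2 j, add_assoc, pow_add]
    ring
  refine ⟨fun j τ => -((-1 : ℂ) ^ (j + m + 1) * (w (jj j)).eval ((τ : ℂ) ^ 2) /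
    (w L).eval ((τ : ℂ) ^ 2)), fun j => -((-1 : ℂ) ^ (j + m + 1) * Cd (jj j) / Cd L), ?_, ?_, ?_, ?_⟩
  · intro j _
    exact (((hwcont (jj j)).const_mul _).div (hwcont L) hlast).neg
  · exact hglsum
  · -- the coefficient of index one
    have h1 : ∀ i, ∑ j : Fin (m + 1), ((-((-1 : ℂ) ^ ((j : ℕ) + m + 1) * Cd (jj j) / Cd L)) -
        (if j = ⟨1, by omega⟩ then Q else 0)) * lam i ^ (j : ℕ) = 0 := by
      intro i
      simp only [sub_mul]
      rw [Finset.sum_sub_distrib, hglsum i, hlam i]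
      simp
    have h2 := Matrix.eq_zero_of_forall_index_sum_mul_pow_eq_zero hinj h1
    have h3 := congrFun h2 ⟨1, by omega⟩
    simp only [if_true, Pi.zero_apply] at h3
    have h4 : -((-1 : ℂ) ^ (1 + m + 1) * Cd (jj 1) / Cd L) = Q := by
      linear_combination h3
    beta_reduce
    rw [h4]
    exact hQ
  · intro h hh hann
    have hne : ∀ᶠ τ : ℝ in 𝓝[>] 0, (w L).eval ((τ : ℂ) ^ 2) ≠ 0 :=
      (hwcont L).eventually_ne hlast
    filter_upwards [hne, self_mem_nhdsWithin] with τ h1 h2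
    have hτ : (0 : ℝ) < τ := h2
    have hτ0 : (τ : ℂ) ≠ 0 := Complex.ofReal_ne_zero.2 hτ.ne'
    have h3 := hrelh h hh hann (τ ^ q) (pow_ne_zero _ hτ.ne')
    have h4 : ∀ j : Fin (m + 2), (-1 : ℂ) ^ (j : ℕ) * D j (τ ^ q) * th j h (τ ^ q) =
        (τ : ℂ) ^ E0 * ((-1 : ℂ) ^ (j : ℕ) * (w j).eval ((τ : ℂ) ^ 2) * (τ : ℂ) ^ (2 * (j : ℕ)) *
          th j h (τ ^ q)) := by
      intro j
      rw [hw j τ hτ, zpow_add₀ hτ0]
      have : (τ : ℂ) ^ (2 * ((j : ℕ) : ℤ)) = (τ : ℂ) ^ (2 * (j : ℕ)) := by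
        have e : (2 * ((j : ℕ) : ℤ)) = ((2 * (j : ℕ) : ℕ) : ℤ) := by push_cast; ring
        rw [e, zpow_natCast]
      rw [this]
      ring
    rw [Finset.sum_congr rfl (fun j _ => h4 j), ← Finset.mul_sum] at h3
    have h5 := (mul_eq_zero.1 h3).resolve_left (zpow_ne_zero _ hτ0)
    rw [Fin.sum_univ_castSucc] at h5
    simp only [Fin.val_castSucc, Fin.val_last] at h5
    rw [← Fin.sum_univ_eq_sum_range (fun j => -((-1 : ℂ) ^ (j + m + 1) *
      (w (jj j)).eval ((τ : ℂ) ^ 2) / (w L).eval ((τ : ℂ) ^ 2)) * (τ : ℂ) ^ (2 * j) *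
      th j h (τ ^ q)) (m + 1)]
    have h6 : ∀ j : Fin (m + 1), jj j = j.castSucc := by
      intro j
      apply Fin.ext
      rw [hjj _ (by omega)]
      rfl
    have h7 : ∑ j : Fin (m + 1), (-1 : ℂ) ^ (j : ℕ) * (w j.castSucc).eval ((τ : ℂ) ^ 2) *
        (τ : ℂ) ^ (2 * (j : ℕ)) * th j h (τ ^ q) =
        -((-1 : ℂ) ^ (m + 1) * (w L).eval ((τ : ℂ) ^ 2) * (τ : ℂ) ^ (2 * (m + 1)) *
          th (m + 1) h (τ ^ q)) := by linear_combination h5
    have h8 : (-1 : ℂ) ^ (m + 1) * (-1 : ℂ) ^ (m + 1) = 1 := by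
      rw [← mul_pow]; norm_num
    have h9 : (τ : ℂ) ^ (2 * (m + 1)) * th (m + 1) h (τ ^ q) =
        -((-1 : ℂ) ^ (m + 1) / (w L).eval ((τ : ℂ) ^ 2)) *
        ∑ j : Fin (m + 1), (-1 : ℂ) ^ (j : ℕ) * (w j.castSucc).eval ((τ : ℂ) ^ 2) *
        (τ : ℂ) ^ (2 * (j : ℕ)) * th j h (τ ^ q) := by
      rw [h7]
      have h10 : (w L).eval ((τ : ℂ) ^ 2) / (w L).eval ((τ : ℂ) ^ 2) = 1 := div_self h1
      calc (τ : ℂ) ^ (2 * (m + 1)) * th (m + 1) h (τ ^ q)
          = ((-1 : ℂ) ^ (m + 1) * (-1 : ℂ) ^ (m + 1)) *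
            ((w L).eval ((τ : ℂ) ^ 2) / (w L).eval ((τ : ℂ) ^ 2)) *
            ((τ : ℂ) ^ (2 * (m + 1)) * th (m + 1) h (τ ^ q)) := by rw [h8, h10]; ring
        _ = _ := by ring
    rw [h9, Finset.mul_sum]
    apply Finset.sum_congr rfl
    intro j _
    rw [h6 j, add_assoc, pow_add]
    ring

end Pool.Agent.H288.ST.K3
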