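import Pool.Agent.H288.ST.Ann
import Pool.Agent.H288.ST.J7

set_option autoImplicit false

open Polynomial Filter Topology

/-! JOB for MP_0c6895_pr (owner helper288), K4 an operator with leading coefficient a power of t. One TARGET theorem.
SETUP: cd /workdir/pool/outputs/live && git fetch -q && git archive origin/main Pool/Agent/H288/ST | tar x -C /workdir/pool
       cd /workdir/pool && lake build Pool.Agent.H288.ST.Ann Pool.Agent.H288.ST.J7
Definitions: Ann.lean (act, Sm, opD, opD_degree, act_hasDerivAt, act_sum, act_C_mul, act_sub, act_monomial), J7.lean (th = iterates of f ↦ t f').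

PROOF. Choose N_j (one exponent for all l : Fin r; take the sum of the exponents) and vectors G_j : Fin r → ℂ[X] with n j l t * t^(N_j) = (G_j l).eval t for t ≠ 0. The
submodules S_J = span {G_j : j < J} of the Noetherian ℂ[X]-module Fin r → ℂ[X] increase, so S_M = S_{M+1} for some M, that is G_M = sum_{j<M} b_j G_j with polynomials b_j. Hence for
t ≠ 0: t^(N_M) th M φ t = sum_{j<M} b_j(t) t^(N_j) th j φ t. Let Θ_0 = 1, Θ_{j+1} = C X * opD Θ_j: act Θ_j f = th j f for Sm f, natDegree Θ_j = j and leading coefficient X^j.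
A = C (X^(N_M+1)) * Θ_M - sum_{j<M} C (b_j X^(N_j+1)) * Θ_j: act A φ t = 0 for all t (for t = 0 all coefficients vanish), natDegree M, coefficient X^(N_M+1+M). -/

namespace Pool.Agent.H288.ST.K4

open Pool.Agent.H288.ST Pool.Agent.H288.ST.J7

/-- the operators `(t d/dt)^j` -/
noncomputable def Tht : ℕ → ℂ[X][X]
  | 0 => 1
  | j + 1 => C X * opD (Tht j)

theorem Tht_act (f : ℝ → ℂ) (hf : Sm f) (j : ℕ) : act (Tht j) f = th j f := by
  induction j with
  | zero =>
    funext t
    have h := act_monomial 0 1 f t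
    rw [← C_mul_X_pow_eq_monomial] at h
    simp only [pow_zero, mul_one, map_one, eval_one, iteratedDeriv_zero, one_mul] at h
    exact h
  | succ j ih =>
    funext t
    show act (C X * opD (Tht j)) f t = (t : ℂ) * deriv (th j f) t
    rw [act_C_mul, eval_X, ← ih, (act_hasDerivAt (Tht j) f hf t).deriv]

theorem Tht_deg (j : ℕ) : (Tht j).degree = (j : WithBot ℕ) ∧ (Tht j).leadingCoeff = X ^ j := by
  induction j with
  | zero =>
    show (1 : ℂ[X][X]).degree = _ ∧ (1 : ℂ[X][X]).leadingCoeff = _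
    simp
  | succ j ih =>
    have h0 : Tht j ≠ 0 := by
      intro h
      have h2 := ih.1
      rw [h, degree_zero] at h2
      exact absurd h2 (by simp)
    have h1 := opD_degree (Tht j) h0
    show (C X * opD (Tht j)).degree = _ ∧ (C X * opD (Tht j)).leadingCoeff = _
    rw [degree_mul, degree_C X_ne_zero, zero_add, h1.1, ih.1, leadingCoeff_mul, leadingCoeff_C,
      h1.2, ih.2]
    constructor
    · push_cast; rfl
    · rw [pow_succ, mul_comm]

theorem noeth (r : ℕ) (φ : ℝ → ℂ) (hφ : Sm φ) (Φ : Fin r → ℝ → ℂ) (n : ℕ → Fin r → ℝ → ℂ)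
    (hn : ∀ j l, ∃ (N : ℕ) (g : ℂ[X]), ∀ t : ℝ, t ≠ 0 → n j l t * (t : ℂ) ^ N = g.eval (t : ℂ))
    (hrel : ∀ j, ∀ t : ℝ, t ≠ 0 → th j φ t = ∑ l, n j l t * Φ l t) :
    ∃ (M a : ℕ) (A : ℂ[X][X]), A.natDegree = M ∧ A.coeff M = X ^ a ∧ ∀ t, act A φ t = 0 := by
  choose N0 g0 h0 using hn
  set N : ℕ → ℕ := fun j => ∑ l, N0 j l with hN
  set G : ℕ → Fin r → ℂ[X] := fun j l => g0 j l * X ^ (N j - N0 j l) with hG
  have hle : ∀ j l, N0 j l ≤ N j := fun j l =>
    Finset.single_le_sum (f := fun l => N0 j l) (fun _ _ => Nat.zero_le _) (Finset.mem_univ l)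
  have h1 : ∀ j l, ∀ t : ℝ, t ≠ 0 → n j l t * (t : ℂ) ^ (N j) = (G j l).eval (t : ℂ) := by
    intro j l t ht
    rw [hG]
    simp only [eval_mul, eval_pow, eval_X]
    rw [← h0 j l t ht, mul_assoc, ← pow_add, Nat.add_sub_cancel' (hle j l)]
  let S : ℕ →o Submodule ℂ[X] (Fin r → ℂ[X]) :=
    ⟨fun J => Submodule.span ℂ[X] (Set.range fun j : Fin J => G j), by
      intro J K hJK
      refine Submodule.span_mono ?_
      rintro _ ⟨j, rfl⟩
      exact ⟨⟨j.1, lt_of_lt_of_le j.2 hJK⟩, rfl⟩⟩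
  obtain ⟨M, hM⟩ := monotone_stabilizes_iff_noetherian.2
    (inferInstance : IsNoetherian ℂ[X] (Fin r → ℂ[X])) S
  have h2 : G M ∈ S M := by
    rw [hM (M + 1) (Nat.le_succ M)]
    exact Submodule.subset_span ⟨⟨M, Nat.lt_succ_self M⟩, rfl⟩
  obtain ⟨b, hb⟩ := (Submodule.mem_span_range_iff_exists_fun ℂ[X]).1 h2
  have h3 : ∀ t : ℝ, t ≠ 0 → (t : ℂ) ^ (N M) * th M φ t =
      ∑ j : Fin M, (b j).eval (t : ℂ) * (t : ℂ) ^ (N j) * th j φ t := by
    intro t ht
    have h4 : ∀ j, (t : ℂ) ^ (N j) * th j φ t = ∑ l, (G j l).eval (t : ℂ) * Φ l t := by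
      intro j
      rw [hrel j t ht, Finset.mul_sum]
      refine Finset.sum_congr rfl fun l _ => ?_
      rw [← h1 j l t ht]
      ring
    rw [h4 M]
    have h5 : ∀ l, (G M l).eval (t : ℂ) = ∑ j : Fin M, (b j).eval (t : ℂ) * (G j l).eval (t : ℂ) := by
      intro l
      rw [← hb, Finset.sum_apply, eval_finsetSum]
      refine Finset.sum_congr rfl fun j _ => ?_
      rw [Pi.smul_apply, smul_eq_mul, eval_mul]
    simp only [h5, Finset.sum_mul]
    rw [Finset.sum_comm]
    refine Finset.sum_congr rfl fun j _ => ?_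
    rw [mul_assoc, h4 j, Finset.mul_sum]
    refine Finset.sum_congr rfl fun l _ => ?_
    ring
  set B : ℂ[X][X] := ∑ j : Fin M, C (b j * X ^ (N j + 1)) * Tht j with hB
  set A : ℂ[X][X] := C (X ^ (N M + 1)) * Tht M - B with hA
  have hdlt : ∀ j : Fin M, (C (b j * X ^ (N j + 1)) * Tht j).degree < (M : WithBot ℕ) := by
    intro j
    refine lt_of_le_of_lt (degree_mul_le _ _) ?_
    rw [(Tht_deg j).1]
    calc (C (b j * X ^ (N j + 1))).degree + ((j : ℕ) : WithBot ℕ) ≤ 0 + ((j : ℕ) : WithBot ℕ) :=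
          add_le_add degree_C_le le_rfl
      _ = ((j : ℕ) : WithBot ℕ) := zero_add _
      _ < _ := by exact_mod_cast j.2
  have hBdeg : B.degree < (M : WithBot ℕ) := by
    rw [hB]
    refine lt_of_le_of_lt (degree_sum_le _ _) ?_
    exact (Finset.sup_lt_iff (WithBot.bot_lt_coe M)).2 fun j _ => hdlt j
  have hlead : (C (X ^ (N M + 1)) * Tht M : ℂ[X][X]).coeff M = X ^ (N M + 1 + M) := by
    rw [coeff_C_mul]
    have h6 : (Tht M).coeff M = X ^ M := by
      have h7 := (Tht_deg M).2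
      rw [leadingCoeff, natDegree_eq_of_degree_eq_some (Tht_deg M).1] at h7
      exact h7
    rw [h6, ← pow_add]
  have hcoef : A.coeff M = X ^ (N M + 1 + M) := by
    rw [hA, coeff_sub, hlead, coeff_eq_zero_of_degree_lt hBdeg, sub_zero]
  refine ⟨M, N M + 1 + M, A, ?_, hcoef, ?_⟩
  · apply le_antisymm
    · rw [natDegree_le_iff_degree_le]
      refine (degree_sub_le _ _).trans (max_le ?_ hBdeg.le)
      refine (degree_mul_le _ _).trans ?_
      rw [(Tht_deg M).1]
      calc (C (X ^ (N M + 1)) : ℂ[X][X]).degree + (M : WithBot ℕ) ≤ 0 + (M : WithBot ℕ) :=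
            add_le_add degree_C_le le_rfl
        _ = _ := zero_add _
    · apply le_natDegree_of_ne_zero
      rw [hcoef]
      exact pow_ne_zero _ X_ne_zero
  · intro t
    rw [hA, act_sub, act_C_mul, hB, act_sum, Tht_act φ hφ]
    have h8 : ∀ j : Fin M, act (C (b j * X ^ (N j + 1)) * Tht j) φ t =
        (t : ℂ) * ((b j).eval (t : ℂ) * (t : ℂ) ^ (N j) * th j φ t) := by
      intro j
      rw [act_C_mul, Tht_act φ hφ, eval_mul, eval_pow, eval_X, pow_succ]
      ring
    rw [Finset.sum_congr rfl fun j _ => h8 j, ← Finset.mul_sum, eval_pow, eval_X]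
    by_cases ht : t = 0
    · rw [ht]; simp
    · rw [← h3 t ht, pow_succ]
      ring

end Pool.Agent.H288.ST.K4
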