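import Mathlib

set_option autoImplicit false

open MeasureTheory Polynomial

namespace Pool.Agent.H288.ST.K5

/-- a polynomial dominates the power of its degree, on the whole line -/
lemma pow_le_poly (P : ℝ[X]) (hP : P ≠ 0) :
    ∃ C : ℝ, ∀ y : ℝ, |y| ^ P.natDegree ≤ C * (|P.eval y| + 1) := by
  set k := P.natDegree with hk
  have hdeg : (X ^ k : ℝ[X]).degree ≤ P.degree := by
    rw [degree_X_pow, degree_eq_natDegree hP]
  have h1 := Polynomial.isBigO_atTop_of_degree_le (X ^ k : ℝ[X]) P hdeg
  have hcomp : (P.comp (-X)).natDegree = k := by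
    rw [natDegree_comp]; simp [hk]
  have hcomp0 : P.comp (-X) ≠ 0 := by
    intro h0
    have h2 : (P.comp (-X)).comp (-X) = P := by
      rw [comp_assoc]; simp
    rw [h0] at h2
    exact hP (by rw [← h2]; simp)
  have hdeg2 : (X ^ k : ℝ[X]).degree ≤ (P.comp (-X)).degree := by
    rw [degree_X_pow, degree_eq_natDegree hcomp0, hcomp]
  have h2 := Polynomial.isBigO_atTop_of_degree_le (X ^ k : ℝ[X]) (P.comp (-X)) hdeg2
  obtain ⟨C1, hC1⟩ := h1.bound
  obtain ⟨C2, hC2⟩ := h2.bound
  obtain ⟨a1, ha1⟩ := Filter.eventually_atTop.mp hC1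
  obtain ⟨a2, ha2⟩ := Filter.eventually_atTop.mp hC2
  set M := max (max |a1| |a2|) 0 with hM
  refine ⟨max (max |C1| |C2|) (M ^ k), fun y => ?_⟩
  have hpos : 0 ≤ |P.eval y| := abs_nonneg _
  have hmax0 : 0 ≤ max (max |C1| |C2|) (M ^ k) :=
    le_max_of_le_left (le_max_of_le_left (abs_nonneg _))
  rcases le_or_gt a1 y with hy | hy
  · have := ha1 y hy
    simp only [eval_pow, eval_X, norm_pow, Real.norm_eq_abs] at this
    calc |y| ^ k ≤ C1 * |P.eval y| := this
      _ ≤ max (max |C1| |C2|) (M ^ k) * |P.eval y| := by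
          apply mul_le_mul_of_nonneg_right _ hpos
          exact le_max_of_le_left (le_max_of_le_left (le_abs_self _))
      _ ≤ _ := by
          apply mul_le_mul_of_nonneg_left _ hmax0
          linarith
  rcases le_or_gt a2 (-y) with hy2 | hy2
  · have := ha2 (-y) hy2
    simp only [eval_pow, eval_X, norm_pow, Real.norm_eq_abs, eval_comp, eval_neg, neg_neg, abs_neg]
      at this
    calc |y| ^ k ≤ C2 * |P.eval y| := this
      _ ≤ max (max |C1| |C2|) (M ^ k) * |P.eval y| := by
          apply mul_le_mul_of_nonneg_right _ hpos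
          exact le_max_of_le_left (le_max_of_le_right (le_abs_self _))
      _ ≤ _ := by
          apply mul_le_mul_of_nonneg_left _ hmax0
          linarith
  · have hyM : |y| ≤ M := by
      rw [abs_le]
      constructor
      · have : |a2| ≤ M := le_max_of_le_left (le_max_right _ _)
        have := le_abs_self a2
        linarith
      · have : |a1| ≤ M := le_max_of_le_left (le_max_left _ _)
        have := le_abs_self a1
        linarith
    calc |y| ^ k ≤ M ^ k := pow_le_pow_left₀ (abs_nonneg _) hyM k
      _ ≤ max (max |C1| |C2|) (M ^ k) := le_max_right _ _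
      _ = max (max |C1| |C2|) (M ^ k) * 1 := (mul_one _).symm
      _ ≤ _ := by
          apply mul_le_mul_of_nonneg_left _ hmax0
          linarith

/-- a combination of descending factorials with a nonzero coefficient is nonzero for large n -/
lemma desc_ne (T : ℕ) (a : ℕ → ℝ) (ha : ∃ t ≤ T, a t ≠ 0) :
    ∀ N : ℕ, ∃ n ≥ N, ∑ t ∈ Finset.range (T + 1), a t * (n.descFactorial t : ℝ) ≠ 0 := by
  classical
  intro N
  by_contra hcon
  push Not at hcon
  set q : ℝ[X] := ∑ t ∈ Finset.range (T + 1), C (a t) * descPochhammer ℝ t with hq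
  have hev : ∀ n : ℕ, q.eval (n : ℝ) = ∑ t ∈ Finset.range (T + 1), a t * (n.descFactorial t : ℝ) := by
    intro n
    rw [hq, eval_finsetSum]
    refine Finset.sum_congr rfl fun t _ => ?_
    rw [eval_mul, eval_C, descPochhammer_eval_eq_descFactorial]
  have hq0 : q = 0 := by
    apply Polynomial.eq_zero_of_infinite_isRoot
    apply Set.Infinite.mono (s := (fun n : ℕ => (n : ℝ)) '' {n | N ≤ n})
    · rintro _ ⟨n, hn, rfl⟩
      show q.eval (n : ℝ) = 0
      rw [hev]; exact hcon n hn
    · apply Set.Infinite.image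
      · intro x _ y _ hxy; exact Nat.cast_injective hxy
      · exact Set.infinite_of_not_bddAbove (fun ⟨b, hb⟩ => by
          have := hb (show b + N + 1 ∈ {n | N ≤ n} by simp; omega)
          omega)
  -- the largest t with a t ≠ 0
  obtain ⟨t0, ht0, hat0⟩ := ha
  set S := (Finset.range (T + 1)).filter (fun t => a t ≠ 0) with hS
  have hSne : S.Nonempty := ⟨t0, by simp [hS, hat0]; omega⟩
  set m := S.max' hSne with hm
  have hmS : m ∈ S := S.max'_mem hSne
  have hmS' := Finset.mem_filter.mp hmS
  have hcoef : q.coeff m = a m := by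
    rw [hq, finsetSum_coeff]
    rw [Finset.sum_eq_single m]
    · rw [coeff_C_mul]
      have : (descPochhammer ℝ m).coeff m = 1 := by
        have h1 := monic_descPochhammer ℝ m
        have h2 := descPochhammer_natDegree ℝ m
        unfold Monic leadingCoeff at h1
        rw [h2] at h1
        exact h1
      rw [this, mul_one]
    · intro t ht htm
      rw [coeff_C_mul]
      by_cases hat : a t = 0
      · simp [hat]
      · have : t ≤ m := S.le_max' t (by simp only [hS, Finset.mem_filter]; exact ⟨ht, hat⟩)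
        rw [coeff_eq_zero_of_natDegree_lt, mul_zero]
        rw [descPochhammer_natDegree]
        omega
    · intro h; exact absurd hmS'.1 h
  rw [hq0] at hcoef
  simp at hcoef
  exact hmS'.2 hcoef.symm

theorem moments (T : ℕ) (c : ℕ → ℝ[X]) (hne : ∃ t ≤ T, c t ≠ 0) (ν : Measure ℝ)
    [IsProbabilityMeasure ν]
    (h : ∀ n : ℕ, Integrable (fun y : ℝ => ∑ t ∈ Finset.range (T + 1),
      (c t).eval y * ((n.descFactorial t : ℝ) * y ^ (n - t))) ν) :
    ∀ n : ℕ, Integrable (fun y : ℝ => y ^ n) ν := by
  classical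
  -- arbitrarily large powers are integrable
  have key : ∀ N : ℕ, ∃ k ≥ N, Integrable (fun y : ℝ => y ^ k) ν := by
    intro N
    set e := (Finset.range (T + 1)).sup (fun t => (c t * X ^ (T - t)).natDegree) with he
    -- some coefficient at e is nonzero
    have hex : ∃ t ≤ T, (c t * X ^ (T - t)).coeff e ≠ 0 := by
      obtain ⟨t1, ht1, hc1⟩ := hne
      by_cases he0 : e = 0
      · refine ⟨t1, ht1, ?_⟩
        have hle : (c t1 * X ^ (T - t1)).natDegree ≤ e :=
          Finset.le_sup (f := fun t => (c t * X ^ (T - t)).natDegree) (by simp; omega)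
        have hz : (c t1 * X ^ (T - t1)).natDegree = e := by omega
        have hnz : c t1 * X ^ (T - t1) ≠ 0 := mul_ne_zero hc1 (pow_ne_zero _ X_ne_zero)
        rw [← hz]
        exact leadingCoeff_ne_zero.mpr hnz
      · obtain ⟨t, ht, hte⟩ := Finset.exists_mem_eq_sup (Finset.range (T + 1)) ⟨0, by simp⟩
          (fun t => (c t * X ^ (T - t)).natDegree)
        refine ⟨t, by simp at ht; omega, ?_⟩
        have hte' : (c t * X ^ (T - t)).natDegree = e := hte.symm
        have hnz : c t * X ^ (T - t) ≠ 0 := by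
          intro h0; rw [h0] at hte'; simp at hte'; exact he0 hte'.symm
        rw [← hte']
        exact leadingCoeff_ne_zero.mpr hnz
    obtain ⟨n, hnN, hn⟩ := desc_ne T (fun t => (c t * X ^ (T - t)).coeff e) hex (N + T)
    set Q : ℝ[X] := ∑ t ∈ Finset.range (T + 1), C (n.descFactorial t : ℝ) * (c t * X ^ (T - t)) with hQ
    have hQe : Q.coeff e ≠ 0 := by
      rw [hQ, finsetSum_coeff]
      convert hn using 1
      refine Finset.sum_congr rfl fun t _ => ?_
      rw [coeff_C_mul, mul_comm]
    have hQ0 : Q ≠ 0 := by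
      intro h0; rw [h0] at hQe; simp at hQe
    set P : ℝ[X] := X ^ (n - T) * Q with hPdef
    have hP0 : P ≠ 0 := mul_ne_zero (pow_ne_zero _ X_ne_zero) hQ0
    have hPdeg : n - T ≤ P.natDegree := by
      rw [hPdef, natDegree_mul (pow_ne_zero _ X_ne_zero) hQ0, natDegree_X_pow]
      omega
    have hPev : ∀ y : ℝ, P.eval y = ∑ t ∈ Finset.range (T + 1),
        (c t).eval y * ((n.descFactorial t : ℝ) * y ^ (n - t)) := by
      intro y
      rw [hPdef, hQ, eval_mul, eval_finsetSum, Finset.mul_sum]
      refine Finset.sum_congr rfl fun t ht => ?_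
      simp only [eval_mul, eval_pow, eval_X, eval_C]
      have ht' : t ≤ T := by simp at ht; omega
      have : y ^ (n - t) = y ^ (n - T) * y ^ (T - t) := by
        rw [← pow_add]; congr 1; omega
      rw [this]; ring
    obtain ⟨K, hK⟩ := pow_le_poly P hP0
    refine ⟨P.natDegree, by omega, ?_⟩
    have hint : Integrable (fun y : ℝ => K * (|P.eval y| + 1)) ν := by
      apply Integrable.const_mul
      apply Integrable.add _ (integrable_const _)
      have := (h n).abs
      refine this.congr (Filter.Eventually.of_forall fun y => ?_)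
      simp only [hPev y]
    refine hint.mono' (by fun_prop) (Filter.Eventually.of_forall fun y => ?_)
    rw [norm_pow, Real.norm_eq_abs]
    exact hK y
  intro n
  obtain ⟨k, hk, hik⟩ := key n
  have hint : Integrable (fun y : ℝ => 1 + |y ^ k|) ν := (integrable_const _).add hik.abs
  refine hint.mono' (by fun_prop) (Filter.Eventually.of_forall fun y => ?_)
  rw [norm_pow, Real.norm_eq_abs, abs_pow]
  rcases le_or_gt |y| 1 with hy | hy
  · have h1 : |y| ^ n ≤ 1 := pow_le_one₀ (abs_nonneg _) hy
    have h2 : 0 ≤ |y| ^ k := pow_nonneg (abs_nonneg _) _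
    linarith
  · have h1 : |y| ^ n ≤ |y| ^ k := pow_le_pow_right₀ hy.le hk
    linarith

end Pool.Agent.H288.ST.K5
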