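import Pool.Agent.H288.ST.Ann

set_option autoImplicit false

open MeasureTheory Polynomial

namespace Pool.Agent.H288.ST.K6

open Pool.Agent.H288.ST

theorem memLp_of_pow (ν : Measure ℝ) [IsProbabilityMeasure ν] (n : ℕ)
    (h : Integrable (fun y : ℝ => y ^ n) ν) : MemLp (id : ℝ → ℝ) n ν := by
  rcases Nat.eq_zero_or_pos n with rfl | hn
  · simp only [Nat.cast_zero, memLp_zero_iff_aestronglyMeasurable]
    exact measurable_id.aestronglyMeasurable
  · rw [← integrable_norm_rpow_iff measurable_id.aestronglyMeasurable (by simp; omega) (by simp)]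
    refine h.norm.congr (Filter.Eventually.of_forall fun y => ?_)
    simp

/-- the integrals `∫ y^j e^{isy}` -/
noncomputable def mom (ν : Measure ℝ) (j : ℕ) (s : ℝ) : ℂ :=
  ∫ y : ℝ, (y : ℂ) ^ j * Complex.exp (Complex.I * s * y) ∂ν

theorem mom_int (ν : Measure ℝ) (j : ℕ)
    (h : Integrable (fun y : ℝ => y ^ j) ν) (s : ℝ) :
    Integrable (fun y : ℝ => (y : ℂ) ^ j * Complex.exp (Complex.I * s * y)) ν := by
  have h1 : Integrable (fun y : ℝ => ((y ^ j : ℝ) : ℂ)) ν := h.ofReal
  refine h1.norm.mono' ?_ ?_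
  · refine Measurable.aestronglyMeasurable ?_
    fun_prop
  · refine Filter.Eventually.of_forall fun y => ?_
    rw [norm_mul]
    have : ‖Complex.exp (Complex.I * s * y)‖ = 1 := by
      rw [show Complex.I * s * y = ((s * y : ℝ) : ℂ) * Complex.I by push_cast; ring,
        Complex.norm_exp_ofReal_mul_I]
    rw [this, mul_one]
    simp

theorem deriv_eq (ν : Measure ℝ) [IsProbabilityMeasure ν] (j : ℕ)
    (h : Integrable (fun y : ℝ => y ^ j) ν) (s : ℝ) :
    iteratedDeriv j (charFun ν) s = Complex.I ^ j * mom ν j s := by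
  rw [iteratedDeriv_charFun (memLp_of_pow ν j h)]
  congr 1
  unfold mom
  refine integral_congr_ae (Filter.Eventually.of_forall fun y => ?_)
  show (y : ℂ) ^ j * Complex.exp (s * y * Complex.I) = (y : ℂ) ^ j * Complex.exp (Complex.I * s * y)
  congr 2
  ring

/-- the integral of an operator in `y` -/
theorem W_eq (ν : Measure ℝ) (hm : ∀ n : ℕ, Integrable (fun y : ℝ => y ^ n) ν) (T N : ℕ)
    (c : ℕ → ℝ[X]) (hc : ∀ t ≤ T, (c t).natDegree ≤ N) (s : ℝ) :
    ∫ y : ℝ, ∑ t ∈ Finset.range (T + 1),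
      (((c t).eval y : ℝ) : ℂ) * (Complex.I * s) ^ t * Complex.exp (Complex.I * s * y) ∂ν =
    ∑ t ∈ Finset.range (T + 1), ∑ j ∈ Finset.range (N + 1),
      ((c t).coeff j : ℂ) * (Complex.I * s) ^ t * mom ν j s := by
  have h1 : ∀ y : ℝ, ∑ t ∈ Finset.range (T + 1),
      (((c t).eval y : ℝ) : ℂ) * (Complex.I * s) ^ t * Complex.exp (Complex.I * s * y) =
      ∑ t ∈ Finset.range (T + 1), ∑ j ∈ Finset.range (N + 1),
        ((c t).coeff j : ℂ) * (Complex.I * s) ^ t * ((y : ℂ) ^ j * Complex.exp (Complex.I * s * y)) := by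
    intro y
    refine Finset.sum_congr rfl fun t ht => ?_
    have h2 : (c t).natDegree < N + 1 := by
      have := hc t (Nat.lt_succ_iff.1 (Finset.mem_range.1 ht)); omega
    rw [Polynomial.eval_eq_sum_range' h2]
    push_cast
    rw [Finset.sum_mul, Finset.sum_mul]
    refine Finset.sum_congr rfl fun j _ => ?_
    ring
  simp_rw [h1]
  rw [integral_finsetSum]
  · refine Finset.sum_congr rfl fun t _ => ?_
    rw [integral_finsetSum]
    · refine Finset.sum_congr rfl fun j _ => ?_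
      rw [integral_const_mul]
      rfl
    · intro j _
      exact (mom_int ν j (hm j) s).const_mul _
  · intro t _
    refine integrable_finsetSum _ fun j _ => ?_
    exact (mom_int ν j (hm j) s).const_mul _

theorem act_eq_range (A : ℂ[X][X]) (f : ℝ → ℂ) (t : ℝ) (N : ℕ) (hN : A.natDegree ≤ N) :
    act A f t = ∑ j ∈ Finset.range (N + 1), (A.coeff j).eval (t : ℂ) * iteratedDeriv j f t := by
  unfold act
  exact Polynomial.sum_over_range' _ (fun n => by simp) (N + 1) (by omega)

theorem op_of (T : ℕ) (c : ℕ → ℝ[X]) (hne : ∃ t ≤ T, c t ≠ 0) :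
    ∃ L : ℂ[X][X], L ≠ 0 ∧ L.natDegree = (Finset.range (T + 1)).sup (fun t => (c t).natDegree) ∧
      ∀ (ν : Measure ℝ) [IsProbabilityMeasure ν], (∀ n : ℕ, Integrable (fun y : ℝ => y ^ n) ν) →
        ∀ s : ℝ, act L (charFun ν) s = ∫ y : ℝ, ∑ t ∈ Finset.range (T + 1),
          (((c t).eval y : ℝ) : ℂ) * (Complex.I * s) ^ t * Complex.exp (Complex.I * s * y) ∂ν := by
  set N : ℕ := (Finset.range (T + 1)).sup (fun t => (c t).natDegree) with hN
  have hcN : ∀ t ≤ T, (c t).natDegree ≤ N := fun t ht =>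
    Finset.le_sup (f := fun t => (c t).natDegree) (Finset.mem_range.2 (by omega))
  let L : ℂ[X][X] := ∑ t ∈ Finset.range (T + 1), ∑ j ∈ Finset.range (N + 1),
    monomial j (monomial t (((c t).coeff j : ℂ) * (-Complex.I) ^ j * Complex.I ^ t))
  have hcoeff : ∀ j t, t ≤ T →
      (L.coeff j).coeff t = ((c t).coeff j : ℂ) * (-Complex.I) ^ j * Complex.I ^ t := by
    intro j t ht
    simp only [L, finsetSum_coeff, coeff_monomial]
    rw [Finset.sum_eq_single t]
    · by_cases hj : j ≤ N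
      · rw [Finset.sum_eq_single j]
        · simp
        · intro b _ hb
          rw [if_neg hb, coeff_zero]
        · intro hb
          exact absurd (Finset.mem_range.2 (by omega)) hb
      · rw [Finset.sum_eq_zero]
        · have : (c t).coeff j = 0 := coeff_eq_zero_of_natDegree_lt (by have := hcN t ht; omega)
          rw [this]; simp
        · intro b hb
          have := Finset.mem_range.1 hb
          rw [if_neg (by omega), coeff_zero]
    · intro b _ hb
      refine Finset.sum_eq_zero fun i _ => ?_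
      by_cases hij : i = j
      · rw [if_pos hij, coeff_monomial, if_neg hb]
      · rw [if_neg hij, coeff_zero]
    · intro hb
      exact absurd (Finset.mem_range.2 (by omega)) hb
  have hdeg : L.natDegree ≤ N := by
    refine natDegree_sum_le_of_forall_le _ _ fun t _ => natDegree_sum_le_of_forall_le _ _ fun j hj => ?_
    exact (natDegree_monomial_le _).trans (by have := Finset.mem_range.1 hj; omega)
  obtain ⟨t₀, ht₀, h0, hd0⟩ : ∃ t₀ ≤ T, c t₀ ≠ 0 ∧ (c t₀).natDegree = N := by
    rcases Nat.eq_zero_or_pos N with h | h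
    · obtain ⟨t, ht, hct⟩ := hne
      exact ⟨t, ht, hct, by have := hcN t ht; omega⟩
    · obtain ⟨t, ht, hct⟩ := Finset.exists_mem_eq_sup (Finset.range (T + 1)) ⟨0, by simp⟩
        (fun t => (c t).natDegree)
      refine ⟨t, by have := Finset.mem_range.1 ht; omega, ?_, ?_⟩
      · intro h0
        rw [← hN] at hct
        simp [h0] at hct
        omega
      · rw [hN, hct]
  have hI : ∀ n : ℕ, (-Complex.I) ^ n ≠ 0 := fun n => pow_ne_zero _ (neg_ne_zero.2 Complex.I_ne_zero)
  have hlc : L.coeff N ≠ 0 := by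
    intro h
    have h1 := hcoeff N t₀ ht₀
    rw [h, coeff_zero] at h1
    have h2 : ((c t₀).coeff N : ℂ) ≠ 0 := by
      rw [← hd0]
      exact_mod_cast leadingCoeff_ne_zero.2 h0
    exact (mul_ne_zero (mul_ne_zero h2 (hI N)) (pow_ne_zero _ Complex.I_ne_zero)) h1.symm
  have hdegeq : L.natDegree = N := natDegree_eq_of_le_of_coeff_ne_zero hdeg hlc
  refine ⟨L, fun h => hlc (by rw [h, coeff_zero]), hdegeq, ?_⟩
  intro ν _ hm s
  rw [W_eq ν hm T N c hcN s]
  simp only [L, act_sum, act_monomial, eval_monomial]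
  refine Finset.sum_congr rfl fun t _ => Finset.sum_congr rfl fun j _ => ?_
  rw [deriv_eq ν j (hm j)]
  have h1 : (-Complex.I) ^ j * Complex.I ^ j = 1 := by
    rw [← mul_pow]; simp
  have h2 : (Complex.I * (s : ℂ)) ^ t = Complex.I ^ t * (s : ℂ) ^ t := mul_pow _ _ _
  rw [h2]
  linear_combination ((c t).coeff j : ℂ) * Complex.I ^ t * (s : ℂ) ^ t * mom ν j s * h1

theorem W_conj (ν : Measure ℝ) (T : ℕ) (c : ℕ → ℝ[X]) (s : ℝ) :
    (starRingEnd ℂ) (∫ y : ℝ, ∑ t ∈ Finset.range (T + 1),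
      (((c t).eval y : ℝ) : ℂ) * (Complex.I * ((-s : ℝ) : ℂ)) ^ t *
        Complex.exp (Complex.I * ((-s : ℝ) : ℂ) * y) ∂ν) =
    ∫ y : ℝ, ∑ t ∈ Finset.range (T + 1),
      (((c t).eval y : ℝ) : ℂ) * (Complex.I * s) ^ t * Complex.exp (Complex.I * s * y) ∂ν := by
  rw [← integral_conj]
  refine integral_congr_ae (Filter.Eventually.of_forall fun y => ?_)
  simp only [map_sum, map_mul, map_pow, Complex.conj_ofReal, Complex.conj_I, ← Complex.exp_conj]
  refine Finset.sum_congr rfl fun t _ => ?_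
  push_cast
  congr 2
  · ring
  · ring

theorem op_to (μ : Measure ℝ) [IsProbabilityMeasure μ]
    (hm : ∀ n : ℕ, Integrable (fun y : ℝ => y ^ n) μ) (B : ℂ[X][X]) (hB : B ≠ 0)
    (hBμ : ∀ s, act B (charFun μ) s = 0) :
    ∃ (T : ℕ) (c : ℕ → ℝ[X]), (∃ t ≤ T, c t ≠ 0) ∧ (∀ t ≤ T, (c t).natDegree ≤ B.natDegree) ∧
      ∀ s : ℝ, ∫ y : ℝ, ∑ t ∈ Finset.range (T + 1),
        (((c t).eval y : ℝ) : ℂ) * (Complex.I * s) ^ t * Complex.exp (Complex.I * s * y) ∂μ = 0 := by
  set N := B.natDegree with hN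
  set T : ℕ := (Finset.range (N + 1)).sup (fun j => (B.coeff j).natDegree) with hT
  have hTj : ∀ j ≤ N, (B.coeff j).natDegree ≤ T := fun j hj =>
    Finset.le_sup (f := fun j => (B.coeff j).natDegree) (Finset.mem_range.2 (by omega))
  let e : ℕ → ℕ → ℂ := fun j t => (B.coeff j).coeff t * Complex.I ^ j * (-Complex.I) ^ t
  let cA : ℕ → ℝ[X] := fun t => ∑ j ∈ Finset.range (N + 1), monomial j (e j t).re
  let cB : ℕ → ℝ[X] := fun t => ∑ j ∈ Finset.range (N + 1), monomial j (e j t).im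
  have hmono : ∀ (r : ℕ → ℝ) (j : ℕ), j ≤ N →
      (∑ i ∈ Finset.range (N + 1), monomial i (r i) : ℝ[X]).coeff j = r j := by
    intro r j hj
    simp only [finsetSum_coeff, coeff_monomial]
    rw [Finset.sum_eq_single j]
    · simp
    · intro b _ hb; rw [if_neg hb]
    · intro hb; exact absurd (Finset.mem_range.2 (by omega)) hb
  have hcA : ∀ t j, j ≤ N → (cA t).coeff j = (e j t).re := fun t j hj => hmono _ j hj
  have hcB : ∀ t j, j ≤ N → (cB t).coeff j = (e j t).im := fun t j hj => hmono _ j hj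
  have hdeg : ∀ (r : ℕ → ℝ), (∑ i ∈ Finset.range (N + 1), monomial i (r i) : ℝ[X]).natDegree ≤ N := by
    intro r
    refine natDegree_sum_le_of_forall_le _ _ fun j hj => ?_
    exact (natDegree_monomial_le _).trans (by have := Finset.mem_range.1 hj; omega)
  have hdA : ∀ t, (cA t).natDegree ≤ N := fun t => hdeg _
  have hdB : ∀ t, (cB t).natDegree ≤ N := fun t => hdeg _
  let F : ℝ → ℂ := fun s => ∫ y : ℝ, ∑ t ∈ Finset.range (T + 1),
        (((cA t).eval y : ℝ) : ℂ) * (Complex.I * s) ^ t * Complex.exp (Complex.I * s * y) ∂μ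
  let G : ℝ → ℂ := fun s => ∫ y : ℝ, ∑ t ∈ Finset.range (T + 1),
        (((cB t).eval y : ℝ) : ℂ) * (Complex.I * s) ^ t * Complex.exp (Complex.I * s * y) ∂μ
  have hFG : ∀ s, F s + Complex.I * G s = 0 := by
    intro s
    rw [← hBμ s, act_eq_range B _ s N le_rfl]
    simp only [F, G]
    rw [W_eq μ hm T N cA (fun t _ => hdA t) s, W_eq μ hm T N cB (fun t _ => hdB t) s,
      Finset.mul_sum, ← Finset.sum_add_distrib]
    have h1 : ∀ j ∈ Finset.range (N + 1), (B.coeff j).eval (s : ℂ) * iteratedDeriv j (charFun μ) s =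
        ∑ t ∈ Finset.range (T + 1), e j t * (Complex.I * s) ^ t * mom μ j s := by
      intro j hj
      have hj' : j ≤ N := by have := Finset.mem_range.1 hj; omega
      rw [deriv_eq μ j (hm j), Polynomial.eval_eq_sum_range' (Nat.lt_succ_of_le (hTj j hj')),
        Finset.sum_mul]
      refine Finset.sum_congr rfl fun t _ => ?_
      have h2 : (-Complex.I) ^ t * (Complex.I * (s : ℂ)) ^ t = (s : ℂ) ^ t := by
        rw [← mul_pow]; congr 1
        linear_combination (-(s : ℂ)) * Complex.I_mul_I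
      simp only [e]
      linear_combination (-((B.coeff j).coeff t * Complex.I ^ j * mom μ j s)) * h2
    rw [Finset.sum_congr rfl h1, Finset.sum_comm]
    refine Finset.sum_congr rfl fun t _ => ?_
    rw [Finset.mul_sum, ← Finset.sum_add_distrib]
    refine Finset.sum_congr rfl fun j hj => ?_
    have hj' : j ≤ N := by have := Finset.mem_range.1 hj; omega
    rw [hcA t j hj', hcB t j hj']
    have h3 := Complex.re_add_im (e j t)
    linear_combination ((Complex.I * (s : ℂ)) ^ t * mom μ j s) * h3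
  have hF : ∀ s, (starRingEnd ℂ) (F (-s)) = F s := fun s => W_conj μ T cA s
  have hG : ∀ s, (starRingEnd ℂ) (G (-s)) = G s := fun s => W_conj μ T cB s
  have hFG' : ∀ s, F s - Complex.I * G s = 0 := by
    intro s
    have h1 := congrArg (starRingEnd ℂ) (hFG (-s))
    rw [map_add, map_mul, Complex.conj_I, hF, hG, map_zero] at h1
    linear_combination h1
  have hF0 : ∀ s, F s = 0 := by
    intro s
    have h1 := hFG s
    have h2 := hFG' s
    linear_combination (1 / 2 : ℂ) * h1 + (1 / 2 : ℂ) * h2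
  have hG0 : ∀ s, G s = 0 := by
    intro s
    have h1 := hFG s
    rw [hF0 s, zero_add] at h1
    exact (mul_eq_zero.1 h1).resolve_left Complex.I_ne_zero
  have hlc : B.coeff N ≠ 0 := leadingCoeff_ne_zero.2 hB
  set t₀ := (B.coeff N).natDegree with ht₀
  have ht₀T : t₀ ≤ T := hTj N le_rfl
  have he : e N t₀ ≠ 0 := by
    have h1 : (B.coeff N).coeff t₀ ≠ 0 := leadingCoeff_ne_zero.2 hlc
    exact mul_ne_zero (mul_ne_zero h1 (pow_ne_zero _ Complex.I_ne_zero))
      (pow_ne_zero _ (neg_ne_zero.2 Complex.I_ne_zero))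
  by_cases hre : (e N t₀).re = 0
  · have him : (e N t₀).im ≠ 0 := fun him => he (Complex.ext hre him)
    refine ⟨T, cB, ⟨t₀, ht₀T, fun h0 => him ?_⟩, fun t _ => hdB t, hG0⟩
    rw [← hcB t₀ N le_rfl, h0, coeff_zero]
  · refine ⟨T, cA, ⟨t₀, ht₀T, fun h0 => hre ?_⟩, fun t _ => hdA t, hF0⟩
    rw [← hcA t₀ N le_rfl, h0, coeff_zero]

end Pool.Agent.H288.ST.K6
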