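import Pool.Agent.H288.ST.Red
import Pool.Agent.H288.ST.J1
import Pool.Agent.H288.ST.J2
import Pool.Agent.H288.ST.J3
import Pool.Agent.H288.ST.J4
import Pool.Agent.H288.ST.J6
import Pool.Agent.H288.ST.J7
import Pool.Agent.H288.ST.K2
import Pool.Agent.H288.ST.K3
import Pool.Agent.H288.ST.K4
import Pool.Agent.H288.ST.K5
import Pool.Agent.H288.ST.K6

set_option autoImplicit false

/-! The law of `H_p(X)` is determined by the operators annihilating its characteristic function. -/

open MeasureTheory ProbabilityTheory Polynomial Filter Topology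

namespace Pool.Agent.H288.ST

lemma sm_charFun (ν : Measure ℝ) [IsProbabilityMeasure ν]
    (hν : ∀ n : ℕ, Integrable (fun y : ℝ => y ^ n) ν) : Sm (charFun ν) := fun n =>
  contDiff_charFun (K6.memLp_of_pow ν n (hν n))

lemma Sm.sub' {f g : ℝ → ℂ} (hf : Sm f) (hg : Sm g) : Sm (fun t => f t - g t) :=
  fun n => (hf n).sub (hg n)

lemma iter_sub {f g : ℝ → ℂ} (hf : Sm f) (hg : Sm g) (n : ℕ) (t : ℝ) :
    iteratedDeriv n (fun t => f t - g t) t = iteratedDeriv n f t - iteratedDeriv n g t := by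
  have := iteratedDeriv_sub (n := n) (f := f) (g := g) (x := t) (hf n).contDiffAt
    (hg n).contDiffAt
  exact this

/-- decay of the iterates of `t d/dt` -/
lemma th_decay (h : ℝ → ℂ) (hh : Sm h) (F : ℝ → ℝ) (hF : ∀ t, 0 < t → t ≤ 1 → 0 ≤ F t)
    (hb : ∀ i : ℕ, ∃ C : ℝ, ∀ t : ℝ, 0 < t → t ≤ 1 → ‖iteratedDeriv i h t‖ ≤ C * F t) (j : ℕ) :
    ∀ i : ℕ, ∃ C : ℝ, ∀ t : ℝ, 0 < t → t ≤ 1 → ‖iteratedDeriv i (J7.th j h) t‖ ≤ C * F t := by
  induction j with
  | zero => exact hb
  | succ j ih =>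
    intro i
    obtain ⟨C1, h1⟩ := ih (i + 1)
    obtain ⟨C2, h2⟩ := ih i
    refine ⟨C1 + i * C2, fun t ht ht1 => ?_⟩
    have h3 := congrFun (J7.iter_theta (J7.Sm.th hh j) i) t
    change ‖iteratedDeriv i (fun t : ℝ => (t : ℂ) * deriv (J7.th j h) t) t‖ ≤ _
    rw [h3]
    have h4 : ‖(t : ℂ)‖ ≤ 1 := by
      rw [Complex.norm_real, Real.norm_eq_abs, abs_of_pos ht]; exact ht1
    calc ‖(t : ℂ) * iteratedDeriv (i + 1) (J7.th j h) t + i * iteratedDeriv i (J7.th j h) t‖
        ≤ ‖(t : ℂ)‖ * ‖iteratedDeriv (i + 1) (J7.th j h) t‖ +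
          ‖(i : ℂ)‖ * ‖iteratedDeriv i (J7.th j h) t‖ := by
          refine (norm_add_le _ _).trans ?_
          rw [norm_mul, norm_mul]
      _ ≤ 1 * ‖iteratedDeriv (i + 1) (J7.th j h) t‖ +
          i * ‖iteratedDeriv i (J7.th j h) t‖ := by
          rw [Complex.norm_natCast]
          gcongr
      _ ≤ (C1 + i * C2) * F t := by
          have h5 := h1 t ht ht1
          have h6 := h2 t ht ht1
          have h7 : (i : ℝ) * ‖iteratedDeriv i (J7.th j h) t‖ ≤ i * (C2 * F t) := by gcongr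
          nlinarith

/-- if `h` vanishes on `(0, t₁)` and every operator annihilating `φ` annihilates `h`, one of them
with leading coefficient a power of `t`, then `h = 0` on `(0, ∞)` -/
lemma propagate (h : ℝ → ℂ) (hh : Sm h) (M a : ℕ) (A : ℂ[X][X]) (hM : A.natDegree = M)
    (ha : A.coeff M = X ^ a) (hA : ∀ t, act A h t = 0) (t₁ : ℝ) (ht₁ : 0 < t₁)
    (h0 : ∀ t, 0 < t → t < t₁ → h t = 0) : ∀ t, 0 < t → h t = 0 := by
  have key := J6.ode_unique M (fun j t => -((A.coeff j).eval (t : ℂ)) / (t : ℂ) ^ a) (Set.Ioi 0)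
    isOpen_Ioi Set.ordConnected_Ioi (fun j _ => by
      refine ContinuousOn.div ?_ ?_ ?_
      · have : Continuous fun t : ℝ => -((A.coeff j).eval (t : ℂ)) := by fun_prop
        exact this.continuousOn
      · have : Continuous fun t : ℝ => (t : ℂ) ^ a := by fun_prop
        exact this.continuousOn
      · intro t ht
        exact pow_ne_zero _ (Complex.ofReal_ne_zero.2 (ne_of_gt ht))) h hh
    (fun t ht => by
      have ht0 : (t : ℂ) ≠ 0 := Complex.ofReal_ne_zero.2 (ne_of_gt ht)
      have h1 := hA t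
      rw [K6.act_eq_range A h t M hM.le, Finset.sum_range_succ, ha, eval_pow, eval_X] at h1
      have h2 : ∑ j ∈ Finset.range M, -((A.coeff j).eval (t : ℂ)) / (t : ℂ) ^ a *
          iteratedDeriv j h t = -(1 / (t : ℂ) ^ a) * ∑ j ∈ Finset.range M,
            (A.coeff j).eval (t : ℂ) * iteratedDeriv j h t := by
        rw [Finset.mul_sum]
        refine Finset.sum_congr rfl fun j _ => ?_
        ring
      rw [h2]
      have h3 : ∑ j ∈ Finset.range M, (A.coeff j).eval (t : ℂ) * iteratedDeriv j h t =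
          -((t : ℂ) ^ a * iteratedDeriv M h t) := by linear_combination h1
      rw [h3]
      field_simp) (t₁ / 2) (by simp [ht₁]) (fun j _ => by
      have h1 : h =ᶠ[𝓝 (t₁ / 2)] fun _ => (0 : ℂ) := by
        filter_upwards [Ioo_mem_nhds (a := (0 : ℝ)) (b := t₁) (by linarith) (by linarith)] with s hs
        exact h0 s hs.1 hs.2
      rw [h1.iteratedDeriv_eq j]
      simp)
  exact fun t ht => key t ht

/-- The heart of the matter, `p ≥ 3`: vanishing near `0`. -/
theorem near_zero (p : ℕ) (hp : 3 ≤ p) (ν : Measure ℝ) [IsProbabilityMeasure ν]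
    (hν : ∀ n : ℕ, Integrable (fun y : ℝ => y ^ n) ν)
    (htr : ∀ A : ℂ[X][X], (∀ t, act A (charFun (law p)) t = 0) →
      ∀ t, act A (fun t => charFun ν t - charFun (law p) t) t = 0) :
    ∀ t, 0 < t → charFun ν t - charFun (law p) t = 0 := by
  have hE : charFun (law p) = E p 1 := funext fun t => charFun_law p t
  have hμ := law_pow p
  have hsμ : Sm (charFun (law p)) := sm_charFun _ hμ
  have hsν : Sm (charFun ν) := sm_charFun _ hν
  set h : ℝ → ℂ := fun t => charFun ν t - charFun (law p) t with hh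
  have hsh : Sm h := Sm.sub' hsν hsμ
  obtain ⟨d, e, m, hde, hm, hpm, z, hz, hinj, hre, Q, hQ, hlam⟩ := K2.roots p hp
  have hd : 0 < d := Nat.pos_of_ne_zero (by rintro rfl; omega)
  have hdm : 1 ≤ d * m := Nat.mul_pos hd hm
  choose n c hn hrel hc using thred d e m p hde hm hpm
  rw [← hE] at hrel
  -- the scalar equation
  obtain ⟨g, gl, hgl, hroot, hg1, hsol⟩ := K3.detrel m (d * m) d hm hdm (charFun (law p)) hsμ
    (fun l => E p (X ^ (d * (l : ℕ)))) n c hn hrel z (fun i => z i ^ e / (p : ℂ))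
    (fun j i => hc j (z i) (hz i)) hinj Q hQ hlam
  have hsolφ := hsol _ hsμ fun A hA => hA
  have hsolh := hsol h hsh htr
  have hh0 : h 0 = 0 := by
    simp [hh, charFun_zero]
  -- flatness
  have hflat := J7.flat (m + 1) (d * m) (by omega) hdm g gl hgl hg1 (charFun (law p)) h hsμ hsh
    (by simp [charFun_zero]) hh0 hsolφ hsolh
  have hmom : ∀ k : ℕ, ∫ y, y ^ k ∂(law p) = ∫ y, y ^ k ∂ν := by
    intro k
    have h1 := hflat k
    rw [hh, iter_sub hsν hsμ, iteratedDeriv_charFun_zero (K6.memLp_of_pow ν k (hν k)),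
      iteratedDeriv_charFun_zero (K6.memLp_of_pow (law p) k (hμ k)), ← mul_sub] at h1
    rcases mul_eq_zero.1 h1 with h2 | h2
    · exact absurd h2 (pow_ne_zero _ Complex.I_ne_zero)
    · have h3 := sub_eq_zero.1 h2
      exact_mod_cast h3.symm
  -- decay
  set q : ℝ := (p : ℝ) - 2 with hq
  have hqdm : q = ((d * m : ℕ) : ℝ) := by rw [hq, hpm]; push_cast; ring
  have hq1 : 1 ≤ q := by rw [hqdm]; exact_mod_cast hdm
  have hq0 : 0 < q := by linarith
  set P : ℝ := (p : ℝ) ^ (-(p : ℝ) / q) with hP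
  obtain ⟨β, hβ1, hβ2⟩ : ∃ β : ℝ, (∀ i, q / 2 * (z i ^ e / (p : ℂ)).re < β) ∧ β < q / 2 * P := by
    obtain ⟨i₀, hi₀⟩ := Finite.exists_max fun i => (z i ^ e / (p : ℂ)).re
    refine ⟨q / 2 * (((z i₀ ^ e / (p : ℂ)).re + P) / 2), fun i => ?_, ?_⟩
    · have h1 := hi₀ i
      have h2 := hre i₀
      have h3 : (z i ^ e / (p : ℂ)).re < ((z i₀ ^ e / (p : ℂ)).re + P) / 2 := by
        linarith
      exact mul_lt_mul_of_pos_left h3 (by positivity)
    · have h2 := hre i₀
      have h3 : ((z i₀ ^ e / (p : ℂ)).re + P) / 2 < P := by linarith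
      exact mul_lt_mul_of_pos_left h3 (by positivity)
  have hb : ∀ i : ℕ, ∃ C : ℝ, ∀ t : ℝ, 0 < t → t ≤ 1 →
      ‖iteratedDeriv i h t‖ ≤ C * Real.exp (-β * t ^ (-(2 : ℝ) / q)) := by
    intro i
    obtain ⟨C, hC⟩ := J3.gevrey (law p) ν p hp (fun c hc => J4.law_exp p (by omega) c hc) hν hmom β
      hβ2 i
    refine ⟨C, fun t ht ht1 => ?_⟩
    rw [hh, iter_sub hsν hsμ, norm_sub_rev]
    exact hC t ht ht1
  have hthd : ∀ j : ℕ, ∃ C : ℝ, ∀ t : ℝ, 0 < t → t ≤ 1 →
      ‖J7.th j h t‖ ≤ C * Real.exp (-β * t ^ (-(2 : ℝ) / q)) := by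
    intro j
    obtain ⟨C, hC⟩ := th_decay h hsh (fun t => Real.exp (-β * t ^ (-(2 : ℝ) / q)))
      (fun t _ _ => (Real.exp_pos _).le) hb j 0
    exact ⟨C, fun t ht ht1 => by simpa using hC t ht ht1⟩
  choose Cj hCj using hthd
  -- the variable `s`
  set tt : ℝ → ℝ := fun s => s ^ (-(q / 2)) with htt
  have htpos : ∀ s, 0 < s → 0 < tt s := fun s hs => Real.rpow_pos_of_pos hs _
  have htle : ∀ s, 1 ≤ s → tt s ≤ 1 := fun s hs =>
    Real.rpow_le_one_of_one_le_of_nonpos hs (by linarith)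
  have hts : ∀ s, 0 < s → (tt s) ^ (-(2 : ℝ) / q) = s := by
    intro s hs
    rw [htt]
    simp only
    rw [← Real.rpow_mul hs.le]
    have : -(q / 2) * (-2 / q) = 1 := by field_simp
    rw [this, Real.rpow_one]
  have hτ : ∀ s, 0 < s → (s ^ (-(1 / 2) : ℝ)) ^ (d * m) = tt s := by
    intro s hs
    rw [htt, ← Real.rpow_natCast, ← Real.rpow_mul hs.le, ← hqdm]
    congr 1; ring
  have hτlim : Tendsto (fun s : ℝ => s ^ (-(1 / 2) : ℝ)) atTop (𝓝[>] 0) := by
    rw [tendsto_nhdsWithin_iff]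
    refine ⟨?_, ?_⟩
    · have := tendsto_rpow_neg_atTop (y := 1 / 2) (by norm_num)
      exact this
    · filter_upwards [eventually_gt_atTop 0] with s hs
      exact Real.rpow_pos_of_pos hs _
  set U : ℕ → ℝ → ℂ := fun j s => ((s : ℂ) ^ j)⁻¹ * J7.th j h (tt s) with hU
  have hrels : ∀ᶠ s : ℝ in atTop, U (m + 1) s = ∑ j : Fin (m + 1),
      g j (s ^ (-(1 / 2) : ℝ)) * U j s := by
    filter_upwards [hτlim.eventually hsolh, eventually_gt_atTop 0] with s hs hs0
    rw [hτ s hs0] at hs
    have hpw : ∀ j : ℕ, ((s ^ (-(1 / 2) : ℝ) : ℝ) : ℂ) ^ (2 * j) = ((s : ℂ) ^ j)⁻¹ := by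
      intro j
      have h1 : (s ^ (-(1 / 2) : ℝ)) ^ (2 * j) = (s ^ j)⁻¹ := by
        rw [← Real.rpow_natCast, ← Real.rpow_mul hs0.le, ← Real.rpow_natCast, ← Real.rpow_neg hs0.le]
        congr 1; push_cast; ring
      rw [← Complex.ofReal_pow, h1]; push_cast; rfl
    rw [hpw] at hs
    rw [hU]
    simp only
    rw [hs, Finset.sum_range]
    refine Finset.sum_congr rfl fun j _ => ?_
    rw [hpw]; ring
  obtain ⟨s₁, hs₁⟩ := eventually_atTop.1 hrels
  set s₀ : ℝ := max s₁ 1 with hs₀
  have hs01 : 1 ≤ s₀ := le_max_right _ _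
  have hder : ∀ s, s₀ ≤ s → ∀ j, j < m + 1 → HasDerivAt (U j)
      (-((q / 2 : ℝ) : ℂ) * U (j + 1) s - (((j : ℝ) / s : ℝ) : ℂ) * U j s) s := by
    intro s hs j _
    have hs0 : 0 < s := by linarith
    have hsc : (s : ℂ) ≠ 0 := Complex.ofReal_ne_zero.2 hs0.ne'
    have h1 : HasDerivAt tt (-(q / 2) * s ^ (-(q / 2) - 1)) s :=
      Real.hasDerivAt_rpow_const (Or.inl hs0.ne')
    have h2 : HasDerivAt (J7.th j h) (deriv (J7.th j h) (tt s)) (tt s) := by
      have h3 := (J7.Sm.th hsh j 1).differentiable (by norm_num)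
      exact (h3 _).hasDerivAt
    have h3 := h2.scomp s h1
    have h4 : HasDerivAt (fun s : ℝ => ((s : ℂ) ^ j)⁻¹) (-(j * (s : ℂ) ^ (j - 1)) / ((s : ℂ) ^ j) ^ 2)
        s := by
      have h5 : HasDerivAt (fun z : ℂ => z ^ j) (j * (s : ℂ) ^ (j - 1)) (s : ℂ) := hasDerivAt_pow j _
      exact (h5.inv (pow_ne_zero _ hsc)).comp_ofReal
    have h6 := h4.mul h3
    refine h6.congr_deriv ?_
    have h7 : s ^ (-(q / 2) - 1) = tt s / s := by
      rw [htt, Real.rpow_sub_one hs0.ne']
    rw [h7, hU]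
    simp only [Complex.real_smul, Function.comp]
    have h8 : J7.th (j + 1) h (tt s) = (tt s : ℂ) * deriv (J7.th j h) (tt s) := rfl
    rw [h8]
    push_cast
    rcases Nat.eq_zero_or_pos j with rfl | hj
    · simp only [Nat.cast_zero, zero_mul, neg_zero, zero_div, pow_zero, inv_one, one_mul, zero_add,
        pow_one, sub_zero]
      field_simp
    · obtain ⟨j', rfl⟩ : ∃ j', j = j' + 1 := ⟨j - 1, by omega⟩
      simp only [Nat.add_sub_cancel]
      field_simp
      ring
  have hgT : Tendsto (fun s : ℝ => fun j : Fin (m + 1) => g j (s ^ (-(1 / 2) : ℝ))) atTop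
      (𝓝 fun j : Fin (m + 1) => gl j) := by
    rw [tendsto_pi_nhds]
    intro j
    exact (hgl j j.2).comp hτlim
  obtain ⟨CC, hCC⟩ : ∃ CC : ℝ, ∀ j, j < m + 1 → |Cj j| ≤ CC :=
    ⟨∑ j ∈ Finset.range (m + 1), |Cj j|, fun j hj =>
      Finset.single_le_sum (f := fun j => |Cj j|) (fun i _ => abs_nonneg _) (Finset.mem_range.2 hj)⟩
  obtain ⟨s₂, hs₂⟩ := J2.growth (m + 1) (Nat.succ_pos m) (fun i => z i ^ e / (p : ℂ)) hinj
    (fun s j => g j (s ^ (-(1 / 2) : ℝ))) (fun j => gl j) hgT hroot (q / 2) (by linarith) U s₀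
    hder (fun s hs => hs₁ s ((le_max_left _ _).trans hs)) β CC hβ1 (fun s hs j hj => by
      have hs1 : 1 ≤ s := hs01.trans hs
      have hs0 : 0 < s := by linarith
      rw [hU]
      simp only
      rw [norm_mul, norm_inv, norm_pow, Complex.norm_real, Real.norm_eq_abs, abs_of_pos hs0]
      have h1 := hCj j (tt s) (htpos s hs0) (htle s hs1)
      rw [hts s hs0] at h1
      have h2 : (s ^ j)⁻¹ ≤ 1 := inv_le_one_of_one_le₀ (one_le_pow₀ hs1)
      calc (s ^ j)⁻¹ * ‖J7.th j h (tt s)‖ ≤ 1 * ‖J7.th j h (tt s)‖ := by gcongr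
        _ ≤ Cj j * Real.exp (-β * s) := by rw [one_mul]; exact h1
        _ ≤ CC * Real.exp (-β * s) := by
          gcongr
          exact (le_abs_self _).trans (hCC j hj))
  -- `h` vanishes near `0`
  set s₃ : ℝ := max s₂ 1 with hs₃
  have hs31 : 1 ≤ s₃ := le_max_right _ _
  have hnear : ∀ t, 0 < t → t < tt s₃ → h t = 0 := by
    intro t ht htt₃
    set s : ℝ := t ^ (-(2 : ℝ) / q) with hs
    have hs0 : 0 < s := Real.rpow_pos_of_pos ht _
    have hst : tt s = t := by
      rw [htt, hs]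
      simp only
      rw [← Real.rpow_mul ht.le]
      have : -2 / q * -(q / 2) = 1 := by field_simp
      rw [this, Real.rpow_one]
    have hle : s₃ ≤ s := by
      by_contra hlt
      rw [not_le] at hlt
      have : tt s₃ ≤ tt s := by
        rw [htt]
        exact Real.rpow_le_rpow_of_nonpos hs0 hlt.le (by linarith)
      rw [hst] at this
      linarith
    have h1 := hs₂ s ((le_max_left _ _).trans hle)
    rw [hU] at h1
    simp only [pow_zero, inv_one, one_mul, hst] at h1
    exact h1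
  -- propagation
  obtain ⟨M, a, A, hAM, hAa, hAφ⟩ := K4.noeth (m + 1) (charFun (law p)) hsμ
    (fun l => E p (X ^ (d * (l : ℕ)))) n (fun j l => (hn j l).1) hrel
  exact propagate h hsh M a A hAM hAa (htr A hAφ) (tt s₃) (htpos _ (by linarith)) hnear

/-- `p = 1, 2`: a first order operator with leading coefficient without real zeros -/
lemma low_ann (p : ℕ) (hp : 1 ≤ p) (hlt : p < 3) :
    ∃ u v : ℂ[X], (∀ t : ℝ, u.eval (t : ℂ) ≠ 0) ∧
      ∀ t, act (monomial 1 u + monomial 0 v) (charFun (law p)) t = 0 := by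
  have hE : charFun (law p) = E p 1 := funext fun t => charFun_law p t
  rcases (by omega : p = 1 ∨ p = 2) with rfl | rfl
  · refine ⟨1, X, fun t => by simp, fun t => ?_⟩
    rw [act_add, act_monomial, act_monomial, iteratedDeriv_one, iteratedDeriv_zero, hE,
      (E_hasDerivAt 1 1 t).deriv]
    have h1 : HC 1 = X := by unfold HC; simp [hermite_one]
    have h2 := E_ibp 1 1 t
    rw [h1] at h2 ⊢
    simp only [mul_one, derivative_one, sub_zero, derivative_X, one_mul] at h2 ⊢
    rw [h2]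
    simp only [eval_one, eval_X]
    linear_combination (t : ℂ) * E 1 1 t * Complex.I_mul_I
  · refine ⟨1 - C (2 * Complex.I) * X, C 2 * X, fun t => ?_, fun t => ?_⟩
    · simp only [eval_sub, eval_one, eval_mul, eval_C, eval_X]
      intro h0
      have := congrArg Complex.re h0
      simp at this
    · rw [act_add, act_monomial, act_monomial, iteratedDeriv_one, iteratedDeriv_zero, hE,
        (E_hasDerivAt 2 1 t).deriv]
      have h1 : HC 2 = X ^ 2 - 1 := by
        unfold HC
        rw [hermite_succ, hermite_one]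
        simp [pow_two]
      have h2 := E_ibp 2 X t
      have h3 : derivative (HC 2) = C 2 * X := by
        rw [h1, derivative_sub, derivative_one, sub_zero, derivative_X_pow]; simp
      rw [h3] at h2
      have h4 : (X : ℂ[X]) * X - derivative X = X ^ 2 - 1 := by rw [derivative_X]; ring
      have h5 : (X : ℂ[X]) * (C 2 * X) = C 2 * X ^ 2 := by ring
      rw [h4, h5, E_smul, E_sub] at h2
      rw [h1, one_mul, E_sub]
      simp only [eval_sub, eval_one, eval_mul, eval_C, eval_X]
      have h6 : E 2 (X ^ 2) t * (1 - 2 * Complex.I * t) = E 2 1 t := by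
        linear_combination h2
      linear_combination Complex.I * h6 + 2 * (t : ℂ) * E 2 1 t * Complex.I_mul_I

/-- there are non-zero operators annihilating the characteristic function -/
lemma exists_ann (p : ℕ) (hp : 1 ≤ p) :
    ∃ B : ℂ[X][X], B ≠ 0 ∧ ∀ s, act B (charFun (law p)) s = 0 := by
  rcases Nat.lt_or_ge p 3 with hlt | hge
  · obtain ⟨u, v, huv, hA⟩ := low_ann p hp hlt
    refine ⟨_, ?_, hA⟩
    intro h0
    have h1 := congrArg (fun A : ℂ[X][X] => A.coeff 1) h0
    simp only [coeff_add, coeff_monomial, if_true, coeff_zero, zero_ne_one, if_false, add_zero] at h1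
    exact huv 0 (by rw [h1]; simp)
  · obtain ⟨d, e, m, hde, hm, hpm, -⟩ := K2.roots p hge
    choose n c hn hrel hc using thred d e m p hde hm hpm
    have hE : charFun (law p) = E p 1 := funext fun t => charFun_law p t
    rw [← hE] at hrel
    obtain ⟨M, a, A, hAM, hAa, hAφ⟩ := K4.noeth (m + 1) (charFun (law p))
      (sm_charFun _ (law_pow p)) (fun l => E p (X ^ (d * (l : ℕ)))) n (fun j l => (hn j l).1) hrel
    refine ⟨A, ?_, hAφ⟩
    rintro rfl
    rw [coeff_zero] at hAa
    exact pow_ne_zero a X_ne_zero hAa.symm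

/-- determination of the law -/
theorem key (p : ℕ) (hp : 1 ≤ p) (ν : Measure ℝ) [IsProbabilityMeasure ν]
    (hν : ∀ n : ℕ, Integrable (fun y : ℝ => y ^ n) ν)
    (htr : ∀ A : ℂ[X][X], (∀ t, act A (charFun (law p)) t = 0) →
      ∀ t, act A (fun t => charFun ν t - charFun (law p) t) t = 0) : ν = law p := by
  have hE : charFun (law p) = E p 1 := funext fun t => charFun_law p t
  have hμ := law_pow p
  have hsμ : Sm (charFun (law p)) := sm_charFun _ hμ
  have hsν : Sm (charFun ν) := sm_charFun _ hν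
  have hsh : Sm (fun t => charFun ν t - charFun (law p) t) := Sm.sub' hsν hsμ
  have hpos : ∀ t, 0 < t → charFun ν t - charFun (law p) t = 0 := by
    rcases Nat.lt_or_ge p 3 with hlt | hge
    · -- a first order operator with leading coefficient without real zeros
      obtain ⟨u, v, huv, hA⟩ := low_ann p hp hlt
      have hB := htr _ hA
      have key := J6.ode_unique 1 (fun _ t => -(v.eval (t : ℂ)) / u.eval (t : ℂ)) Set.univ
        isOpen_univ Set.ordConnected_univ (fun j _ => by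
          refine Continuous.continuousOn ?_
          refine Continuous.div ?_ ?_ huv
          · fun_prop
          · fun_prop) _ hsh
        (fun t _ => by
          have h1 := hB t
          rw [act_add, act_monomial, act_monomial] at h1
          rw [Finset.sum_range_one, eq_comm, div_mul_eq_mul_div, div_eq_iff (huv t)]
          linear_combination -h1) 0 (Set.mem_univ _) (fun j hj => by
          have : j = 0 := by omega
          subst this
          simp [charFun_zero])
      exact fun t _ => key t (Set.mem_univ _)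
    · exact near_zero p hge ν hν htr
  refine Measure.ext_of_charFun (funext fun t => ?_)
  rcases lt_trichotomy t 0 with h | h | h
  · have h1 := hpos (-t) (by linarith)
    rw [charFun_neg, charFun_neg, ← map_sub] at h1
    have h2 := (map_eq_zero_iff _ (starRingEnd ℂ).injective).1 h1
    exact sub_eq_zero.1 h2
  · subst h; simp [charFun_zero]
  · exact sub_eq_zero.1 (hpos t h)

end Pool.Agent.H288.ST
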