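import Pool.Agent.H288.ST.Graded
import Pool.Agent.H288.ST.Gauss
import Pool.Agent.H288.ST.J7

set_option autoImplicit false

/-! Reduction of all `E[X^{dk} exp(itH_p(X))]` to finitely many, and of `θ^j φ`. -/

open Polynomial Filter Topology

namespace Pool.Agent.H288.ST

/-- a polynomial with only every other coefficient -/
lemma decomp (f : ℂ[X]) (n : ℕ) (h1 : f.natDegree ≤ n)
    (h2 : ∀ k, k ≤ n → Odd (n - k) → f.coeff k = 0) :
    f = ∑ i ∈ Finset.range (n / 2 + 1), C (f.coeff (n - 2 * i)) * X ^ (n - 2 * i) := by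
  ext k
  rw [finset_sum_coeff]
  simp only [coeff_C_mul, coeff_X_pow, mul_ite, mul_one, mul_zero]
  by_cases hk : k ≤ n
  · rcases Nat.even_or_odd (n - k) with he | ho
    · obtain ⟨i, hi⟩ := he
      have hki : k = n - 2 * i := by omega
      rw [Finset.sum_eq_single i]
      · rw [if_pos hki, ← hki]
      · intro j hj hji
        rw [Finset.mem_range] at hj
        rw [if_neg]
        intro h
        apply hji
        omega
      · intro h
        exfalso; apply h
        rw [Finset.mem_range]; omega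
    · rw [h2 k hk ho]
      symm
      refine Finset.sum_eq_zero fun j hj => ?_
      rw [Finset.mem_range] at hj
      split_ifs with h
      · rw [← h]; exact h2 k hk ho
      · rfl
  · rw [coeff_eq_zero_of_natDegree_lt (by omega)]
    symm
    refine Finset.sum_eq_zero fun j hj => ?_
    rw [if_neg]; omega

lemma HC_natDegree (p : ℕ) : (HC p).natDegree = p := by
  unfold HC
  rw [natDegree_map_eq_of_injective (RingHom.injective_int _), natDegree_hermite]

lemma HC_lead (p : ℕ) : (HC p).coeff p = 1 := by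
  unfold HC
  rw [coeff_map, coeff_hermite_self]; simp

lemma HC_odd (p k : ℕ) (h : Odd (p + k)) : (HC p).coeff k = 0 := by
  unfold HC
  rw [coeff_map, coeff_hermite_of_odd_add h]; simp

lemma HC_decomp (p : ℕ) :
    HC p = ∑ i ∈ Finset.range (p / 2 + 1), C ((HC p).coeff (p - 2 * i)) * X ^ (p - 2 * i) :=
  decomp _ _ (HC_natDegree p).le fun k hk ho => HC_odd p k (by
    obtain ⟨j, hj⟩ := ho
    exact ⟨j + k, by omega⟩)

lemma dHC_decomp (p : ℕ) (hp : 1 ≤ p) :
    derivative (HC p) = ∑ i ∈ Finset.range ((p - 1) / 2 + 1),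
      C ((derivative (HC p)).coeff (p - 1 - 2 * i)) * X ^ (p - 1 - 2 * i) := by
  refine decomp _ _ ?_ fun k hk ho => ?_
  · have := natDegree_derivative_le (HC p)
    rwa [HC_natDegree] at this
  · rw [coeff_derivative, HC_odd p (k + 1), zero_mul]
    obtain ⟨j, hj⟩ := ho
    exact ⟨j + k + 1, by omega⟩

lemma dHC_lead (p : ℕ) (hp : 1 ≤ p) : (derivative (HC p)).coeff (p - 1) = p := by
  rw [coeff_derivative, Nat.sub_add_cancel hp, HC_lead, one_mul]
  have : ((p - 1 : ℕ) : ℂ) = (p : ℂ) - 1 := by rw [Nat.cast_sub hp]; simp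
  rw [this]; ring

section rel
variable (d e m p : ℕ) (hde : d * e = 2) (hm : 1 ≤ m) (hp : p = d * m + 2)
include hde hm hp

/-- (R2) -/
lemma R2 (k : ℕ) (t : ℝ) : (t : ℂ) * deriv (E p (X ^ (d * k))) t =
    ∑ i ∈ Finset.range (p / 2 + 1), Complex.I * t * (HC p).coeff (p - 2 * i) *
      E p (X ^ (d * (k + m + e - e * i))) t := by
  have hd : 0 < d := Nat.pos_of_ne_zero (by rintro rfl; omega)
  rw [(E_hasDerivAt p (X ^ (d * k)) t).deriv]
  have h1 : X ^ (d * k) * HC p = ∑ i ∈ Finset.range (p / 2 + 1),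
      C ((HC p).coeff (p - 2 * i)) * X ^ (d * (k + m + e - e * i)) := by
    conv_lhs => rw [HC_decomp p]
    rw [Finset.mul_sum]
    refine Finset.sum_congr rfl fun i hi => ?_
    rw [Finset.mem_range] at hi
    have h2 : e * i ≤ m + e := by
      refine Nat.le_of_mul_le_mul_left ?_ hd
      have : d * (e * i) = 2 * i := by rw [← mul_assoc, hde]
      have h3 : d * (m + e) = d * m + 2 := by rw [mul_add, hde]
      omega
    have h3 : d * (k + m + e - e * i) = d * k + (p - 2 * i) := by
      have h4 : d * (k + m + e - e * i) + d * (e * i) = d * (k + m + e) := by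
        rw [← mul_add]; congr 1; omega
      have h5 : d * (e * i) = 2 * i := by rw [← mul_assoc, hde]
      have h6 : d * (k + m + e) = d * k + (d * m + 2) := by rw [mul_add, mul_add, hde]; ring
      omega
    rw [h3, pow_add]; ring
  rw [h1, E_sum, Finset.mul_sum, Finset.mul_sum]
  refine Finset.sum_congr rfl fun i _ => ?_
  rw [E_smul]; ring

/-- (R1) -/
lemma R1 (k : ℕ) (t : ℝ) : E p (X ^ (d * (k + 1))) t -
      ((d * k + d - 1 : ℕ) : ℂ) * E p (X ^ (d * (k + 1 - e))) t =
    ∑ i ∈ Finset.range ((p - 1) / 2 + 1),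
      Complex.I * t * (derivative (HC p)).coeff (p - 1 - 2 * i) *
      E p (X ^ (d * (k + m + 1 - e * i))) t := by
  have hd : 0 < d := Nat.pos_of_ne_zero (by rintro rfl; omega)
  have he : 0 < e := Nat.pos_of_ne_zero (by rintro rfl; omega)
  have h0 := E_ibp p (X ^ (d * k + d - 1)) t
  have h1 : X ^ (d * k + d - 1) * derivative (HC p) = ∑ i ∈ Finset.range ((p - 1) / 2 + 1),
      C ((derivative (HC p)).coeff (p - 1 - 2 * i)) * X ^ (d * (k + m + 1 - e * i)) := by
    conv_lhs => rw [dHC_decomp p (by omega)]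
    rw [Finset.mul_sum]
    refine Finset.sum_congr rfl fun i hi => ?_
    rw [Finset.mem_range] at hi
    have h5 : d * (e * i) = 2 * i := by rw [← mul_assoc, hde]
    have h2 : e * i ≤ m + 1 := by
      refine Nat.le_of_mul_le_mul_left ?_ hd
      have h3 : d * (m + 1) = d * m + d := by ring
      omega
    have h3 : d * (k + m + 1 - e * i) = d * k + d - 1 + (p - 1 - 2 * i) := by
      have h4 : d * (k + m + 1 - e * i) + d * (e * i) = d * (k + m + 1) := by
        rw [← mul_add]; congr 1; omega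
      have h6 : d * (k + m + 1) = d * k + d * m + d := by ring
      omega
    rw [h3, pow_add]; ring
  have h2 : (X : ℂ[X]) * X ^ (d * k + d - 1) = X ^ (d * (k + 1)) := by
    rw [← pow_succ']
    congr 1
    have : d * (k + 1) = d * k + d := by ring
    omega
  have h3 : derivative ((X : ℂ[X]) ^ (d * k + d - 1)) =
      C ((d * k + d - 1 : ℕ) : ℂ) * X ^ (d * (k + 1 - e)) := by
    rw [derivative_X_pow]
    rcases Nat.lt_or_ge (k + 1) e with h | h
    · -- then `d = 1`, `e = 2`, `k = 0`
      have hk : k + 1 < e := h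
      have he2 : e ≤ 2 := by
        calc e ≤ d * e := Nat.le_mul_of_pos_left e hd
          _ = 2 := hde
      have hd1 : d = 1 := by
        have : e = 2 := by omega
        rw [this] at hde; omega
      have hk0 : k = 0 := by omega
      subst hd1; subst hk0
      simp
    · congr 2
      have h4 : d * (k + 1 - e) + d * e = d * (k + 1) := by
        rw [← mul_add]; congr 1; omega
      have h6 : d * (k + 1) = d * k + d := by ring
      omega
  rw [h2, h3, h1, E_sub, E_smul, E_sum, Finset.mul_sum] at h0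
  rw [h0]
  refine Finset.sum_congr rfl fun i _ => ?_
  rw [E_smul]; ring

/-- (4a) -/
theorem red (k : ℕ) :
    ∃ (ρ : Fin (m + 1) → ℝ → ℂ) (c : Fin (m + 1) → ℂ),
      (∀ l, Gr (d * m) (ρ l) ((d : ℤ) * (((l : ℕ) : ℤ) - (k : ℤ))) (c l)) ∧
      (∀ t : ℝ, t ≠ 0 → E p (X ^ (d * k)) t = ∑ l, ρ l t * E p (X ^ (d * (l : ℕ))) t) ∧
      ∀ z : ℂ, Complex.I * p * z ^ (m + 1) = z → ∑ l, c l * z ^ (l : ℕ) = z ^ k := by
  have hd : 0 < d := Nat.pos_of_ne_zero (by rintro rfl; omega)
  have he : 0 < e := Nat.pos_of_ne_zero (by rintro rfl; omega)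
  have hdm : 1 ≤ d * m := Nat.mul_pos hd hm
  have hp0 : (p : ℂ) ≠ 0 := by exact_mod_cast (by omega : p ≠ 0)
  have hIp : Complex.I * (p : ℂ) ≠ 0 := mul_ne_zero Complex.I_ne_zero hp0
  induction k using Nat.strong_induction_on with
  | _ k ih =>
  rcases Nat.lt_or_ge k (m + 1) with hk | hk
  · refine ⟨fun l _ => if (l : ℕ) = k then 1 else 0, fun l => if (l : ℕ) = k then 1 else 0,
      fun l => ?_, fun t _ => ?_, fun z _ => ?_⟩
    · by_cases h : (l : ℕ) = k
      · simp only [h, if_true, sub_self, mul_zero]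
        exact Gr.const 1
      · simp only [h, if_false]
        exact Gr.zero _
    · rw [Finset.sum_eq_single ⟨k, hk⟩]
      · simp
      · intro l _ hl
        have hne : ¬ ((l : ℕ) = k) := fun h => hl (Fin.ext h)
        simp [hne]
      · intro h; exact absurd (Finset.mem_univ _) h
    · rw [Finset.sum_eq_single ⟨k, hk⟩]
      · simp
      · intro l _ hl
        have hne : ¬ ((l : ℕ) = k) := fun h => hl (Fin.ext h)
        simp [hne]
      · intro h; exact absurd (Finset.mem_univ _) h
  · obtain ⟨k', rfl⟩ : ∃ k', k = k' + m + 1 := ⟨k - m - 1, by omega⟩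
    choose! ρ c hG hE hz using ih
    set α : ℕ → ℂ := fun i => (derivative (HC p)).coeff (p - 1 - 2 * i) with hα
    have hα0 : α 0 = p := by
      rw [hα]; simpa using dHC_lead p (by omega)
    set s := (p - 1) / 2 with hs
    have hei : ∀ i, i < s → e * (i + 1) ≤ m + 1 := by
      intro i hi
      refine Nat.le_of_mul_le_mul_left ?_ hd
      have h5 : d * (e * (i + 1)) = 2 * (i + 1) := by rw [← mul_assoc, hde]
      have h3 : d * (m + 1) = d * m + d := by ring
      omega
    have hlt1 : k' + 1 < k' + m + 1 := by omega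
    have hlt2 : k' + 1 - e < k' + m + 1 := by omega
    have hlt3 : ∀ i, k' + m + 1 - e * (i + 1) < k' + m + 1 := by
      intro i
      have : 0 < e * (i + 1) := Nat.mul_pos he (Nat.succ_pos i)
      omega
    refine ⟨fun l t => (1 / (Complex.I * p)) * ((t : ℂ)⁻¹ * ρ (k' + 1) l t) +
        ((-((d * k' + d - 1 : ℕ) : ℂ) / (Complex.I * p)) * ((t : ℂ)⁻¹ * ρ (k' + 1 - e) l t) +
        ∑ i ∈ Finset.range s, (-(α (i + 1)) / p) * ρ (k' + m + 1 - e * (i + 1)) l t),
      fun l => (1 / (Complex.I * p)) * c (k' + 1) l, fun l => ?_, fun t ht => ?_, fun z hzz => ?_⟩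
    · -- grading
      have g1 : Gr (d * m) (fun t : ℝ => (1 / (Complex.I * p)) * ((t : ℂ)⁻¹ * ρ (k' + 1) l t))
          ((d : ℤ) * (((l : ℕ) : ℤ) - ((k' + m + 1 : ℕ) : ℤ)))
          ((1 / (Complex.I * p)) * c (k' + 1) l) := by
        have := ((Gr.inv hdm).mul (hG (k' + 1) hlt1 l)).cmul (1 / (Complex.I * p))
        have e1 : -((d * m : ℕ) : ℤ) + (d : ℤ) * (((l : ℕ) : ℤ) - ((k' + 1 : ℕ) : ℤ)) =
            (d : ℤ) * (((l : ℕ) : ℤ) - ((k' + m + 1 : ℕ) : ℤ)) := by push_cast; ring
        rw [e1, one_mul] at this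
        exact this
      have g2 : Gr (d * m) (fun t : ℝ => (-((d * k' + d - 1 : ℕ) : ℂ) / (Complex.I * p)) *
          ((t : ℂ)⁻¹ * ρ (k' + 1 - e) l t))
          ((d : ℤ) * (((l : ℕ) : ℤ) - ((k' + m + 1 : ℕ) : ℤ))) 0 := by
        rcases Nat.lt_or_ge (k' + 1) e with h | h
        · have he2 : e ≤ 2 := by
            calc e ≤ d * e := Nat.le_mul_of_pos_left e hd
              _ = 2 := hde
          have hd1 : d = 1 := by
            have : e = 2 := by omega
            rw [this] at hde; omega
          have hk0 : k' = 0 := by omega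
          have e1 : d * k' + d - 1 = 0 := by rw [hk0, hd1]
          refine (Gr.zero (q := d * m) _).congr fun t => ?_
          rw [e1]; simp
        · have := (((Gr.inv hdm).mul (hG (k' + 1 - e) hlt2 l)).shift).cmul
            (-((d * k' + d - 1 : ℕ) : ℂ) / (Complex.I * p))
          have e2 : ((k' + 1 - e : ℕ) : ℤ) = (k' : ℤ) + 1 - e := by
            rw [Nat.cast_sub h]; push_cast; ring
          have e3 : (d : ℤ) * (e : ℤ) = 2 := by exact_mod_cast hde
          have e1 : -((d * m : ℕ) : ℤ) + (d : ℤ) * (((l : ℕ) : ℤ) - ((k' + 1 - e : ℕ) : ℤ)) - 2 =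
              (d : ℤ) * (((l : ℕ) : ℤ) - ((k' + m + 1 : ℕ) : ℤ)) := by
            rw [e2]; push_cast; linear_combination e3
          rw [e1, mul_zero] at this
          exact this
      have g3 : Gr (d * m) (fun t : ℝ => ∑ i ∈ Finset.range s,
          (-(α (i + 1)) / p) * ρ (k' + m + 1 - e * (i + 1)) l t)
          ((d : ℤ) * (((l : ℕ) : ℤ) - ((k' + m + 1 : ℕ) : ℤ))) 0 := by
        have h := Gr.sum (q := d * m) (a := (d : ℤ) * (((l : ℕ) : ℤ) - ((k' + m + 1 : ℕ) : ℤ)))
          (Finset.range s)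
          (F := fun i t => (-(α (i + 1)) / p) * ρ (k' + m + 1 - e * (i + 1)) l t)
          (C := fun _ => 0) (fun i hi => by
            rw [Finset.mem_range] at hi
            have := ((hG _ (hlt3 i) l).shiftn (i + 1) (by omega)).cmul (-(α (i + 1)) / p)
            have e2 : ((k' + m + 1 - e * (i + 1) : ℕ) : ℤ) = (k' : ℤ) + m + 1 - e * (i + 1) := by
              rw [Nat.cast_sub (by have := hei i hi; omega)]; push_cast; ring
            have e3 : (d : ℤ) * (e : ℤ) = 2 := by exact_mod_cast hde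
            have e1 : (d : ℤ) * (((l : ℕ) : ℤ) - ((k' + m + 1 - e * (i + 1) : ℕ) : ℤ)) -
                2 * ((i + 1 : ℕ) : ℤ) =
                (d : ℤ) * (((l : ℕ) : ℤ) - ((k' + m + 1 : ℕ) : ℤ)) := by
              rw [e2]; push_cast; linear_combination ((i : ℤ) + 1) * e3
            rw [e1, mul_zero] at this
            exact this)
        rw [Finset.sum_const_zero] at h
        exact h
      have := g1.add (g2.add g3)
      rwa [add_zero, add_zero] at this
    · -- the equation
      have ht0 : (t : ℂ) ≠ 0 := Complex.ofReal_ne_zero.2 ht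
      have hR := R1 d e m p hde hm hp k' t
      rw [Finset.sum_range_succ'] at hR
      simp only [mul_zero, Nat.sub_zero] at hR
      have hα0' : (derivative (HC p)).coeff (p - 1) = p := dHC_lead p (by omega)
      rw [hα0'] at hR
      have hsol : E p (X ^ (d * (k' + m + 1))) t =
          (1 / (Complex.I * p)) * ((t : ℂ)⁻¹ * E p (X ^ (d * (k' + 1))) t) +
          ((-((d * k' + d - 1 : ℕ) : ℂ) / (Complex.I * p)) *
            ((t : ℂ)⁻¹ * E p (X ^ (d * (k' + 1 - e))) t) +
          ∑ i ∈ Finset.range s, (-(α (i + 1)) / p) *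
            E p (X ^ (d * (k' + m + 1 - e * (i + 1)))) t) := by
        have h1 : ∑ i ∈ Finset.range s, (-(α (i + 1)) / p) *
            E p (X ^ (d * (k' + m + 1 - e * (i + 1)))) t =
            -(1 / (Complex.I * t * p)) * ∑ i ∈ Finset.range s, Complex.I * t *
              (derivative (HC p)).coeff (p - 1 - 2 * (i + 1)) *
                E p (X ^ (d * (k' + m + 1 - e * (i + 1)))) t := by
          rw [Finset.mul_sum]
          refine Finset.sum_congr rfl fun i _ => ?_
          rw [hα]
          field_simp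
        rw [h1]
        have h2 : ∑ i ∈ Finset.range s, Complex.I * t *
              (derivative (HC p)).coeff (p - 1 - 2 * (i + 1)) *
                E p (X ^ (d * (k' + m + 1 - e * (i + 1)))) t =
            E p (X ^ (d * (k' + 1))) t - ((d * k' + d - 1 : ℕ) : ℂ) *
              E p (X ^ (d * (k' + 1 - e))) t -
            Complex.I * t * p * E p (X ^ (d * (k' + m + 1))) t := by
          rw [hR]; ring
        rw [h2]
        field_simp
        ring
      rw [hsol, hE (k' + 1) hlt1 t ht, hE (k' + 1 - e) hlt2 t ht]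
      have h3 : ∑ i ∈ Finset.range s, (-(α (i + 1)) / p) *
            E p (X ^ (d * (k' + m + 1 - e * (i + 1)))) t =
          ∑ l, (∑ i ∈ Finset.range s, (-(α (i + 1)) / p) *
            ρ (k' + m + 1 - e * (i + 1)) l t) * E p (X ^ (d * (l : ℕ))) t := by
        simp_rw [Finset.sum_mul]
        rw [Finset.sum_comm]
        refine Finset.sum_congr rfl fun i _ => ?_
        rw [hE _ (hlt3 i) t ht, Finset.mul_sum]
        refine Finset.sum_congr rfl fun l _ => ?_
        ring
      rw [h3, Finset.mul_sum, Finset.mul_sum, Finset.mul_sum, Finset.mul_sum,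
        ← Finset.sum_add_distrib, ← Finset.sum_add_distrib]
      refine Finset.sum_congr rfl fun l _ => ?_
      ring
    · have h1 : ∑ l, 1 / (Complex.I * ↑p) * c (k' + 1) l * z ^ (l : ℕ) =
          (1 / (Complex.I * p)) * ∑ l, c (k' + 1) l * z ^ (l : ℕ) := by
        rw [Finset.mul_sum]
        refine Finset.sum_congr rfl fun l _ => ?_
        ring
      rw [h1, hz (k' + 1) hlt1 z hzz, one_div, inv_mul_eq_iff_eq_mul₀ hIp]
      calc z ^ (k' + 1) = z ^ k' * z := pow_succ _ _
        _ = z ^ k' * (Complex.I * p * z ^ (m + 1)) := by rw [hzz]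
        _ = Complex.I * p * z ^ (k' + m + 1) := by rw [add_assoc, pow_add]; ring

/-- (4b) -/
theorem thred (j : ℕ) :
    ∃ (n : Fin (m + 1) → ℝ → ℂ) (c : Fin (m + 1) → ℂ),
      (∀ l, Gr (d * m) (n l) ((d : ℤ) * ((l : ℕ) : ℤ) - 2 * (j : ℤ)) (c l)) ∧
      (∀ t : ℝ, t ≠ 0 → J7.th j (E p 1) t = ∑ l, n l t * E p (X ^ (d * (l : ℕ))) t) ∧
      ∀ z : ℂ, Complex.I * p * z ^ (m + 1) = z →
        ∑ l, c l * z ^ (l : ℕ) = (z ^ e / (p : ℂ)) ^ j := by
  have hd : 0 < d := Nat.pos_of_ne_zero (by rintro rfl; omega)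
  have he : 0 < e := Nat.pos_of_ne_zero (by rintro rfl; omega)
  have hdm : 1 ≤ d * m := Nat.mul_pos hd hm
  have hp0 : (p : ℂ) ≠ 0 := by exact_mod_cast (by omega : p ≠ 0)
  induction j with
  | zero =>
    refine ⟨fun l _ => if (l : ℕ) = 0 then 1 else 0, fun l => if (l : ℕ) = 0 then 1 else 0,
      fun l => ?_, fun t _ => ?_, fun z _ => ?_⟩
    · by_cases h : (l : ℕ) = 0
      · simp only [h, if_true, Nat.cast_zero, sub_self, mul_zero]
        exact Gr.const 1
      · simp only [h, if_false]
        exact Gr.zero _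
    · rw [Finset.sum_eq_single ⟨0, Nat.succ_pos m⟩]
      · simp [J7.th]
      · intro l _ hl
        have hne : ¬ ((l : ℕ) = 0) := fun h => hl (Fin.ext h)
        simp [hne]
      · intro h; exact absurd (Finset.mem_univ _) h
    · rw [Finset.sum_eq_single ⟨0, Nat.succ_pos m⟩]
      · simp
      · intro l _ hl
        have hne : ¬ ((l : ℕ) = 0) := fun h => hl (Fin.ext h)
        simp only [hne, if_false, zero_mul]
      · intro h; exact absurd (Finset.mem_univ _) h
  | succ j ih =>
    obtain ⟨n, c, hn, hrel, hz⟩ := ih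
    choose ρ b hG hE hb using red d e m p hde hm hp
    set β : ℕ → ℂ := fun i => (HC p).coeff (p - 2 * i) with hβ
    have hβ0 : β 0 = 1 := by rw [hβ]; simpa using HC_lead p
    set s := p / 2 with hs
    have hei : ∀ i, i < s → e * (i + 1) ≤ m + e := by
      intro i hi
      refine Nat.le_of_mul_le_mul_left ?_ hd
      have h5 : d * (e * (i + 1)) = 2 * (i + 1) := by rw [← mul_assoc, hde]
      have h3 : d * (m + e) = d * m + 2 := by rw [mul_add, hde]
      omega
    refine ⟨fun k t => (t : ℂ) * deriv (n k) t + ∑ l, (n l t * (Complex.I * ((t : ℂ) *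
          ρ ((l : ℕ) + m + e) k t)) + ∑ i ∈ Finset.range s, n l t * (Complex.I * β (i + 1) *
          ((t : ℂ) * ρ ((l : ℕ) + m + e - e * (i + 1)) k t))),
      fun k => ∑ l, c l * (Complex.I * b ((l : ℕ) + m + e) k), fun k => ?_, fun t ht => ?_,
      fun z hzz => ?_⟩
    · have g1 := ((hn k).theta hdm).shift
      have e1 : (d : ℤ) * ((k : ℕ) : ℤ) - 2 * (j : ℤ) - 2 =
          (d : ℤ) * ((k : ℕ) : ℤ) - 2 * ((j + 1 : ℕ) : ℤ) := by push_cast; ring
      rw [e1] at g1
      have g2 : Gr (d * m) (fun t : ℝ => ∑ l, (n l t * (Complex.I * ((t : ℂ) *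
          ρ ((l : ℕ) + m + e) k t)) + ∑ i ∈ Finset.range s, n l t * (Complex.I * β (i + 1) *
          ((t : ℂ) * ρ ((l : ℕ) + m + e - e * (i + 1)) k t))))
          ((d : ℤ) * ((k : ℕ) : ℤ) - 2 * ((j + 1 : ℕ) : ℤ))
          (∑ l, c l * (Complex.I * b ((l : ℕ) + m + e) k)) := by
        refine Gr.sum Finset.univ fun l _ => ?_
        have e3 : (d : ℤ) * (e : ℤ) = 2 := by exact_mod_cast hde
        have g3 := (hn l).mul ((Gr.id.mul (hG ((l : ℕ) + m + e) k)).cmul Complex.I)
        have e2 : (d : ℤ) * ((l : ℕ) : ℤ) - 2 * (j : ℤ) + (((d * m : ℕ) : ℤ) +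
            (d : ℤ) * (((k : ℕ) : ℤ) - (((l : ℕ) + m + e : ℕ) : ℤ))) =
            (d : ℤ) * ((k : ℕ) : ℤ) - 2 * ((j + 1 : ℕ) : ℤ) := by
          push_cast; linear_combination - e3
        rw [e2, one_mul] at g3
        have g4 : Gr (d * m) (fun t : ℝ => ∑ i ∈ Finset.range s, n l t * (Complex.I * β (i + 1) *
            ((t : ℂ) * ρ ((l : ℕ) + m + e - e * (i + 1)) k t)))
            ((d : ℤ) * ((k : ℕ) : ℤ) - 2 * ((j + 1 : ℕ) : ℤ)) 0 := by
          have h := Gr.sum (q := d * m) (a := (d : ℤ) * ((k : ℕ) : ℤ) - 2 * ((j + 1 : ℕ) : ℤ))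
            (Finset.range s) (F := fun i t => n l t * (Complex.I * β (i + 1) *
            ((t : ℂ) * ρ ((l : ℕ) + m + e - e * (i + 1)) k t))) (C := fun _ => 0)
            (fun i hi => by
              rw [Finset.mem_range] at hi
              have g5 := ((hn l).mul ((Gr.id.mul
                (hG ((l : ℕ) + m + e - e * (i + 1)) k)).cmul (Complex.I * β (i + 1)))).shiftn
                  (i + 1) (by omega)
              have e4 : (((l : ℕ) + m + e - e * (i + 1) : ℕ) : ℤ) =
                  ((l : ℕ) : ℤ) + m + e - e * (i + 1) := by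
                rw [Nat.cast_sub (by have := hei i hi; omega)]; push_cast; ring
              have e5 : (d : ℤ) * ((l : ℕ) : ℤ) - 2 * (j : ℤ) + (((d * m : ℕ) : ℤ) +
                  (d : ℤ) * (((k : ℕ) : ℤ) - (((l : ℕ) + m + e - e * (i + 1) : ℕ) : ℤ))) -
                    2 * ((i + 1 : ℕ) : ℤ) =
                  (d : ℤ) * ((k : ℕ) : ℤ) - 2 * ((j + 1 : ℕ) : ℤ) := by
                rw [e4]; push_cast; linear_combination (i : ℤ) * e3
              rw [e5] at g5
              exact g5)
          rwa [Finset.sum_const_zero] at h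
        have g6 := g3.add g4
        rwa [add_zero] at g6
      have g7 := g1.add g2
      rwa [zero_add] at g7
    · -- derivative of the relation
      have ht0 : (t : ℂ) ≠ 0 := Complex.ofReal_ne_zero.2 ht
      have h1 : J7.th j (E p 1) =ᶠ[𝓝 t] fun t => ∑ l, n l t * E p (X ^ (d * (l : ℕ))) t := by
        filter_upwards [isOpen_ne.mem_nhds ht] with s hs using hrel s hs
      have h2 : HasDerivAt (fun t => ∑ l, n l t * E p (X ^ (d * (l : ℕ))) t)
          (∑ l, (deriv (n l) t * E p (X ^ (d * (l : ℕ))) t +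
            n l t * deriv (E p (X ^ (d * (l : ℕ)))) t)) t := by
        refine HasDerivAt.fun_sum fun l _ => ?_
        exact ((hn l).diff ht).hasDerivAt.mul
          (E_hasDerivAt p (X ^ (d * (l : ℕ))) t).differentiableAt.hasDerivAt
      have h3 : deriv (J7.th j (E p 1)) t = ∑ l, (deriv (n l) t * E p (X ^ (d * (l : ℕ))) t +
            n l t * deriv (E p (X ^ (d * (l : ℕ)))) t) := by
        rw [h1.deriv_eq, h2.deriv]
      change (t : ℂ) * deriv (J7.th j (E p 1)) t = _
      rw [h3, Finset.mul_sum]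
      have h4 : ∀ l : Fin (m + 1), (t : ℂ) * (deriv (n l) t * E p (X ^ (d * (l : ℕ))) t +
            n l t * deriv (E p (X ^ (d * (l : ℕ)))) t) =
          (t : ℂ) * deriv (n l) t * E p (X ^ (d * (l : ℕ))) t +
          ∑ k, (n l t * (Complex.I * ((t : ℂ) * ρ ((l : ℕ) + m + e) k t)) +
            ∑ i ∈ Finset.range s, n l t * (Complex.I * β (i + 1) *
            ((t : ℂ) * ρ ((l : ℕ) + m + e - e * (i + 1)) k t))) * E p (X ^ (d * (k : ℕ))) t := by
        intro l
        have h5 := R2 d e m p hde hm hp l t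
        rw [Finset.sum_range_succ'] at h5
        simp only [mul_zero, Nat.sub_zero, HC_lead, mul_one] at h5
        have h6 : (t : ℂ) * (deriv (n l) t * E p (X ^ (d * (l : ℕ))) t +
            n l t * deriv (E p (X ^ (d * (l : ℕ)))) t) =
            (t : ℂ) * deriv (n l) t * E p (X ^ (d * (l : ℕ))) t +
            n l t * ((t : ℂ) * deriv (E p (X ^ (d * (l : ℕ)))) t) := by ring
        rw [h6, h5]
        congr 1
        have h7 : ∀ i ∈ Finset.range s, Complex.I * (t : ℂ) * (HC p).coeff (p - 2 * (i + 1)) *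
            E p (X ^ (d * ((l : ℕ) + m + e - e * (i + 1)))) t =
            ∑ k, (Complex.I * β (i + 1) * ((t : ℂ) * ρ ((l : ℕ) + m + e - e * (i + 1)) k t)) *
              E p (X ^ (d * (k : ℕ))) t := by
          intro i _
          rw [hE _ t ht, Finset.mul_sum]
          refine Finset.sum_congr rfl fun k _ => ?_
          rw [hβ]; ring
        rw [Finset.sum_congr rfl h7, hE _ t ht, Finset.sum_comm, mul_add, Finset.mul_sum,
          Finset.mul_sum, Finset.mul_sum, ← Finset.sum_add_distrib]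
        refine Finset.sum_congr rfl fun k _ => ?_
        rw [add_mul, Finset.sum_mul, add_comm, Finset.mul_sum]
        congr 1
        · ring
        · refine Finset.sum_congr rfl fun i _ => ?_
          ring
      rw [Finset.sum_congr rfl fun l _ => h4 l, Finset.sum_add_distrib]
      have h8 : ∑ k, ((t : ℂ) * deriv (n k) t + ∑ l, (n l t * (Complex.I * ((t : ℂ) *
          ρ ((l : ℕ) + m + e) k t)) + ∑ i ∈ Finset.range s, n l t * (Complex.I * β (i + 1) *
          ((t : ℂ) * ρ ((l : ℕ) + m + e - e * (i + 1)) k t)))) * E p (X ^ (d * (k : ℕ))) t =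
          ∑ k, (t : ℂ) * deriv (n k) t * E p (X ^ (d * (k : ℕ))) t +
          ∑ k, ∑ l, (n l t * (Complex.I * ((t : ℂ) *
          ρ ((l : ℕ) + m + e) k t)) + ∑ i ∈ Finset.range s, n l t * (Complex.I * β (i + 1) *
          ((t : ℂ) * ρ ((l : ℕ) + m + e - e * (i + 1)) k t))) * E p (X ^ (d * (k : ℕ))) t := by
        rw [← Finset.sum_add_distrib]
        refine Finset.sum_congr rfl fun k _ => ?_
        rw [add_mul, Finset.sum_mul]
      rw [h8]
      congr 1
      rw [Finset.sum_comm]
    · have h1 : ∑ k, (∑ l, c l * (Complex.I * b ((l : ℕ) + m + e) k)) * z ^ (k : ℕ) =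
          ∑ l, c l * (Complex.I * z ^ ((l : ℕ) + m + e)) := by
        simp_rw [Finset.sum_mul]
        rw [Finset.sum_comm]
        refine Finset.sum_congr rfl fun l _ => ?_
        rw [← hb _ z hzz, Finset.mul_sum, Finset.mul_sum]
        refine Finset.sum_congr rfl fun k _ => ?_
        ring
      rw [h1, pow_succ, ← hz z hzz, Finset.sum_mul]
      refine Finset.sum_congr rfl fun l _ => ?_
      obtain ⟨e', rfl⟩ : ∃ e', e = e' + 1 := ⟨e - 1, by omega⟩
      have h2 : Complex.I * z ^ (m + 1) = z / p := by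
        rw [eq_div_iff hp0]; linear_combination hzz
      have h3 : Complex.I * z ^ ((l : ℕ) + m + (e' + 1)) =
          z ^ (l : ℕ) * z ^ e' * (Complex.I * z ^ (m + 1)) := by ring
      rw [h3, h2]; ring

end rel

end Pool.Agent.H288.ST
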